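import Mathlib
namespace Pool.Agent.H.MP_6995cd_al
open Matrix
open scoped Kronecker
universe u v w

structure Rp (R : Type u) (Γ : Type v) [CommRing R] [Monoid Γ] where
  ι : Type
  [fin : Fintype ι]
  [dec : DecidableEq ι]
  ρ : Γ → Matrix ι ι R
  mul : ∀ g h, ρ (g * h) = ρ g * ρ h

attribute [instance] Rp.fin Rp.dec

namespace Rp
variable {R : Type u} {Γ : Type v} [CommRing R] [Monoid Γ]

lemma one_mul' (A : Rp R Γ) (g : Γ) : A.ρ 1 * A.ρ g = A.ρ g := by rw [← A.mul, one_mul]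
lemma mul_one' (A : Rp R Γ) (g : Γ) : A.ρ g * A.ρ 1 = A.ρ g := by rw [← A.mul, mul_one]

def Iso (A B : Rp R Γ) : Prop :=
  ∃ (α : Matrix B.ι A.ι R) (β : Matrix A.ι B.ι R), (∀ g, α * A.ρ g = B.ρ g * α) ∧
    (∀ g, β * B.ρ g = A.ρ g * β) ∧ β * α = A.ρ 1 ∧ α * β = B.ρ 1

lemma Iso.refl (A : Rp R Γ) : A.Iso A :=
  ⟨A.ρ 1, A.ρ 1, fun g => by rw [one_mul', mul_one'], fun g => by rw [one_mul', mul_one'],
    A.one_mul' 1, A.one_mul' 1⟩

lemma Iso.symm {A B : Rp R Γ} (h : A.Iso B) : B.Iso A := by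
  obtain ⟨α, β, h1, h2, h3, h4⟩ := h
  exact ⟨β, α, h2, h1, h4, h3⟩

lemma Iso.trans {A B C : Rp R Γ} (h : A.Iso B) (h' : B.Iso C) : A.Iso C := by
  obtain ⟨α, β, h1, h2, h3, h4⟩ := h
  obtain ⟨α', β', k1, k2, k3, k4⟩ := h'
  refine ⟨α' * α, β * β', fun g => ?_, fun g => ?_, ?_, ?_⟩
  · rw [Matrix.mul_assoc, h1, ← Matrix.mul_assoc, k1, Matrix.mul_assoc]
  · rw [Matrix.mul_assoc, k2, ← Matrix.mul_assoc, h2, Matrix.mul_assoc]
  · rw [Matrix.mul_assoc, ← Matrix.mul_assoc β', k3, ← h1, ← Matrix.mul_assoc, h3, one_mul']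
  · rw [Matrix.mul_assoc, ← Matrix.mul_assoc α, h4, ← k2, ← Matrix.mul_assoc, k4, one_mul']

lemma iso_of_retract {A B : Rp R Γ} (J : Matrix B.ι A.ι R) (P : Matrix A.ι B.ι R)
    (h : P * J = 1) (hB : ∀ g, B.ρ g = J * A.ρ g * P) : A.Iso B := by
  refine ⟨J * A.ρ 1, A.ρ 1 * P, fun g => ?_, fun g => ?_, ?_, ?_⟩
  · rw [hB, Matrix.mul_assoc, one_mul', Matrix.mul_assoc, ← Matrix.mul_assoc P, h, Matrix.one_mul,
      Matrix.mul_assoc, mul_one']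
  · rw [hB, ← Matrix.mul_assoc, ← Matrix.mul_assoc, Matrix.mul_assoc _ P, h, Matrix.mul_one,
      one_mul', ← Matrix.mul_assoc, mul_one']
  · rw [Matrix.mul_assoc, ← Matrix.mul_assoc P, h, Matrix.one_mul, one_mul']
  · rw [hB, Matrix.mul_assoc, ← Matrix.mul_assoc (A.ρ 1), one_mul', Matrix.mul_assoc]

lemma iso_of_emb {A B : Rp R Γ} (j : A.ι → B.ι) (hj : Function.Injective j)
    (h : ∀ g a a', B.ρ g (j a) (j a') = A.ρ g a a')
    (h0 : ∀ g b b', B.ρ g b b' ≠ 0 → b ∈ Set.range j ∧ b' ∈ Set.range j) : A.Iso B := by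
  refine iso_of_retract (Matrix.of fun b a => if b = j a then 1 else 0)
    (Matrix.of fun a b => if b = j a then 1 else 0) ?_ ?_
  · ext a a'
    simp [Matrix.mul_apply, Matrix.one_apply, hj.eq_iff, eq_comm]
  · intro g
    ext b b'
    simp only [Matrix.mul_apply, Matrix.of_apply, ite_mul, one_mul, zero_mul, mul_ite, mul_one,
      mul_zero]
    by_cases hb : b ∈ Set.range j ∧ b' ∈ Set.range j
    · obtain ⟨⟨a, rfl⟩, ⟨a', rfl⟩⟩ := hb
      simp [hj.eq_iff, h]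
    · have := mt (h0 g b b') hb
      rw [not_not] at this
      rw [this]
      symm
      refine Finset.sum_eq_zero fun a' _ => ?_
      split_ifs with h1
      · refine Finset.sum_eq_zero fun a _ => ?_
        split_ifs with h2
        · exact absurd ⟨⟨a, h2.symm⟩, ⟨a', h1.symm⟩⟩ hb
        · rfl
      · rfl

lemma iso_of_equiv {A B : Rp R Γ} (e : A.ι ≃ B.ι)
    (h : ∀ g a a', B.ρ g (e a) (e a') = A.ρ g a a') : A.Iso B :=
  iso_of_emb e e.injective h fun _ b b' _ => ⟨e.surjective b, e.surjective b'⟩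

abbrev sum (A B : Rp R Γ) : Rp R Γ where
  ι := A.ι ⊕ B.ι
  ρ g := fromBlocks (A.ρ g) 0 0 (B.ρ g)
  mul g h := by simp [fromBlocks_multiply, A.mul, B.mul]

abbrev ten (A B : Rp R Γ) : Rp R Γ where
  ι := A.ι × B.ι
  ρ g := A.ρ g ⊗ₖ B.ρ g
  mul g h := by rw [A.mul, B.mul, mul_kronecker_mul]

abbrev zero : Rp R Γ where
  ι := Empty
  ρ _ := 0
  mul _ _ := by simp

abbrev one : Rp R Γ where
  ι := Unit
  ρ _ := 1
  mul _ _ := by simp

lemma Iso.sum {A B A' B' : Rp R Γ} (h : A.Iso A') (h' : B.Iso B') : (A.sum B).Iso (A'.sum B') := by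
  obtain ⟨α, β, h1, h2, h3, h4⟩ := h
  obtain ⟨α', β', k1, k2, k3, k4⟩ := h'
  refine ⟨fromBlocks α 0 0 α', fromBlocks β 0 0 β', fun g => ?_, fun g => ?_, ?_, ?_⟩ <;>
  simp [fromBlocks_multiply, *]

lemma Iso.ten {A B A' B' : Rp R Γ} (h : A.Iso A') (h' : B.Iso B') : (A.ten B).Iso (A'.ten B') := by
  obtain ⟨α, β, h1, h2, h3, h4⟩ := h
  obtain ⟨α', β', k1, k2, k3, k4⟩ := h'
  refine ⟨α ⊗ₖ α', β ⊗ₖ β', fun g => ?_, fun g => ?_, ?_, ?_⟩ <;>
  simp only [← mul_kronecker_mul, *]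

instance st (R : Type u) (Γ : Type v) [CommRing R] [Monoid Γ] : Setoid (Rp R Γ) :=
  ⟨Iso, Iso.refl, Iso.symm, Iso.trans⟩

end Rp

def S (R : Type u) (Γ : Type v) [CommRing R] [Monoid Γ] := Quotient (Rp.st R Γ)

namespace S
variable {R : Type u} {Γ : Type v} [CommRing R] [Monoid Γ]

def mk (A : Rp R Γ) : S R Γ := Quotient.mk _ A

lemma mk_eq {A B : Rp R Γ} : mk A = mk B ↔ A.Iso B := Quotient.eq

lemma surj (x : S R Γ) : ∃ A, mk A = x := Quotient.exists_rep x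

instance : Add (S R Γ) := ⟨Quotient.map₂ Rp.sum fun _ _ h _ _ h' => Rp.Iso.sum h h'⟩
instance : Mul (S R Γ) := ⟨Quotient.map₂ Rp.ten fun _ _ h _ _ h' => Rp.Iso.ten h h'⟩
instance : Zero (S R Γ) := ⟨mk Rp.zero⟩
instance : One (S R Γ) := ⟨mk Rp.one⟩

lemma mk_sum (A B : Rp R Γ) : mk (A.sum B) = mk A + mk B := rfl
lemma mk_ten (A B : Rp R Γ) : mk (A.ten B) = mk A * mk B := rfl
lemma mk_zero : mk (Rp.zero : Rp R Γ) = 0 := rfl
lemma mk_one : mk (Rp.one : Rp R Γ) = 1 := rfl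

lemma add_comm' (x y : S R Γ) : x + y = y + x := by
  obtain ⟨A, rfl⟩ := surj x; obtain ⟨B, rfl⟩ := surj y
  refine mk_eq.2 (Rp.iso_of_equiv (Equiv.sumComm _ _) ?_)
  rintro g (a | a) (b | b) <;> rfl

lemma mul_comm' (x y : S R Γ) : x * y = y * x := by
  obtain ⟨A, rfl⟩ := surj x; obtain ⟨B, rfl⟩ := surj y
  refine mk_eq.2 (Rp.iso_of_equiv (Equiv.prodComm _ _) ?_)
  rintro g ⟨a, a'⟩ ⟨b, b'⟩
  exact mul_comm _ _

lemma zero_add' (x : S R Γ) : 0 + x = x := by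
  obtain ⟨A, rfl⟩ := surj x
  refine mk_eq.2 (Rp.iso_of_equiv (Equiv.emptySum Empty _) ?_)
  rintro g (a | a) (b | b) <;> first | rfl | exact a.elim | exact b.elim

lemma one_mul' (x : S R Γ) : 1 * x = x := by
  obtain ⟨A, rfl⟩ := surj x
  refine mk_eq.2 (Rp.iso_of_equiv (Equiv.punitProd _) ?_)
  rintro g ⟨⟨⟩, a'⟩ ⟨⟨⟩, b'⟩
  exact (one_mul _).symm

lemma zero_mul' (x : S R Γ) : 0 * x = 0 := by
  obtain ⟨A, rfl⟩ := surj x
  refine mk_eq.2 (Rp.iso_of_equiv (Equiv.emptyProd _) ?_)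
  rintro g ⟨a, a'⟩
  exact a.elim

lemma left_distrib' (x y z : S R Γ) : x * (y + z) = x * y + x * z := by
  obtain ⟨A, rfl⟩ := surj x; obtain ⟨B, rfl⟩ := surj y; obtain ⟨C, rfl⟩ := surj z
  refine mk_eq.2 (Rp.iso_of_equiv (Equiv.prodSumDistrib _ _ _) ?_)
  rintro g ⟨a, (b | b)⟩ ⟨a', (b' | b')⟩ <;> first | rfl | exact (mul_zero _).symm

instance : CommSemiring (S R Γ) where
  add_assoc x y z := by
    obtain ⟨A, rfl⟩ := surj x; obtain ⟨B, rfl⟩ := surj y; obtain ⟨C, rfl⟩ := surj z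
    refine mk_eq.2 (Rp.iso_of_equiv (Equiv.sumAssoc _ _ _) ?_)
    rintro g ((a | a) | a) ((b | b) | b) <;> rfl
  zero_add := zero_add'
  add_zero x := by rw [add_comm', zero_add']
  add_comm := add_comm'
  nsmul := nsmulRec
  mul_assoc x y z := by
    obtain ⟨A, rfl⟩ := surj x; obtain ⟨B, rfl⟩ := surj y; obtain ⟨C, rfl⟩ := surj z
    refine mk_eq.2 (Rp.iso_of_equiv (Equiv.prodAssoc _ _ _) ?_)
    rintro g ⟨⟨a, b⟩, c⟩ ⟨⟨a', b'⟩, c'⟩
    exact (mul_assoc _ _ _).symm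
  one_mul := one_mul'
  mul_one x := by rw [mul_comm', one_mul']
  mul_comm := mul_comm'
  zero_mul := zero_mul'
  mul_zero x := by rw [mul_comm', zero_mul']
  left_distrib := left_distrib'
  right_distrib x y z := by rw [mul_comm', left_distrib', mul_comm' z, mul_comm' z]

end S

end Pool.Agent.H.MP_6995cd_al
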