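import Mathlib
namespace Pool.Agent.H.MP_6995cd_al
universe u v w

section
variable (S : Type u) [CommSemiring S]

instance grSt : Setoid (S × S) where
  r x y := ∃ k, x.1 + y.2 + k = y.1 + x.2 + k
  iseqv := ⟨fun _ => ⟨0, rfl⟩, fun ⟨k, h⟩ => ⟨k, h.symm⟩, fun {x y z} ⟨k, h⟩ ⟨l, h'⟩ =>
    ⟨k + l + y.1 + y.2, by
      calc x.1 + z.2 + (k + l + y.1 + y.2) = (x.1 + y.2 + k) + (y.1 + z.2 + l) := by ring
        _ = (y.1 + x.2 + k) + (z.1 + y.2 + l) := by rw [h, h']
        _ = _ := by ring⟩⟩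

def Gr := Quotient (grSt S)
end

namespace Gr
variable {S : Type u} [CommSemiring S]

def mk (a b : S) : Gr S := Quotient.mk _ (a, b)

lemma mk_eq {a b c d : S} : mk a b = mk c d ↔ ∃ k, a + d + k = c + b + k := Quotient.eq

lemma surj (x : Gr S) : ∃ a b, mk a b = x := by
  obtain ⟨⟨a, b⟩, rfl⟩ := Quotient.exists_rep x
  exact ⟨a, b, rfl⟩

instance : Add (Gr S) := ⟨Quotient.map₂ (fun x y => (x.1 + y.1, x.2 + y.2))
  fun x x' ⟨k, h⟩ y y' ⟨l, h'⟩ => ⟨k + l, by
    calc x.1 + y.1 + (x'.2 + y'.2) + (k + l) = (x.1 + x'.2 + k) + (y.1 + y'.2 + l) := by ring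
      _ = (x'.1 + x.2 + k) + (y'.1 + y.2 + l) := by rw [h, h']
      _ = _ := by ring⟩⟩

instance : Neg (Gr S) := ⟨Quotient.map (fun x => (x.2, x.1))
  fun x x' ⟨k, h⟩ => ⟨k, by
    calc x.2 + x'.1 + k = x'.1 + x.2 + k := by ring
      _ = x.1 + x'.2 + k := h.symm
      _ = _ := by ring⟩⟩

instance : Mul (Gr S) := ⟨Quotient.map₂ (fun x y => (x.1 * y.1 + x.2 * y.2, x.1 * y.2 + x.2 * y.1))
  fun x x' ⟨k, h⟩ y y' ⟨l, h'⟩ => ⟨k * (y.1 + y.2) + l * (x'.1 + x'.2) + x'.1 * y.1 + x'.2 * y.2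
      + x'.1 * y.2 + x'.2 * y.1, by
    calc x.1 * y.1 + x.2 * y.2 + (x'.1 * y'.2 + x'.2 * y'.1) + (k * (y.1 + y.2) + l * (x'.1 + x'.2)
          + x'.1 * y.1 + x'.2 * y.2 + x'.1 * y.2 + x'.2 * y.1)
        = (x.1 + x'.2 + k) * y.1 + (x'.1 + x.2 + k) * y.2 + x'.1 * (y.1 + y'.2 + l)
          + x'.2 * (y'.1 + y.2 + l) := by ring
      _ = (x'.1 + x.2 + k) * y.1 + (x.1 + x'.2 + k) * y.2 + x'.1 * (y'.1 + y.2 + l)
          + x'.2 * (y.1 + y'.2 + l) := by rw [h, h']
      _ = _ := by ring⟩⟩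

instance : Zero (Gr S) := ⟨mk 0 0⟩
instance : One (Gr S) := ⟨mk 1 0⟩

lemma mk_add (a b c d : S) : mk a b + mk c d = mk (a + c) (b + d) := rfl
lemma mk_neg (a b : S) : - mk a b = mk b a := rfl
lemma mk_mul (a b c d : S) : mk a b * mk c d = mk (a * c + b * d) (a * d + b * c) := rfl
lemma zero_def : (0 : Gr S) = mk 0 0 := rfl
lemma one_def : (1 : Gr S) = mk 1 0 := rfl

instance : CommRing (Gr S) := CommRing.ofMinimalAxioms
  (fun x y z => by
    obtain ⟨a, b, rfl⟩ := surj x; obtain ⟨c, d, rfl⟩ := surj y; obtain ⟨e, f, rfl⟩ := surj z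
    simp only [mk_add, add_assoc])
  (fun x => by
    obtain ⟨a, b, rfl⟩ := surj x
    simp only [mk_add, zero_def, zero_add])
  (fun x => by
    obtain ⟨a, b, rfl⟩ := surj x
    rw [mk_neg, mk_add, zero_def, mk_eq]
    exact ⟨0, by ring⟩)
  (fun x y z => by
    obtain ⟨a, b, rfl⟩ := surj x; obtain ⟨c, d, rfl⟩ := surj y; obtain ⟨e, f, rfl⟩ := surj z
    simp only [mk_mul]
    congr 1 <;> ring)
  (fun x y => by
    obtain ⟨a, b, rfl⟩ := surj x; obtain ⟨c, d, rfl⟩ := surj y
    simp only [mk_mul]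
    congr 1 <;> ring)
  (fun x => by
    obtain ⟨a, b, rfl⟩ := surj x
    simp only [mk_mul, one_def]
    congr 1 <;> ring)
  (fun x y z => by
    obtain ⟨a, b, rfl⟩ := surj x; obtain ⟨c, d, rfl⟩ := surj y; obtain ⟨e, f, rfl⟩ := surj z
    simp only [mk_mul, mk_add]
    congr 1 <;> ring)

def of : S →+* Gr S where
  toFun a := mk a 0
  map_one' := rfl
  map_zero' := rfl
  map_add' a b := by rw [mk_add, add_zero]
  map_mul' a b := by rw [mk_mul]; congr 1 <;> ring

lemma mk_eq_sub (a b : S) : mk a b = of a - of b := by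
  rw [sub_eq_add_neg]
  show _ = mk a 0 + - mk b 0
  rw [mk_neg, mk_add, add_zero, zero_add]

lemma ex (x : Gr S) : ∃ a b, x = of a - of b := by
  obtain ⟨a, b, rfl⟩ := surj x
  exact ⟨a, b, mk_eq_sub a b⟩

lemma of_eq {a b : S} : of a = of b ↔ ∃ k, a + k = b + k := by
  show mk a 0 = mk b 0 ↔ _
  rw [mk_eq, add_zero, add_zero]

def liftAdd {M : Type v} [AddCommGroup M] (f : S →+ M) : Gr S →+ M :=
  AddMonoidHom.mk' (Quotient.lift (fun x : S × S => f x.1 - f x.2) fun x y ⟨k, h⟩ => by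
    have := congrArg f h
    simp only [map_add, add_left_inj] at this
    show f x.1 - f x.2 = f y.1 - f y.2
    rw [sub_eq_sub_iff_add_eq_add, this]) fun x y => by
      obtain ⟨a, b, rfl⟩ := surj x; obtain ⟨c, d, rfl⟩ := surj y
      show f (a + c) - f (b + d) = f a - f b + (f c - f d)
      rw [map_add, map_add]; abel

@[simp] lemma liftAdd_of {M : Type v} [AddCommGroup M] (f : S →+ M) (a : S) :
    liftAdd f (of a) = f a := by
  show f a - f 0 = f a
  rw [map_zero, sub_zero]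

def lift {T : Type v} [CommRing T] (f : S →+* T) : Gr S →+* T where
  toFun := liftAdd f.toAddMonoidHom
  map_one' := by
    have := liftAdd_of f.toAddMonoidHom 1
    rw [map_one] at this
    rw [this]; exact f.map_one
  map_zero' := map_zero _
  map_add' := map_add _
  map_mul' x y := by
    obtain ⟨a, b, rfl⟩ := surj x; obtain ⟨c, d, rfl⟩ := surj y
    show f (a * c + b * d) - f (a * d + b * c) = (f a - f b) * (f c - f d)
    simp only [map_add, map_mul]; ring

@[simp] lemma lift_of {T : Type v} [CommRing T] (f : S →+* T) (a : S) : lift f (of a) = f a :=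
  liftAdd_of f.toAddMonoidHom a

lemma add_ext {M : Type v} [AddCommGroup M] {f g : Gr S →+ M} (h : ∀ a, f (of a) = g (of a)) :
    f = g := by
  ext x
  obtain ⟨a, b, rfl⟩ := ex x
  rw [map_sub, map_sub, h, h]

end Gr

section Pol
variable {S : Type u} [CommSemiring S] {T : Type v} [CommRing T]

def PolS : ℕ → (S → T) → Prop
  | 0, F => ∀ x, F x = 0
  | n + 1, F => ∀ a, PolS n fun x => F (x + a) - F x

def Pol : ℕ → (Gr S → T) → Prop
  | 0, F => ∀ x, F x = 0
  | n + 1, F => ∀ a : S, Pol n fun x => F (x + Gr.of a) - F x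

lemma Pol.uniq : ∀ {n : ℕ} {F : Gr S → T}, Pol n F → (∀ a, F (Gr.of a) = 0) → ∀ x, F x = 0
  | 0, _, h, _ => h
  | n + 1, F, h, h0 => fun x => by
    obtain ⟨a, b, rfl⟩ := Gr.ex x
    have := Pol.uniq (h b) (fun c => by rw [← map_add, h0, h0, sub_self]) (Gr.of a - Gr.of b)
    rw [sub_add_cancel, h0, zero_sub, neg_eq_zero] at this
    exact this

lemma Pol.succ : ∀ {n : ℕ} {F : Gr S → T}, Pol n F → Pol (n + 1) F
  | 0, _, h => fun _ x => by beta_reduce; rw [h, h, sub_self]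
  | _ + 1, _, h => fun a => Pol.succ (h a)

lemma Pol.mono {n m : ℕ} {F : Gr S → T} (h : Pol n F) (hnm : n ≤ m) : Pol m F := by
  induction hnm with
  | refl => exact h
  | step _ ih => exact ih.succ

lemma Pol.add : ∀ {n : ℕ} {F G : Gr S → T}, Pol n F → Pol n G → Pol n fun x => F x + G x
  | 0, _, _, h, h' => fun x => by beta_reduce; rw [h, h', add_zero]
  | n + 1, F, G, h, h' => fun a => by
    have := Pol.add (h a) (h' a)
    convert this using 2
    ring

lemma Pol.comp {T' : Type w} [CommRing T'] (f : T →+ T') :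
    ∀ {n : ℕ} {F : Gr S → T}, Pol n F → Pol n fun x => f (F x)
  | 0, _, h => fun x => by beta_reduce; rw [h, map_zero]
  | n + 1, F, h => fun a => by
    have := Pol.comp f (h a)
    convert this using 2
    rw [map_sub]

lemma Pol.sub {n : ℕ} {F G : Gr S → T} (h : Pol n F) (h' : Pol n G) :
    Pol n fun x => F x - G x := by
  have := h.add (h'.comp (-AddMonoidHom.id T))
  convert this using 2
  simp [sub_eq_add_neg]

lemma Pol.shift (y : Gr S) : ∀ {n : ℕ} {F : Gr S → T}, Pol n F → Pol n fun x => F (x + y)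
  | 0, _, h => fun _ => h _
  | n + 1, F, h => fun a => by
    have := Pol.shift y (h a)
    convert this using 4
    ring

lemma Pol.scale (b : S) : ∀ {n : ℕ} {F : Gr S → T}, Pol n F → Pol n fun x => F (x * Gr.of b)
  | 0, _, h => fun _ => h _
  | n + 1, F, h => fun a => by
    have := Pol.scale b (h (a * b))
    convert this using 4
    rw [map_mul]; ring

lemma Pol.all : ∀ {n : ℕ} {F : Gr S → T}, Pol (n + 1) F → ∀ y, Pol n fun x => F (x + y) - F x := by
  intro n F h y
  obtain ⟨a, b, rfl⟩ := Gr.ex y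
  have := ((h a).shift (-Gr.of b)).sub ((h b).shift (-Gr.of b))
  convert this using 2 with x
  rw [show x + -Gr.of b + Gr.of b = x by ring, show x + -Gr.of b + Gr.of a = x + (Gr.of a - Gr.of b)
    by ring]
  ring

lemma Pol.scale' (y : Gr S) : ∀ {n : ℕ} {F : Gr S → T}, Pol n F → Pol n fun x => F (x * y)
  | 0, _, h => fun _ => h _
  | n + 1, F, h => fun a => by
    have := Pol.scale' y (h.all (Gr.of a * y))
    convert this using 4
    ring

lemma Pol.mul : ∀ (N : ℕ) {n m : ℕ} {F G : Gr S → T}, n + m ≤ N → Pol n F → Pol m G →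
    Pol N fun x => F x * G x
  | N, 0, _, _, _, _, h, _ => Pol.mono (n := 0) (fun x => by beta_reduce; rw [h, zero_mul]) N.zero_le
  | N, _ + 1, 0, _, _, _, _, h => Pol.mono (n := 0) (fun x => by beta_reduce; rw [h, mul_zero]) N.zero_le
  | 0, _ + 1, _ + 1, _, _, hN, _, _ => by omega
  | N + 1, n + 1, m + 1, F, G, hN, h, h' => fun a => by
    have h1 := Pol.mul N (by omega) (h a) (h'.shift (Gr.of a))
    have h2 := Pol.mul N (by omega) h (h' a)
    convert h1.add h2 using 2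
    ring

lemma Pol.const (c : T) : Pol 1 fun _ : Gr S => c := fun _ _ => sub_self _

lemma Pol.hom (f : Gr S →+ T) : Pol 2 f := fun a b x => by
  simp

lemma PolS.ext : ∀ {n : ℕ} {φ : S → T}, PolS n φ → ∃ F : Gr S → T, Pol n F ∧ ∀ a, F (Gr.of a) = φ a
  | 0, φ, h => ⟨fun _ => 0, fun _ => rfl, fun a => (h a).symm⟩
  | n + 1, φ, h => by
    choose D hD hD' using fun a => PolS.ext (h a)
    have key : ∀ b c x, D (b + c) x = D c (x + Gr.of b) + D b x := fun b c x => by
      have := Pol.uniq ((hD (b + c)).sub (((hD c).shift (Gr.of b)).add (hD b))) (fun a => by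
        rw [← map_add, hD', hD', hD', add_assoc]; ring) x
      exact sub_eq_zero.1 this
    have wd : ∀ a b c, φ (a + c) - D (b + c) (Gr.of a - Gr.of b) = φ a - D b (Gr.of a - Gr.of b) :=
      fun a b c => by rw [key, sub_add_cancel, hD']; ring
    let F : Gr S → T := Quotient.lift (fun x : S × S => φ x.1 - D x.2 (Gr.mk x.1 x.2))
      fun x y hxy => by
        have e : Gr.mk x.1 x.2 = Gr.mk y.1 y.2 := Gr.mk_eq.2 hxy
        obtain ⟨k, hk⟩ := hxy
        show φ x.1 - D x.2 (Gr.mk x.1 x.2) = φ y.1 - D y.2 (Gr.mk y.1 y.2)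
        have h1 := wd x.1 x.2 (y.2 + k)
        have h2 := wd y.1 y.2 (x.2 + k)
        rw [← Gr.mk_eq_sub] at h1 h2
        rw [← h1, ← h2, e, ← add_assoc, ← add_assoc, ← add_assoc, ← add_assoc, hk, add_comm x.2 y.2]
    have hF : ∀ a b, F (Gr.of a - Gr.of b) = φ a - D b (Gr.of a - Gr.of b) := fun a b => by
      rw [← Gr.mk_eq_sub]; rfl
    refine ⟨F, fun c => ?_, fun a => ?_⟩
    · convert hD c using 2 with x
      obtain ⟨a, b, rfl⟩ := Gr.ex x
      have e : Gr.of a - Gr.of b + Gr.of c = Gr.of (a + c) - Gr.of b := by rw [map_add]; ring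
      have k1 := key b c (Gr.of a - Gr.of b)
      have k2 := key c b (Gr.of a - Gr.of b)
      rw [add_comm c b, k1, sub_add_cancel, hD', e] at k2
      rw [e, hF, hF]
      linear_combination k2
    · have := hF a 0
      rw [map_zero, sub_zero, hD', add_zero, sub_self, sub_zero] at this
      exact this

def Poly (F : Gr S → T) : Prop := ∃ n, Pol n F

lemma Poly.ext {F G : Gr S → T} (h : Poly F) (h' : Poly G) (e : ∀ a, F (Gr.of a) = G (Gr.of a))
    (x : Gr S) : F x = G x := by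
  obtain ⟨n, h⟩ := h
  obtain ⟨m, h'⟩ := h'
  exact sub_eq_zero.1 (((h.mono (le_max_left n m)).sub (h'.mono (le_max_right n m))).uniq
    (fun a => sub_eq_zero.2 (e a)) x)

lemma Poly.add {F G : Gr S → T} (h : Poly F) (h' : Poly G) : Poly fun x => F x + G x := by
  obtain ⟨n, h⟩ := h
  obtain ⟨m, h'⟩ := h'
  exact ⟨_, (h.mono (le_max_left n m)).add (h'.mono (le_max_right n m))⟩

lemma Poly.mul {F G : Gr S → T} (h : Poly F) (h' : Poly G) : Poly fun x => F x * G x := by
  obtain ⟨n, h⟩ := h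
  obtain ⟨m, h'⟩ := h'
  exact ⟨_, Pol.mul _ le_rfl h h'⟩

lemma Poly.const (c : T) : Poly fun _ : Gr S => c := ⟨_, Pol.const c⟩

lemma Poly.hom (f : Gr S →+ T) : Poly f := ⟨_, Pol.hom f⟩

lemma Poly.comp {T' : Type w} [CommRing T'] (f : T →+ T') {F : Gr S → T} (h : Poly F) :
    Poly fun x => f (F x) := by
  obtain ⟨n, h⟩ := h
  exact ⟨_, h.comp f⟩

lemma Poly.shift {F : Gr S → T} (h : Poly F) (y : Gr S) : Poly fun x => F (x + y) := by
  obtain ⟨n, h⟩ := h
  exact ⟨_, h.shift y⟩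

lemma Poly.scale {F : Gr S → T} (h : Poly F) (y : Gr S) : Poly fun x => F (x * y) := by
  obtain ⟨n, h⟩ := h
  exact ⟨_, h.scale' y⟩

lemma Poly.sum {J : Type w} (s : Finset J) {F : J → Gr S → T} (h : ∀ j ∈ s, Poly (F j)) :
    Poly fun x => ∑ j ∈ s, F j x := by
  classical
  induction s using Finset.induction_on with
  | empty => simpa using Poly.const (0 : T)
  | insert a s ha ih =>
    simp only [Finset.sum_insert ha]
    exact (h a (Finset.mem_insert_self _ _)).add (ih fun j hj => h j (Finset.mem_insert_of_mem hj))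

end Pol

end Pool.Agent.H.MP_6995cd_al
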