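import Pool.Agent.H.MP_6995cd_al.A
import Pool.Agent.H.MP_6995cd_al.Gr
namespace Pool.Agent.H.MP_6995cd_al
open Matrix
open scoped Kronecker
universe u v w u'

abbrev K (R : Type u) (Γ : Type v) [CommRing R] [Monoid Γ] := Gr (S R Γ)

section
variable {R : Type u} {Γ : Type v} [CommRing R] [Monoid Γ]

def cl (A : Rp R Γ) : K R Γ := Gr.of (S.mk A)

lemma cl_sum (A B : Rp R Γ) : cl (A.sum B) = cl A + cl B := by
  unfold cl; rw [S.mk_sum, map_add]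
lemma cl_ten (A B : Rp R Γ) : cl (A.ten B) = cl A * cl B := by
  unfold cl; rw [S.mk_ten, map_mul]
lemma cl_zero : cl (Rp.zero : Rp R Γ) = 0 := by unfold cl; rw [S.mk_zero, map_zero]
lemma cl_one : cl (Rp.one : Rp R Γ) = 1 := by unfold cl; rw [S.mk_one, map_one]
lemma cl_iso {A B : Rp R Γ} (h : A.Iso B) : cl A = cl B := by unfold cl; rw [S.mk_eq.2 h]

lemma K_ex (x : K R Γ) : ∃ A B, x = cl A - cl B := by
  obtain ⟨a, b, rfl⟩ := Gr.ex x
  obtain ⟨A, rfl⟩ := S.surj a; obtain ⟨B, rfl⟩ := S.surj b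
  exact ⟨A, B, rfl⟩

lemma cl_eq {A B : Rp R Γ} : cl A = cl B ↔ ∃ X, (A.sum X).Iso (B.sum X) := by
  unfold cl
  rw [Gr.of_eq]
  constructor
  · rintro ⟨k, hk⟩
    obtain ⟨X, rfl⟩ := S.surj k
    exact ⟨X, S.mk_eq.1 hk⟩
  · rintro ⟨X, h⟩
    exact ⟨S.mk X, S.mk_eq.2 h⟩

lemma cl_eq_zero (A : Rp R Γ) (h : A.ρ 1 = 0) : cl A = 0 := by
  rw [← cl_zero]
  refine cl_iso ⟨0, 0, fun g => ?_, fun g => ?_, ?_, ?_⟩ <;> simp [h]

def Kadd {M : Type w} [AddCommGroup M] (f : Rp R Γ → M) (h1 : ∀ A B, A.Iso B → f A = f B)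
    (h2 : ∀ A B, f (A.sum B) = f A + f B) : K R Γ →+ M :=
  Gr.liftAdd
    { toFun := Quotient.lift f h1
      map_zero' := by
        have := h2 Rp.zero Rp.zero
        rw [h1 _ Rp.zero (S.mk_eq.1 (by rw [S.mk_sum, S.mk_zero, add_zero])), left_eq_add] at this
        exact this
      map_add' := fun x y => by
        obtain ⟨A, rfl⟩ := S.surj x; obtain ⟨B, rfl⟩ := S.surj y
        exact h2 A B }

@[simp] lemma Kadd_cl {M : Type w} [AddCommGroup M] (f : Rp R Γ → M) (h1 h2) (A : Rp R Γ) :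
    Kadd f h1 h2 (cl A) = f A := Gr.liftAdd_of _ _

lemma K_add_ext {M : Type w} [AddCommGroup M] {f g : K R Γ →+ M} (h : ∀ A, f (cl A) = g (cl A)) :
    f = g := Gr.add_ext fun a => by obtain ⟨A, rfl⟩ := S.surj a; exact h A

lemma K_poly_ext {T : Type w} [CommRing T] {F G : K R Γ → T} (h : Poly F) (h' : Poly G)
    (e : ∀ A, F (cl A) = G (cl A)) (x : K R Γ) : F x = G x :=
  h.ext h' (fun a => by obtain ⟨A, rfl⟩ := S.surj a; exact e A) x

def Kring {T : Type w} [CommRing T] (f : Rp R Γ → T) (h1 : ∀ A B, A.Iso B → f A = f B)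
    (h2 : ∀ A B, f (A.sum B) = f A + f B) (h3 : ∀ A B, f (A.ten B) = f A * f B)
    (h4 : f Rp.one = 1) : K R Γ →+* T where
  toFun := Kadd f h1 h2
  map_zero' := map_zero _
  map_add' := map_add _
  map_one' := by rw [← cl_one, Kadd_cl, h4]
  map_mul' x y := by
    obtain ⟨A, B, rfl⟩ := K_ex x
    obtain ⟨C, D, rfl⟩ := K_ex y
    simp only [sub_mul, mul_sub, ← cl_ten, map_sub, Kadd_cl, h3]

@[simp] lemma Kring_cl {T : Type w} [CommRing T] (f : Rp R Γ → T) (h1 h2 h3 h4) (A : Rp R Γ) :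
    Kring f h1 h2 h3 h4 (cl A) = f A := Kadd_cl f h1 h2 A

section maps
variable {R' : Type u'} {Γ' : Type w} [CommRing R'] [Monoid Γ']

abbrev Rp.res (φ : Γ' →* Γ) (A : Rp R Γ) : Rp R Γ' where
  ι := A.ι
  ρ g := A.ρ (φ g)
  mul g h := by rw [map_mul, A.mul]

lemma Rp.Iso.res (φ : Γ' →* Γ) {A B : Rp R Γ} (h : A.Iso B) : (A.res φ).Iso (B.res φ) := by
  obtain ⟨α, β, h1, h2, h3, h4⟩ := h
  exact ⟨α, β, fun g => h1 _, fun g => h2 _, by simpa using h3, by simpa using h4⟩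

def res (φ : Γ' →* Γ) : K R Γ →+* K R Γ' :=
  Kring (fun A => cl (A.res φ)) (fun _ _ h => cl_iso (h.res φ)) (fun A B => cl_sum (A.res φ) (B.res φ))
    (fun A B => cl_ten (A.res φ) (B.res φ)) cl_one

@[simp] lemma res_cl (φ : Γ' →* Γ) (A : Rp R Γ) : res φ (cl A) = cl (A.res φ) := Kring_cl ..

lemma res_res {Γ'' : Type u'} [Monoid Γ''] (φ : Γ' →* Γ) (ψ : Γ'' →* Γ') (x : K R Γ) :
    res ψ (res φ x) = res (φ.comp ψ) x := by
  obtain ⟨A, B, rfl⟩ := K_ex x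
  simp only [map_sub, res_cl]
  rfl

lemma res_id (x : K R Γ) : res (MonoidHom.id Γ) x = x := by
  obtain ⟨A, B, rfl⟩ := K_ex x
  simp only [map_sub, res_cl]
  rfl

abbrev Rp.bc (f : R →+* R') (A : Rp R Γ) : Rp R' Γ where
  ι := A.ι
  ρ g := (A.ρ g).map f
  mul g h := by rw [A.mul, Matrix.map_mul]

lemma Rp.Iso.bc (f : R →+* R') {A B : Rp R Γ} (h : A.Iso B) : (A.bc f).Iso (B.bc f) := by
  obtain ⟨α, β, h1, h2, h3, h4⟩ := h
  refine ⟨α.map f, β.map f, fun g => ?_, fun g => ?_, ?_, ?_⟩ <;>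
  simp only [← Matrix.map_mul, *]

lemma Rp.bc_sum (f : R →+* R') (A B : Rp R Γ) : (A.sum B).bc f = (A.bc f).sum (B.bc f) := by
  unfold Rp.bc Rp.sum
  congr
  ext g a b
  rcases a with a | a <;> rcases b with b | b <;> simp

lemma Rp.bc_ten (f : R →+* R') (A B : Rp R Γ) : (A.ten B).bc f = (A.bc f).ten (B.bc f) := by
  unfold Rp.bc Rp.ten
  congr
  ext g a b
  simp

lemma Rp.bc_one (f : R →+* R') : (Rp.one : Rp R Γ).bc f = Rp.one := by
  unfold Rp.bc Rp.one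
  congr
  ext g a b
  simp

def bc (f : R →+* R') : K R Γ →+* K R' Γ :=
  Kring (fun A => cl (A.bc f)) (fun _ _ h => cl_iso (h.bc f))
    (fun _ _ => by rw [Rp.bc_sum, cl_sum]) (fun _ _ => by rw [Rp.bc_ten, cl_ten])
    (by rw [Rp.bc_one, cl_one])

@[simp] lemma bc_cl (f : R →+* R') (A : Rp R Γ) : bc f (cl A) = cl (A.bc f) := Kring_cl ..

lemma bc_res (f : R →+* R') (φ : Γ' →* Γ) (x : K R Γ) : bc f (res φ x) = res φ (bc f x) := by
  obtain ⟨A, B, rfl⟩ := K_ex x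
  simp only [map_sub, res_cl, bc_cl]

end maps

def Rp.Idem (A : Rp R Γ) (ε : Matrix A.ι A.ι R) : Prop :=
  (∀ g, ε * A.ρ g = A.ρ g * ε) ∧ ε * ε = ε

abbrev Rp.cut (A : Rp R Γ) (ε : Matrix A.ι A.ι R) (h : A.Idem ε) : Rp R Γ where
  ι := A.ι
  ρ g := A.ρ g * ε
  mul g g' := by
    rw [A.mul, Matrix.mul_assoc, Matrix.mul_assoc, ← Matrix.mul_assoc ε, h.1, Matrix.mul_assoc, h.2]

open Classical in
noncomputable def cc (A : Rp R Γ) (ε : Matrix A.ι A.ι R) : K R Γ :=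
  if h : A.Idem ε then cl (A.cut ε h) else 0

lemma cc_eq {A : Rp R Γ} {ε : Matrix A.ι A.ι R} (h : A.Idem ε) : cc A ε = cl (A.cut ε h) :=
  dif_pos h

lemma cc_one (A : Rp R Γ) : cc A 1 = cl A := by
  rw [cc_eq ⟨by simp, by simp⟩]
  exact cl_iso (Rp.iso_of_equiv (Equiv.refl _) (by simp))

lemma cc_zero (A : Rp R Γ) : cc A 0 = 0 := by
  rw [cc_eq ⟨by simp, by simp⟩]
  exact cl_eq_zero _ (by simp)

lemma Rp.Idem.add {A : Rp R Γ} {ε η : Matrix A.ι A.ι R} (h : A.Idem ε) (h' : A.Idem η)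
    (h1 : ε * η = 0) (h2 : η * ε = 0) : A.Idem (ε + η) :=
  ⟨fun g => by rw [Matrix.add_mul, Matrix.mul_add, h.1, h'.1], by
    simp [Matrix.add_mul, Matrix.mul_add, h1, h2, h.2, h'.2]⟩

lemma cc_add {A : Rp R Γ} {ε η : Matrix A.ι A.ι R} (h : A.Idem ε) (h' : A.Idem η)
    (h1 : ε * η = 0) (h2 : η * ε = 0) : cc A (ε + η) = cc A ε + cc A η := by
  rw [cc_eq h, cc_eq h', cc_eq (h.add h' h1 h2), ← cl_sum]
  have e1 : ∀ g (X : Matrix A.ι A.ι R), ε * (A.ρ g * X) = A.ρ g * (ε * X) := fun g X => by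
    rw [← Matrix.mul_assoc, h.1, Matrix.mul_assoc]
  have e2 : ∀ g (X : Matrix A.ι A.ι R), η * (A.ρ g * X) = A.ρ g * (η * X) := fun g X => by
    rw [← Matrix.mul_assoc, h'.1, Matrix.mul_assoc]
  have e3 : ∀ g g' (X : Matrix A.ι A.ι R), A.ρ g * (A.ρ g' * X) = A.ρ (g * g') * X :=
    fun g g' X => by rw [← Matrix.mul_assoc, A.mul]
  refine cl_iso ⟨fromRows (A.ρ 1 * ε) (A.ρ 1 * η), fromCols (A.ρ 1 * ε) (A.ρ 1 * η),
    fun g => ?_, fun g => ?_, ?_, ?_⟩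
  · rw [fromRows_mul, fromBlocks_mul_fromRows]
    simp [Matrix.mul_assoc, e1, e2, e3, Matrix.mul_add, h1, h2, h.2, h'.2]
  · rw [mul_fromCols, fromCols_mul_fromBlocks]
    simp [Matrix.mul_assoc, e1, e2, e3, Matrix.add_mul, h1, h2, h.2, h'.2]
  · simp [fromCols_mul_fromRows, Matrix.mul_assoc, e1, e2, e3, Matrix.mul_add, h.2, h'.2]
  · simp [Matrix.mul_assoc, e1, e2, e3, h1, h2, h.2, h'.2]

lemma cc_sum {A : Rp R Γ} {J : Type w} (s : Finset J) (ε : J → Matrix A.ι A.ι R)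
    (h : ∀ j, A.Idem (ε j)) (ho : ∀ i j, i ≠ j → ε i * ε j = 0) :
    A.Idem (∑ j ∈ s, ε j) ∧ cc A (∑ j ∈ s, ε j) = ∑ j ∈ s, cc A (ε j) := by
  classical
  induction s using Finset.induction_on with
  | empty => exact ⟨⟨by simp, by simp⟩, by simp [cc_zero]⟩
  | insert a s ha ih =>
    have h1 : ε a * ∑ j ∈ s, ε j = 0 := by
      rw [Finset.mul_sum]
      exact Finset.sum_eq_zero fun j hj => ho _ _ (by rintro rfl; exact ha hj)
    have h2 : (∑ j ∈ s, ε j) * ε a = 0 := by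
      rw [Finset.sum_mul]
      exact Finset.sum_eq_zero fun j hj => ho _ _ (by rintro rfl; exact ha hj)
    rw [Finset.sum_insert ha, Finset.sum_insert ha, cc_add (h a) ih.1 h1 h2, ih.2]
    exact ⟨(h a).add ih.1 h1 h2, rfl⟩

end

end Pool.Agent.H.MP_6995cd_al
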