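import Pool.Agent.H.MP_6995cd_al.B
namespace Pool.Agent.H.MP_6995cd_al
open Matrix
open scoped Kronecker
universe u v w u'

structure Op (R : Type u) (Γ : Type v) [CommRing R] [Monoid Γ] where
  N : Type u
  [grp : AddCommGroup N]
  [fin : Finite N]
  a : R × Γ →* AddMonoid.End N

attribute [instance] Op.grp Op.fin

section
variable {R : Type u} {Γ : Type v} [CommRing R] [Monoid Γ]

def Hm (N : Op R Γ) (A : Rp R Γ) : AddSubgroup (N.N →+ (A.ι → R)) where
  carrier := {φ | ∀ r g x, φ (N.a (r, g) x) = r • A.ρ g *ᵥ φ x}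
  add_mem' := fun {φ ψ} h h' r g x => by
    simp only [AddMonoidHom.add_apply, h r g x, h' r g x, mulVec_add, smul_add]
  zero_mem' := fun r g x => by simp
  neg_mem' := fun {φ} h r g x => by
    simp only [AddMonoidHom.neg_apply, h r g x, mulVec_neg, smul_neg]

lemma mem_Hm {N : Op R Γ} {A : Rp R Γ} {φ : N.N →+ (A.ι → R)} :
    φ ∈ Hm N A ↔ ∀ r g x, φ (N.a (r, g) x) = r • A.ρ g *ᵥ φ x := Iff.rfl

lemma Hm_fix {N : Op R Γ} {A : Rp R Γ} {φ : N.N →+ (A.ι → R)} (h : φ ∈ Hm N A) (x : N.N) :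
    A.ρ 1 *ᵥ φ x = φ x := by
  have := h 1 1 x
  rw [one_smul, show ((1, 1) : R × Γ) = 1 from rfl, map_one] at this
  exact this.symm

instance [Finite R] (N : Op R Γ) (A : Rp R Γ) : Finite (N.N →+ (A.ι → R)) := DFunLike.finite _

def Op.quo (N : Op R Γ) (Q : AddSubgroup N.N) (h : ∀ t, Q ≤ Q.comap (N.a t)) : Op R Γ where
  N := N.N ⧸ Q
  a :=
    { toFun := fun t => QuotientAddGroup.map Q Q (N.a t) (h t)
      map_one' := by
        refine QuotientAddGroup.addMonoidHom_ext _ (AddMonoidHom.ext fun x => ?_)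
        simp
        rfl
      map_mul' := fun s t => by
        refine QuotientAddGroup.addMonoidHom_ext _ (AddMonoidHom.ext fun x => ?_)
        simp
        rfl }

lemma card_ker_quo (N : Op R Γ) (Q : AddSubgroup N.N) (h : ∀ t, Q ≤ Q.comap (N.a t)) (A : Rp R Γ) :
    Nat.card {φ : Hm N A // φ.1.ker = Q} = Nat.card {φ : Hm (N.quo Q h) A // φ.1.ker = ⊥} := by
  symm
  refine Nat.card_eq_of_bijective (fun φ => ⟨⟨φ.1.1.comp (QuotientAddGroup.mk' Q),
    fun r g x => φ.1.2 r g (x : N.N ⧸ Q)⟩, ?_⟩) ⟨fun φ ψ e => ?_, fun φ => ?_⟩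
  · ext x
    have := φ.2
    rw [AddMonoidHom.ker_eq_bot_iff] at this
    rw [AddMonoidHom.mem_ker, AddMonoidHom.comp_apply, map_eq_zero_iff _ this]
    exact QuotientAddGroup.eq_zero_iff x
  · refine Subtype.ext (Subtype.ext (QuotientAddGroup.addMonoidHom_ext _ ?_))
    exact congrArg (fun x => x.1.1) e
  · refine ⟨⟨⟨QuotientAddGroup.lift Q φ.1.1 (fun x hx => by rw [← φ.2] at hx; exact hx), ?_⟩, ?_⟩, ?_⟩
    · intro r g x
      obtain ⟨y, rfl⟩ := QuotientAddGroup.mk_surjective (s := Q) x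
      exact φ.1.2 r g y
    · rw [eq_bot_iff]
      intro x hx
      obtain ⟨y, rfl⟩ := QuotientAddGroup.mk_surjective (s := Q) x
      have : y ∈ φ.1.1.ker := hx
      rw [φ.2] at this
      exact (QuotientAddGroup.eq_zero_iff y).2 this
    · exact Subtype.ext (Subtype.ext (AddMonoidHom.ext fun x => rfl))

lemma card_fib [Finite R] (N : Op R Γ) (A : Rp R Γ) [Fintype (AddSubgroup N.N)] :
    Nat.card (Hm N A) = ∑ Q : AddSubgroup N.N, Nat.card {φ : Hm N A // φ.1.ker = Q} := by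
  rw [← Nat.card_sigma]
  exact Nat.card_congr (Equiv.sigmaFiberEquiv fun φ : Hm N A => φ.1.ker).symm

lemma lov_aux [Finite R] (A B : Rp R Γ) (h : ∀ N, Nat.card (Hm N A) = Nat.card (Hm N B)) :
    ∀ (n : ℕ) (N : Op R Γ), Nat.card N.N = n →
      Nat.card {φ : Hm N A // φ.1.ker = ⊥} = Nat.card {φ : Hm N B // φ.1.ker = ⊥} := by
  intro n
  induction n using Nat.strong_induction_on with
  | _ n ih =>
    intro N hN
    classical
    letI : Fintype (AddSubgroup N.N) := Fintype.ofFinite _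
    have e := h N
    rw [card_fib, card_fib, ← Finset.add_sum_erase _ _ (Finset.mem_univ ⊥),
      ← Finset.add_sum_erase _ _ (Finset.mem_univ ⊥)] at e
    refine add_right_cancel (e.trans (congrArg _ (Finset.sum_congr rfl fun Q hQ => ?_)))
    by_cases hs : ∀ t, Q ≤ Q.comap (N.a t)
    · rw [card_ker_quo N Q hs, card_ker_quo N Q hs]
      refine (ih _ ?_ _ rfl).symm
      have h1 := AddSubgroup.card_eq_card_quotient_mul_card_addSubgroup Q
      have h2 : 1 < Nat.card Q := AddSubgroup.one_lt_card_iff_ne_bot Q |>.2 (Finset.ne_of_mem_erase hQ)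
      have h3 : 0 < Nat.card (N.N ⧸ Q) := Nat.card_pos
      show Nat.card (N.N ⧸ Q) < n
      rw [← hN, h1]
      nlinarith
    · have key : ∀ C : Rp R Γ, Nat.card {φ : Hm N C // φ.1.ker = Q} = 0 := fun C => by
        rw [Nat.card_eq_zero]
        refine Or.inl ⟨fun φ => hs fun t x hx => ?_⟩
        rw [← φ.2] at hx ⊢
        show φ.1.1 (N.a (t.1, t.2) x) = 0
        rw [φ.1.2, show φ.1.1 x = 0 from hx, mulVec_zero, smul_zero]
      rw [key, key]

def Rp.fx (A : Rp R Γ) : AddSubgroup (A.ι → R) where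
  carrier := {v | A.ρ 1 *ᵥ v = v}
  add_mem' := fun {v w} h h' => by
    show A.ρ 1 *ᵥ (v + w) = v + w
    rw [mulVec_add, h, h']
  zero_mem' := mulVec_zero _
  neg_mem' := fun {v} h => by
    show A.ρ 1 *ᵥ (-v) = -v
    rw [mulVec_neg, h]

lemma Rp.mem_fx (A : Rp R Γ) (r : R) (g : Γ) (v : A.ι → R) : r • A.ρ g *ᵥ v ∈ A.fx := by
  show A.ρ 1 *ᵥ _ = _
  rw [mulVec_smul, mulVec_mulVec, A.one_mul']

def Rp.op [Finite R] (A : Rp R Γ) : Op R Γ where
  N := A.fx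
  a :=
    { toFun := fun t => AddMonoidHom.mk' (fun v => ⟨t.1 • A.ρ t.2 *ᵥ v.1, A.mem_fx _ _ _⟩)
        fun v w => Subtype.ext (by simp [mulVec_add])
      map_one' := AddMonoidHom.ext fun v => Subtype.ext (by
        show (1 : R) • A.ρ 1 *ᵥ v.1 = v.1
        rw [one_smul, v.2])
      map_mul' := fun s t => AddMonoidHom.ext fun v => Subtype.ext (by
        show (s.1 * t.1) • A.ρ (s.2 * t.2) *ᵥ v.1 = s.1 • A.ρ s.2 *ᵥ (t.1 • A.ρ t.2 *ᵥ v.1)
        rw [mulVec_smul, mulVec_mulVec, A.mul, mul_smul]) }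

lemma exists_mat [Finite R] {A B : Rp R Γ} (φ : Hm A.op B) : ∃ α : Matrix B.ι A.ι R,
    (∀ g, α * A.ρ g = B.ρ g * α) ∧ ∀ v : A.fx, α *ᵥ v.1 = φ.1 v := by
  let p : (A.ι → R) → A.fx := fun v => ⟨A.ρ 1 *ᵥ v, by simpa using A.mem_fx 1 1 v⟩
  have hp : ∀ r g v, A.op.a (r, g) (p v) = p (r • A.ρ g *ᵥ v) := fun r g v => Subtype.ext (by
    show r • A.ρ g *ᵥ (A.ρ 1 *ᵥ v) = A.ρ 1 *ᵥ (r • A.ρ g *ᵥ v)
    rw [mulVec_smul, mulVec_mulVec, mulVec_mulVec, A.one_mul', A.mul_one'])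
  let f : (A.ι → R) →ₗ[R] (B.ι → R) :=
    { toFun := fun v => φ.1 (p v)
      map_add' := fun v w => by
        rw [← map_add]; congr 1; exact Subtype.ext (mulVec_add _ _ _)
      map_smul' := fun r v => by
        have := φ.2 r 1 (p v)
        rw [hp, Hm_fix φ.2] at this
        rw [RingHom.id_apply, ← this]
        congr 1
        refine Subtype.ext ?_
        show A.ρ 1 *ᵥ (r • v) = A.ρ 1 *ᵥ (r • A.ρ 1 *ᵥ v)
        rw [mulVec_smul, mulVec_smul, mulVec_mulVec, A.one_mul'] }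
  have hf : ∀ v, LinearMap.toMatrix' f *ᵥ v = φ.1 (p v) := fun v => by
    rw [LinearMap.toMatrix'_mulVec]; rfl
  refine ⟨LinearMap.toMatrix' f, fun g => ?_, fun v => ?_⟩
  · refine Matrix.ext_iff_mulVec.2 fun v => ?_
    have := φ.2 1 g (p v)
    rw [hp, one_smul, one_smul] at this
    rw [← mulVec_mulVec, ← mulVec_mulVec, hf, hf, this]
  · rw [hf]; congr 1; exact Subtype.ext v.2

theorem lovasz [Finite R] (A B : Rp R Γ) (h : ∀ N, Nat.card (Hm N A) = Nat.card (Hm N B)) :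
    A.Iso B := by
  have inj : ∀ A B : Rp R Γ, (∀ N, Nat.card (Hm N A) = Nat.card (Hm N B)) →
      ∃ φ : A.fx →+ B.fx, Function.Injective φ ∧ B.fx.subtype.comp φ ∈ Hm A.op B := by
    intro A B h
    have e := lov_aux A B h _ A.op rfl
    have : Nonempty {φ : Hm A.op A // φ.1.ker = ⊥} :=
      ⟨⟨⟨A.fx.subtype, fun r g x => rfl⟩, AddSubgroup.ker_subtype _⟩⟩
    have h0 : 0 < Nat.card {φ : Hm A.op B // φ.1.ker = ⊥} := e ▸ Nat.card_pos
    obtain ⟨⟨φ, hφ⟩⟩ := (Nat.card_pos_iff.1 h0).1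
    rw [AddMonoidHom.ker_eq_bot_iff] at hφ
    exact ⟨φ.1.codRestrict B.fx fun x => Hm_fix φ.2 x,
      fun x y e => hφ (congrArg Subtype.val e), φ.2⟩
  obtain ⟨φ, hφ, hm⟩ := inj A B h
  obtain ⟨ψ, hψ, -⟩ := inj B A fun N => (h N).symm
  have hb : Function.Bijective φ := by
    rw [Nat.bijective_iff_injective_and_card]
    exact ⟨hφ, le_antisymm (Nat.card_le_card_of_injective _ hφ) (Nat.card_le_card_of_injective _ hψ)⟩
  let e := AddEquiv.ofBijective φ hb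
  have he : ∀ t x, e (A.op.a t x) = B.op.a t (e x) := fun t x => Subtype.ext (hm t.1 t.2 x)
  have hm' : A.fx.subtype.comp e.symm.toAddMonoidHom ∈ Hm B.op A := fun r g y => by
    obtain ⟨x, rfl⟩ := e.surjective y
    show (e.symm (B.op.a (r, g) (e x))).1 = r • A.ρ g *ᵥ (e.symm (e x)).1
    rw [← he, e.symm_apply_apply, e.symm_apply_apply]
    rfl
  obtain ⟨α, h1, h2⟩ := exists_mat ⟨_, hm⟩
  obtain ⟨β, k1, k2⟩ := exists_mat ⟨_, hm'⟩
  refine ⟨B.ρ 1 * α, A.ρ 1 * β, fun g => ?_, fun g => ?_, ?_, ?_⟩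
  · rw [Matrix.mul_assoc, h1, ← Matrix.mul_assoc, ← Matrix.mul_assoc, B.one_mul', B.mul_one']
  · rw [Matrix.mul_assoc, k1, ← Matrix.mul_assoc, ← Matrix.mul_assoc, A.one_mul', A.mul_one']
  · refine Matrix.ext_iff_mulVec.2 fun v => ?_
    let x : A.fx := ⟨A.ρ 1 *ᵥ v, by simpa using A.mem_fx 1 1 v⟩
    have e1 : α *ᵥ (A.ρ 1 *ᵥ v) = (e x).1 := h2 x
    have e2 : β *ᵥ (e x).1 = (e.symm (e x)).1 := k2 (e x)
    rw [← h1, ← mulVec_mulVec, ← mulVec_mulVec, ← mulVec_mulVec, e1, e2, e.symm_apply_apply]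
    exact x.2
  · refine Matrix.ext_iff_mulVec.2 fun v => ?_
    let x : B.fx := ⟨B.ρ 1 *ᵥ v, by simpa using B.mem_fx 1 1 v⟩
    have e1 : β *ᵥ (B.ρ 1 *ᵥ v) = (e.symm x).1 := k2 x
    have e2 : α *ᵥ (e.symm x).1 = (e (e.symm x)).1 := h2 (e.symm x)
    rw [← k1, ← mulVec_mulVec, ← mulVec_mulVec, ← mulVec_mulVec, e1, e2, e.apply_symm_apply]
    exact x.2

end

end Pool.Agent.H.MP_6995cd_al
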