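import Pool.Agent.H.MP_6995cd_al.C
namespace Pool.Agent.H.MP_6995cd_al
open Matrix
open scoped Kronecker
universe u v w u'

section
variable {R : Type u} {G : Type v} {Γ : Type w} [CommRing R] [Monoid G] [Monoid Γ]
variable {J : Type} [Fintype J] (ψ : G →* Γ) (c : J → R) (γ : J → Γ)

def opr (W : Rp R Γ) : Matrix W.ι W.ι R := ∑ j, c j • W.ρ (γ j)

def HA (N : Op R G) (W : Rp R Γ) : Set (N.N →+ (W.ι → R)) :=
  {φ | φ ∈ Hm N (W.res ψ) ∧ ∀ x, ∃ v, φ x = opr c γ W *ᵥ v}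

instance [Finite R] (N : Op R G) (W : Rp R Γ) : Finite (HA ψ c γ N W) :=
  haveI : Finite (N.N →+ (W.ι → R)) := DFunLike.finite _
  Subtype.finite

def mv {ι κ : Type} [Fintype ι] (α : Matrix κ ι R) : (ι → R) →+ (κ → R) :=
  AddMonoidHom.mk' (fun v => α *ᵥ v) (mulVec_add α)

lemma mv_apply {ι κ : Type} [Fintype ι] (α : Matrix κ ι R) (v : ι → R) : mv α v = α *ᵥ v := rfl

lemma card_HA_le [Finite R] (N : Op R G) {W W' : Rp R Γ} (h : W.Iso W') :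
    Nat.card (HA ψ c γ N W) ≤ Nat.card (HA ψ c γ N W') := by
  obtain ⟨α, β, h1, h2, h3, h4⟩ := h
  have ho : α * opr c γ W = opr c γ W' * α := by
    simp only [opr, Matrix.mul_sum, Matrix.sum_mul, Matrix.mul_smul, Matrix.smul_mul, h1]
  refine Nat.card_le_card_of_injective (fun φ => ⟨(mv α).comp φ.1, fun r g x => ?_, fun x => ?_⟩)
    fun φ φ' e => ?_
  · show α *ᵥ φ.1 _ = r • W'.ρ (ψ g) *ᵥ (α *ᵥ φ.1 x)
    rw [φ.2.1 r g x, mulVec_smul, mulVec_mulVec, mulVec_mulVec, h1]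
  · obtain ⟨v, hv⟩ := φ.2.2 x
    refine ⟨α *ᵥ v, ?_⟩
    show α *ᵥ φ.1 x = _
    rw [hv, mulVec_mulVec, mulVec_mulVec, ho]
  · refine Subtype.ext (AddMonoidHom.ext fun x => ?_)
    have e1 : α *ᵥ φ.1 x = α *ᵥ φ'.1 x := DFunLike.congr_fun (congrArg Subtype.val e) x
    have f1 := Hm_fix φ.2.1 x
    have f2 := Hm_fix φ'.2.1 x
    simp only [map_one] at f1 f2
    rw [← f1, ← f2, ← h3, ← mulVec_mulVec, ← mulVec_mulVec, e1]

lemma card_HA_iso [Finite R] (N : Op R G) {W W' : Rp R Γ} (h : W.Iso W') :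
    Nat.card (HA ψ c γ N W) = Nat.card (HA ψ c γ N W') :=
  le_antisymm (card_HA_le ψ c γ N h) (card_HA_le ψ c γ N h.symm)

lemma opr_sum (W W' : Rp R Γ) :
    opr c γ (W.sum W') = fromBlocks (opr c γ W) 0 0 (opr c γ W') := by
  ext a b
  rcases a with a | a <;> rcases b with b | b <;> simp [opr, Matrix.sum_apply]

lemma card_HA_sum (N : Op R G) (W W' : Rp R Γ) :
    Nat.card (HA ψ c γ N (W.sum W')) = Nat.card (HA ψ c γ N W) * Nat.card (HA ψ c γ N W') := by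
  rw [← Nat.card_prod]
  symm
  refine Nat.card_eq_of_bijective (fun φ => ⟨AddMonoidHom.mk' (fun x => Sum.elim (φ.1.1 x) (φ.2.1 x))
    fun x y => ?_, fun r g x => ?_, fun x => ?_⟩) ⟨fun φ φ' e => ?_, fun φ => ?_⟩
  · ext (a | a) <;> simp
  · show Sum.elim (φ.1.1 _) (φ.2.1 _) = r • fromBlocks (W.ρ (ψ g)) 0 0 (W'.ρ (ψ g)) *ᵥ
      Sum.elim (φ.1.1 x) (φ.2.1 x)
    rw [φ.1.2.1 r g x, φ.2.2.1 r g x, fromBlocks_mulVec]
    ext (a | a) <;> simp
  · obtain ⟨v, hv⟩ := φ.1.2.2 x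
    obtain ⟨v', hv'⟩ := φ.2.2.2 x
    refine ⟨Sum.elim v v', ?_⟩
    show Sum.elim (φ.1.1 x) (φ.2.1 x) = _
    rw [opr_sum, fromBlocks_mulVec, hv, hv']
    simp
  · have e1 : ∀ x, Sum.elim (φ.1.1 x) (φ.2.1 x) = Sum.elim (φ'.1.1 x) (φ'.2.1 x) := fun x =>
      DFunLike.congr_fun (congrArg Subtype.val e) x
    refine Prod.ext (Subtype.ext (AddMonoidHom.ext fun x => funext fun a => ?_))
      (Subtype.ext (AddMonoidHom.ext fun x => funext fun a => ?_))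
    · exact congrFun (e1 x) (Sum.inl a)
    · exact congrFun (e1 x) (Sum.inr a)
  · refine ⟨(⟨AddMonoidHom.mk' (fun x => φ.1 x ∘ Sum.inl) fun x y => ?_, fun r g x => ?_, fun x => ?_⟩,
      ⟨AddMonoidHom.mk' (fun x => φ.1 x ∘ Sum.inr) fun x y => ?_, fun r g x => ?_, fun x => ?_⟩), ?_⟩
    · rw [map_add]; rfl
    · show φ.1 _ ∘ Sum.inl = r • W.ρ (ψ g) *ᵥ (φ.1 x ∘ Sum.inl)
      rw [φ.2.1 r g x, fromBlocks_mulVec]
      ext a; simp
    · obtain ⟨v, hv⟩ := φ.2.2 x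
      refine ⟨v ∘ Sum.inl, ?_⟩
      show φ.1 x ∘ Sum.inl = _
      rw [hv, opr_sum, fromBlocks_mulVec]
      ext a; simp
    · rw [map_add]; rfl
    · show φ.1 _ ∘ Sum.inr = r • W'.ρ (ψ g) *ᵥ (φ.1 x ∘ Sum.inr)
      rw [φ.2.1 r g x, fromBlocks_mulVec]
      ext a; simp
    · obtain ⟨v, hv⟩ := φ.2.2 x
      refine ⟨v ∘ Sum.inr, ?_⟩
      show φ.1 x ∘ Sum.inr = _
      rw [hv, opr_sum, fromBlocks_mulVec]
      ext a; simp
    · refine Subtype.ext (AddMonoidHom.ext fun x => ?_)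
      ext (a | a) <;> rfl

lemma card_HA_ne [Finite R] (N : Op R G) (W : Rp R Γ) : Nat.card (HA ψ c γ N W) ≠ 0 := by
  have : Nonempty (HA ψ c γ N W) := ⟨⟨0, zero_mem _, fun x => ⟨0, by simp⟩⟩⟩
  exact Nat.card_pos.ne'

noncomputable def hv [Finite R] (N : Op R G) (l : ℕ) : K R Γ →+ ℤ :=
  Kadd (fun W => ((Nat.card (HA ψ c γ N W)).factorization l : ℤ))
    (fun _ _ h => by rw [card_HA_iso ψ c γ N h]) fun W W' => by
      rw [card_HA_sum, Nat.factorization_mul (card_HA_ne ψ c γ N W) (card_HA_ne ψ c γ N W')]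
      simp

lemma hv_cl [Finite R] (N : Op R G) (l : ℕ) (W : Rp R Γ) :
    hv ψ c γ N l (cl W) = (Nat.card (HA ψ c γ N W)).factorization l := Kadd_cl ..

end

section
variable {R : Type u} {Γ : Type v} [CommRing R] [Monoid Γ] [Finite R]

omit [Finite R] in
lemma HA_triv (N : Op R Γ) (W : Rp R Γ) :
    Nat.card (HA (MonoidHom.id Γ) (fun _ : Unit => (1 : R)) (fun _ => 1) N W) = Nat.card (Hm N W) := by
  refine Nat.card_congr (Equiv.subtypeEquivRight fun φ => ⟨fun h => h.1, fun h => ⟨h, fun x => ?_⟩⟩)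
  exact ⟨φ x, by simp [opr, Hm_fix h x]⟩

noncomputable def h0 (N : Op R Γ) (l : ℕ) : K R Γ →+ ℤ :=
  hv (MonoidHom.id Γ) (fun _ : Unit => (1 : R)) (fun _ => 1) N l

lemma h0_cl (N : Op R Γ) (l : ℕ) (W : Rp R Γ) :
    h0 N l (cl W) = (Nat.card (Hm N W)).factorization l := by
  rw [h0, hv_cl, HA_triv]

lemma iso_of_h0 {A B : Rp R Γ} (h : ∀ N l, h0 N l (cl A) = h0 N l (cl B)) : A.Iso B := by
  refine lovasz A B fun N => Nat.eq_of_factorization_eq Nat.card_pos.ne' Nat.card_pos.ne' fun l => ?_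
  have := h N l
  rw [h0_cl, h0_cl] at this
  exact_mod_cast this

theorem cancel {A B : Rp R Γ} (h : cl A = cl B) : A.Iso B := iso_of_h0 fun _ _ => by rw [h]

theorem eq_zero_of_h0 {x : K R Γ} (h : ∀ N l, h0 N l x = 0) : x = 0 := by
  obtain ⟨A, B, rfl⟩ := K_ex x
  rw [sub_eq_zero]
  exact cl_iso (iso_of_h0 fun N l => by rw [← sub_eq_zero, ← map_sub, h])

lemma card_Hm_iso (N : Op R Γ) {A B : Rp R Γ} (h : A.Iso B) :
    Nat.card (Hm N A) = Nat.card (Hm N B) := by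
  rw [← HA_triv, ← HA_triv, card_HA_iso _ _ _ N h]

theorem tors_free {x : K R Γ} {n : ℕ} (hn : n ≠ 0) (h : n • x = 0) : x = 0 :=
  eq_zero_of_h0 fun N l => by
    have := congrArg (h0 N l) h
    rw [map_nsmul, map_zero, smul_eq_zero] at this
    exact this.resolve_left hn

theorem sep {x : K R Γ} {q : ℕ} (hq : 1 < q) (h : ∀ k : ℕ, ∃ y, x = q ^ k • y) : x = 0 :=
  eq_zero_of_h0 fun N l => by
    obtain ⟨y, hy⟩ := h (h0 N l x).natAbs
    have h1 : ((q ^ (h0 N l x).natAbs : ℕ) : ℤ) ∣ h0 N l x :=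
      ⟨h0 N l y, by conv_lhs => rw [hy, map_nsmul, nsmul_eq_mul]⟩
    rw [Int.natCast_dvd] at h1
    by_contra h2
    have := Nat.le_of_dvd (Int.natAbs_pos.2 h2) h1
    exact absurd (Nat.lt_pow_self hq) (not_lt.2 this)

end

end Pool.Agent.H.MP_6995cd_al
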