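import Pool.Agent.H.MP_6995cd_al.D
namespace Pool.Agent.H.MP_6995cd_al
open Matrix
open scoped Kronecker
universe u v w u'

section
variable {R : Type u} {Γ : Type v} [CommRing R] [Monoid Γ]

open Classical in
noncomputable def dg (R : Type u) [CommRing R] {ι : Type} [DecidableEq ι] (p : ι → Prop) :
    Matrix ι ι R := diagonal fun i => if p i then 1 else 0

open Classical in
lemma mul_dg {ι κ : Type} [DecidableEq ι] [Fintype ι] (p : ι → Prop) (M : Matrix κ ι R) (a : κ)
    (b : ι) : (M * dg R p) a b = if p b then M a b else 0 := by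
  simp [dg, mul_diagonal]

open Classical in
lemma dg_mul {ι κ : Type} [DecidableEq ι] [Fintype ι] (p : ι → Prop) (M : Matrix ι κ R) (a : ι)
    (b : κ) : (dg R p * M) a b = if p a then M a b else 0 := by
  simp [dg, diagonal_mul]

lemma dg_mul_dg {ι : Type} [DecidableEq ι] [Fintype ι] (p q : ι → Prop) :
    dg R p * dg R q = dg R fun i => p i ∧ q i := by
  simp only [dg, diagonal_mul_diagonal]
  congr 1
  funext i
  by_cases h : p i <;> by_cases h' : q i <;> simp [h, h']

lemma dg_false {ι : Type} [DecidableEq ι] (p : ι → Prop) (h : ∀ i, ¬ p i) : dg R p = 0 := by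
  simp [dg, h]

lemma dg_true {ι : Type} [DecidableEq ι] (p : ι → Prop) (h : ∀ i, p i) : dg R p = 1 := by
  simp [dg, h]

def Rp.Inv (A : Rp R Γ) (p : A.ι → Prop) : Prop := ∀ g a b, A.ρ g a b ≠ 0 → (p a ↔ p b)

lemma Rp.Inv.idem {A : Rp R Γ} {p : A.ι → Prop} (h : A.Inv p) : A.Idem (dg R p) := by
  refine ⟨fun g => ?_, by rw [dg_mul_dg]; simp⟩
  ext a b
  rw [mul_dg, dg_mul]
  by_cases h0 : A.ρ g a b = 0
  · simp [h0]
  · rw [propext (h g a b h0)]

lemma Rp.Inv.and {A : Rp R Γ} {p q : A.ι → Prop} (h : A.Inv p) (h' : A.Inv q) :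
    A.Inv fun i => p i ∧ q i := fun g a b h0 => and_congr (h g a b h0) (h' g a b h0)

lemma Rp.Inv.not {A : Rp R Γ} {p : A.ι → Prop} (h : A.Inv p) :
    A.Inv fun i => ¬ p i := fun g a b h0 => not_congr (h g a b h0)

lemma cp_split {A : Rp R Γ} {p q : A.ι → Prop} (h : A.Inv p) (h' : A.Inv q) :
    cc A (dg R p) = cc A (dg R fun i => p i ∧ q i) + cc A (dg R fun i => p i ∧ ¬ q i) := by
  rw [← cc_add (h.and h').idem (h.and h'.not).idem]
  · congr 1
    simp only [dg, diagonal_add]
    congr 1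
    funext i
    by_cases h : p i <;> by_cases h' : q i <;> simp [h, h']
  · rw [dg_mul_dg]; exact dg_false _ (by tauto)
  · rw [dg_mul_dg]; exact dg_false _ (by tauto)

lemma cp_emb {A B : Rp R Γ} {p : A.ι → Prop} {q : B.ι → Prop} (h : A.Inv p) (h' : B.Inv q)
    (j : A.ι → B.ι) (hj : Function.Injective j) (he : ∀ g a a', B.ρ g (j a) (j a') = A.ρ g a a')
    (h1 : ∀ a, q (j a) ↔ p a) (h2 : ∀ b, q b → b ∈ Set.range j) :
    cc A (dg R p) = cc B (dg R q) := by
  rw [cc_eq h.idem, cc_eq h'.idem]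
  refine cl_iso (Rp.iso_of_emb j hj (fun g a a' => ?_) fun g b b' h0 => ?_)
  · simp only [mul_dg, he]
    rw [propext (h1 a')]
  · simp only [mul_dg] at h0
    split_ifs at h0 with hq
    · exact ⟨h2 _ ((h' g b b' h0).2 hq), h2 _ hq⟩
    · exact absurd rfl h0

def tp {Z ι κ : Type} [Fintype Z] (σ : Equiv.Perm Z) (α : Matrix κ ι R) :
    Matrix (Z → κ) (Z → ι) R := Matrix.of fun a b => ∏ z, α (a (σ z)) (b z)

lemma tp_apply {Z ι κ : Type} [Fintype Z] (σ : Equiv.Perm Z) (α : Matrix κ ι R) (a : Z → κ)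
    (b : Z → ι) : tp σ α a b = ∏ z, α (a (σ z)) (b z) := rfl

lemma tp_mul {Z ι κ μ : Type} [Fintype Z] [DecidableEq Z] [Fintype ι] (σ τ : Equiv.Perm Z)
    (α : Matrix κ ι R) (β : Matrix ι μ R) : tp σ α * tp τ β = tp (σ * τ) (α * β) := by
  classical
  ext a c
  simp only [tp_apply, Matrix.mul_apply]
  rw [Finset.prod_univ_sum, Fintype.piFinset_univ]
  refine Fintype.sum_equiv (Equiv.arrowCongr τ.symm (Equiv.refl ι)) _ _ fun b => ?_
  rw [Finset.prod_mul_distrib]
  congr 1
  exact (Fintype.prod_equiv τ _ _ fun z => by simp).symm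

variable (Z : Type) [Fintype Z] [DecidableEq Z]

abbrev Rp.pw (A : Rp R Γ) : Rp R (Γ × Equiv.Perm Z) where
  ι := Z → A.ι
  ρ t := tp t.2 (A.ρ t.1)
  mul s t := by rw [tp_mul, Prod.fst_mul, Prod.snd_mul, A.mul]

lemma Rp.Iso.pw {A B : Rp R Γ} (h : A.Iso B) : (A.pw Z).Iso (B.pw Z) := by
  obtain ⟨α, β, h1, h2, h3, h4⟩ := h
  refine ⟨tp 1 α, tp 1 β, fun g => ?_, fun g => ?_, ?_, ?_⟩ <;> simp [tp_mul, *]

lemma pw_inv (A : Rp R Γ) {C : Type} (c : A.ι → C) (hc : ∀ g a b, A.ρ g a b ≠ 0 → c a = c b)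
    (Pr : Set C → Prop) : (A.pw Z).Inv fun f => Pr (Set.range (c ∘ f)) := by
  intro t a b h0
  have h1 : ∀ z, c (a (t.2 z)) = c (b z) := fun z => hc t.1 _ _ fun h =>
    h0 (Finset.prod_eq_zero (Finset.mem_univ z) h)
  have : Set.range (c ∘ a) = Set.range (c ∘ b) := by
    rw [← t.2.surjective.range_comp (c ∘ a)]
    congr 1
    exact funext h1
  beta_reduce
  rw [this]

lemma col_sum {A B : Rp R Γ} {C : Type} {c : A.ι → C} {d : B.ι → C}
    (hc : ∀ g a b, A.ρ g a b ≠ 0 → c a = c b) (hd : ∀ g a b, B.ρ g a b ≠ 0 → d a = d b) :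
    ∀ g a b, (A.sum B).ρ g a b ≠ 0 → Sum.elim c d a = Sum.elim c d b := by
  rintro g (a | a) (b | b) h
  · exact hc g a b h
  · exact absurd rfl h
  · exact absurd rfl h
  · exact hd g a b h

noncomputable def DD (W : Rp R Γ) (col : W.ι → ℕ) (k : ℕ) (x : Rp R Γ) : K R (Γ × Equiv.Perm Z) :=
  cc ((x.sum W).pw Z) (dg R fun f =>
    ∀ j < k, j + 1 ∈ Set.range (Sum.elim (fun _ => 0) (fun w => col w + 1) ∘ f))

lemma DD_step (W : Rp R Γ) (col : W.ι → ℕ) (k : ℕ) (hc : ∀ g a b, W.ρ g a b ≠ 0 → col a = col b)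
    (hk : ∀ w, col w < k) (x a : Rp R Γ) :
    DD Z W col k (x.sum a) = DD Z (a.sum W) (Sum.elim (fun _ => k) col) (k + 1) x + DD Z W col k x := by
  have hc' : ∀ g a b, W.ρ g a b ≠ 0 → col a + 1 = col b + 1 := fun g a b h => by rw [hc g a b h]
  have i1 : ∀ x : Rp R Γ, ((x.sum W).pw Z).Inv fun f =>
      ∀ j < k, j + 1 ∈ Set.range (Sum.elim (fun _ => 0) (fun w => col w + 1) ∘ f) := fun x =>
    pw_inv Z (x.sum W) _ (col_sum (fun _ _ _ _ => rfl) hc') fun s => ∀ j < k, j + 1 ∈ s
  have i2 : (((x.sum a).sum W).pw Z).Inv fun f => true ∈ Set.range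
      (Sum.elim (Sum.elim (fun _ => false) (fun _ => true)) (fun _ => false) ∘ f) :=
    pw_inv Z ((x.sum a).sum W) _ (col_sum (col_sum (fun _ _ _ _ => rfl) (fun _ _ _ _ => rfl))
      (fun _ _ _ _ => rfl)) fun s => true ∈ s
  have i3 := pw_inv Z (x.sum (a.sum W))
    (Sum.elim (fun _ => 0) (fun w => Sum.elim (fun _ => k) col w + 1))
    (col_sum (fun _ _ _ _ => rfl) fun g u v h => by
      rw [col_sum (c := fun _ => k) (fun _ _ _ _ => rfl) hc g u v h]) fun s => ∀ j < k + 1, j + 1 ∈ s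
  unfold DD
  rw [cp_split (i1 _) i2]
  congr 1
  · refine cp_emb ((i1 _).and i2) i3 (fun f => Equiv.sumAssoc _ _ _ ∘ f)
      ((Equiv.sumAssoc _ _ _).injective.comp_left) (fun t f f' => ?_) (fun f => ?_) fun f _ => ?_
    · refine Finset.prod_congr rfl fun z _ => ?_
      simp only [Function.comp]
      rcases f (t.2 z) with (u | u) | u <;> rcases f' z with (v | v) | v <;> rfl
    · constructor
      · intro h
        refine ⟨fun j hj => ?_, ?_⟩
        · obtain ⟨z, hz⟩ := h j (by omega)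
          refine ⟨z, ?_⟩
          simp only [Function.comp] at hz ⊢
          revert hz
          rcases f z with (u | u) | u <;> simp
          omega
        · obtain ⟨z, hz⟩ := h k (by omega)
          refine ⟨z, ?_⟩
          simp only [Function.comp] at hz ⊢
          revert hz
          rcases f z with (u | u) | u <;> simp
          exact (hk u).ne
      · rintro ⟨h, z, hz⟩ j hj
        rcases Nat.lt_succ_iff_lt_or_eq.1 hj with hj | rfl
        · obtain ⟨z, hz⟩ := h j hj
          refine ⟨z, ?_⟩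
          simp only [Function.comp] at hz ⊢
          revert hz
          rcases f z with (u | u) | u <;> simp
        · refine ⟨z, ?_⟩
          simp only [Function.comp] at hz ⊢
          revert hz
          rcases f z with (u | u) | u <;> simp
    · exact ⟨(Equiv.sumAssoc _ _ _).symm ∘ f, by funext z; simp⟩
  · symm
    refine cp_emb (i1 _) ((i1 _).and i2.not) (fun f => Sum.map Sum.inl id ∘ f)
      ((Sum.inl_injective.sumMap Function.injective_id).comp_left) (fun t f f' => ?_)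
      (fun f => ?_) fun f hf => ?_
    · refine Finset.prod_congr rfl fun z _ => ?_
      simp only [Function.comp]
      rcases f (t.2 z) with u | u <;> rcases f' z with v | v <;> rfl
    · have e : Sum.elim (fun _ => 0) (fun w => col w + 1) ∘ (Sum.map Sum.inl id ∘ f :
          Z → (x.ι ⊕ a.ι) ⊕ W.ι) = Sum.elim (fun _ => 0) (fun w => col w + 1) ∘ f := by
        funext z
        simp only [Function.comp]
        rcases f z with u | u <;> rfl
      rw [e, and_iff_left]
      rintro ⟨z, hz⟩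
      simp only [Function.comp] at hz
      revert hz
      rcases f z with u | u <;> simp
    · have : ∀ z, ∃ y, Sum.map Sum.inl id y = f z := fun z => by
        have := fun h => hf.2 ⟨z, h⟩
        simp only [Function.comp] at this
        revert this
        rcases f z with (u | u) | u
        · exact fun _ => ⟨Sum.inl u, rfl⟩
        · simp
        · exact fun _ => ⟨Sum.inr u, rfl⟩
      choose y hy using this
      exact ⟨y, funext hy⟩

lemma DD_pol : ∀ (m : ℕ) (W : Rp R Γ) (col : W.ι → ℕ) (k : ℕ),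
    (∀ g a b, W.ρ g a b ≠ 0 → col a = col b) → (∀ w, col w < k) → Fintype.card Z < k + m →
    ∀ F : S R Γ → K R (Γ × Equiv.Perm Z), (∀ x, F (S.mk x) = DD Z W col k x) → PolS m F
  | 0, W, col, k, _, _, h, F, hF => fun x => by
    obtain ⟨x, rfl⟩ := S.surj x
    rw [hF, DD, dg_false, cc_zero]
    intro f hf
    choose z hz using fun j : Fin k => hf j j.2
    have : Function.Injective z := fun i j e => by
      have := hz i
      rw [e, hz j] at this
      exact Fin.ext (by omega)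
    have := Fintype.card_le_of_injective z this
    simp at this
    omega
  | m + 1, W, col, k, hc, hk, h, F, hF => fun a => by
    obtain ⟨a, rfl⟩ := S.surj a
    refine DD_pol m (a.sum W) (Sum.elim (fun _ => k) col) (k + 1)
      (col_sum (fun _ _ _ _ => rfl) hc) ?_ (by omega) _ fun x => ?_
    · rintro (w | w)
      · simp
      · exact (hk w).trans (Nat.lt_succ_self k)
    · rw [← S.mk_sum, hF, hF, DD_step Z W col k hc hk, add_sub_cancel_right]

lemma exists_PW : ∃ P : K R Γ → K R (Γ × Equiv.Perm Z), Poly P ∧ ∀ A, P (cl A) = cl (A.pw Z) := by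
  let F : S R Γ → K R (Γ × Equiv.Perm Z) :=
    Quotient.lift (fun A => cl (A.pw Z)) fun _ _ h => cl_iso (Rp.Iso.pw Z h)
  have := DD_pol Z (Fintype.card Z + 1) Rp.zero (fun _ => 0) 0 (fun _ _ _ _ => rfl)
    (fun w => w.elim) (by omega) F fun x => by
      rw [DD, dg_true _ (by simp), cc_one]
      exact cl_iso (Rp.Iso.pw Z (S.mk_eq.1 (by rw [S.mk_sum, S.mk_zero, add_zero])))
  obtain ⟨P, h1, h2⟩ := this.ext
  exact ⟨P, ⟨_, h1⟩, fun A => h2 (S.mk A)⟩

noncomputable def PW : K R Γ → K R (Γ × Equiv.Perm Z) := (exists_PW Z).choose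

lemma PW_poly : Poly (PW Z : K R Γ → _) := (exists_PW Z).choose_spec.1

lemma PW_cl (A : Rp R Γ) : PW Z (cl A) = cl (A.pw Z) := (exists_PW Z).choose_spec.2 A

lemma PW_mul (x y : K R Γ) : PW Z (x * y) = PW Z x * PW Z y := by
  have h1 : ∀ (B : Rp R Γ) (x : K R Γ), PW Z (x * cl B) = PW Z x * PW Z (cl B) := fun B =>
    K_poly_ext ((PW_poly Z).scale _) ((PW_poly Z).mul (Poly.const _)) fun A => by
      rw [← cl_ten, PW_cl, PW_cl, PW_cl, ← cl_ten]
      refine cl_iso (Rp.iso_of_equiv (Equiv.arrowProdEquivProdArrow _ _ _) fun t f f' => ?_)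
      simp [tp_apply, Finset.prod_mul_distrib]
  rw [mul_comm x, mul_comm (PW Z x)]
  exact K_poly_ext (F := fun y => PW Z (y * x)) (G := fun y => PW Z y * PW Z x)
    ((PW_poly Z).scale _) ((PW_poly Z).mul (Poly.const _))
    (fun B => by rw [mul_comm, h1, mul_comm]) y

lemma PW_unique [Unique Z] (x : K R Γ) : PW Z x = res (MonoidHom.fst _ _) x :=
  K_poly_ext (PW_poly Z) (Poly.hom (res (MonoidHom.fst Γ (Equiv.Perm Z))).toAddMonoidHom) (fun A => by
    show _ = res _ (cl A)
    rw [PW_cl, res_cl]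
    refine cl_iso (Rp.iso_of_equiv (Equiv.funUnique _ _) fun t f f' => ?_)
    simp [tp_apply, Subsingleton.elim (t.2 default) default]) x

lemma PW_split {H : Type w} [Monoid H] (φ : H →* Equiv.Perm Z) (D : Z → Prop) [DecidablePred D]
    (φ1 : H →* Equiv.Perm {z // D z}) (φ2 : H →* Equiv.Perm {z // ¬ D z})
    (h1 : ∀ h z, (φ1 h z).1 = φ h z) (h2 : ∀ h z, (φ2 h z).1 = φ h z) (x : K R Γ) :
    res ((MonoidHom.id Γ).prodMap φ) (PW Z x) =
      res ((MonoidHom.id Γ).prodMap φ1) (PW _ x) * res ((MonoidHom.id Γ).prodMap φ2) (PW _ x) :=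
  K_poly_ext ((PW_poly Z).comp (res _).toAddMonoidHom)
    (((PW_poly _).comp (res _).toAddMonoidHom).mul ((PW_poly _).comp (res _).toAddMonoidHom))
    (fun A => by
      show res _ (PW Z (cl A)) = res _ (PW _ (cl A)) * res _ (PW _ (cl A))
      rw [PW_cl, PW_cl, PW_cl, res_cl, res_cl, res_cl, ← cl_ten]
      refine cl_iso (Rp.iso_of_equiv (Equiv.piEquivPiSubtypeProd D _) fun t f f' => ?_)
      simp only [kroneckerMap_apply, tp_apply]
      rw [← Fintype.prod_subtype_mul_prod_subtype D]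
      simp [h1, h2]) x

end

end Pool.Agent.H.MP_6995cd_al
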