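import Pool.Agent.H.MP_6995cd_al.E
namespace Pool.Agent.H.MP_6995cd_al
open Matrix
open scoped Kronecker
universe u v w u'

section
variable {R : Type u} {Γ : Type v} [CommRing R] [Monoid Γ]

lemma Rp.Iso.cut {A B : Rp R Γ} {J : Type} [Fintype J] (c : J → R) (γ : J → Γ)
    (hA : A.Idem (opr c γ A)) (hB : B.Idem (opr c γ B)) (h : A.Iso B) :
    (A.cut _ hA).Iso (B.cut _ hB) := by
  obtain ⟨α, β, h1, h2, h3, h4⟩ := h
  have ho : α * opr c γ A = opr c γ B * α := by
    simp only [opr, Matrix.mul_sum, Matrix.sum_mul, Matrix.mul_smul, Matrix.smul_mul, h1]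
  have ho' : β * opr c γ B = opr c γ A * β := by
    simp only [opr, Matrix.mul_sum, Matrix.sum_mul, Matrix.mul_smul, Matrix.smul_mul, h2]
  refine ⟨α * opr c γ A, β * opr c γ B, fun g => ?_, fun g => ?_, ?_, ?_⟩
  · show α * opr c γ A * (A.ρ g * opr c γ A) = B.ρ g * opr c γ B * (α * opr c γ A)
    rw [← hA.1, Matrix.mul_assoc, ← Matrix.mul_assoc (opr c γ A), hA.2, hA.1, ← Matrix.mul_assoc,
      h1, ho, Matrix.mul_assoc (B.ρ g) (opr c γ B), ← Matrix.mul_assoc (opr c γ B), hB.2, ← ho,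
      Matrix.mul_assoc]
  · show β * opr c γ B * (B.ρ g * opr c γ B) = A.ρ g * opr c γ A * (β * opr c γ B)
    rw [← hB.1, Matrix.mul_assoc, ← Matrix.mul_assoc (opr c γ B), hB.2, hB.1, ← Matrix.mul_assoc,
      h2, ho', Matrix.mul_assoc (A.ρ g) (opr c γ A), ← Matrix.mul_assoc (opr c γ A), hA.2, ← ho',
      Matrix.mul_assoc]
  · show β * opr c γ B * (α * opr c γ A) = A.ρ 1 * opr c γ A
    rw [Matrix.mul_assoc, ← Matrix.mul_assoc (opr c γ B), ← ho, Matrix.mul_assoc α, hA.2,
      ← Matrix.mul_assoc, h3]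
  · show α * opr c γ A * (β * opr c γ B) = B.ρ 1 * opr c γ B
    rw [Matrix.mul_assoc, ← Matrix.mul_assoc (opr c γ A), ← ho', Matrix.mul_assoc β, hB.2,
      ← Matrix.mul_assoc, h4]

abbrev trv (R : Type u) (Γ : Type v) [CommRing R] [Monoid Γ] (ι : Type) [Fintype ι]
    [DecidableEq ι] : Rp R Γ where
  ι := ι
  ρ _ := 1
  mul _ _ := by simp

lemma cl_trv_fin : ∀ d : ℕ, cl (trv R Γ (Fin d)) = d
  | 0 => by rw [Nat.cast_zero]; exact cl_eq_zero _ (Subsingleton.elim _ _)
  | d + 1 => by
    rw [Nat.cast_succ, ← cl_trv_fin d, ← cl_one, ← cl_sum]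
    refine cl_iso (Rp.iso_of_equiv (finSuccEquivLast.trans (Equiv.optionEquivSumPUnit _))
      fun g a b => ?_)
    show (fromBlocks (1 : Matrix (Fin d) (Fin d) R) 0 0 (1 : Matrix Unit Unit R)) _ _ = _
    rw [fromBlocks_one]
    simp only [Matrix.one_apply, EmbeddingLike.apply_eq_iff_eq]

section wr
variable {R' : Type u} [CommRing R'] {d : ℕ} (L : R' →+* Matrix (Fin d) (Fin d) R)

def fl {ι κ : Type} (α : Matrix κ ι R') : Matrix (κ × Fin d) (ι × Fin d) R :=
  Matrix.of fun a b => L (α a.1 b.1) a.2 b.2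

lemma fl_mul {ι κ μ : Type} [Fintype ι] (α : Matrix κ ι R') (β : Matrix ι μ R') :
    fl L α * fl L β = fl L (α * β) := by
  ext a b
  simp [fl, Matrix.mul_apply, Fintype.sum_prod_type, Matrix.sum_apply]

abbrev Rp.wr (A : Rp R' Γ) : Rp R Γ where
  ι := A.ι × Fin d
  ρ g := fl L (A.ρ g)
  mul g h := by rw [fl_mul, A.mul]

def wr : K R' Γ →+ K R Γ :=
  Kadd (fun A => cl (A.wr L)) (fun A B ⟨α, β, h1, h2, h3, h4⟩ => cl_iso
    ⟨fl L α, fl L β, fun g => by simp only [fl_mul, h1], fun g => by simp only [fl_mul, h2],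
      by simp only [fl_mul, h3], by simp only [fl_mul, h4]⟩) fun A B => by
      rw [← cl_sum]
      refine cl_iso (Rp.iso_of_equiv (Equiv.sumProdDistrib _ _ _) ?_)
      rintro g ⟨a | a, i⟩ ⟨b | b, j⟩ <;> simp [fl]

lemma bc_inj [Finite R] (f : R →+* R') (hd : d ≠ 0) (hL : ∀ r, L (f r) = r • 1) (x : K R Γ)
    (h : bc f x = 0) : x = 0 := by
  have : ∀ x : K R Γ, wr L (bc f x) = d • x := fun x => by
    have : ∀ A : Rp R Γ, wr L (bc f (cl A)) = d • cl A := fun A => by
      rw [bc_cl, wr, Kadd_cl, nsmul_eq_mul, mul_comm, ← cl_trv_fin, ← cl_ten]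
      refine cl_iso (Rp.iso_of_equiv (Equiv.refl _) fun g a b => ?_)
      simp [fl, hL]
    obtain ⟨A, B, rfl⟩ := K_ex x
    rw [map_sub, map_sub, this, this, smul_sub]
  exact tors_free hd (by rw [← this, h, map_zero])

end wr

lemma sum_pow_prime {T : Type w} [CommRing T] {q : ℕ} (hq : q.Prime) {J : Type} (s : Finset J)
    (x : J → T) : ∃ r, (∑ j ∈ s, x j) ^ q = ∑ j ∈ s, x j ^ q + q * r := by
  classical
  induction s using Finset.induction_on with
  | empty => exact ⟨0, by simp [hq.ne_zero]⟩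
  | insert a s ha ih =>
    obtain ⟨r, hr⟩ := ih
    obtain ⟨r', hr'⟩ := exists_add_pow_prime_eq hq (x a) (∑ j ∈ s, x j)
    refine ⟨r + x a * (∑ j ∈ s, x j) * r', ?_⟩
    rw [Finset.sum_insert ha, Finset.sum_insert ha, hr', hr]
    ring

lemma idem_zero [Finite R] {F : K R Γ} (hF : F * F = F) {q : ℕ} (hq : 1 < q) {y : K R Γ}
    (h : F = q * y) : F = 0 := by
  refine sep hq fun k => ⟨y ^ k * F, ?_⟩
  have : ∀ k, F ^ k * F = F := fun k => by
    induction k with
    | zero => simp
    | succ k ih => rw [pow_succ, mul_assoc, hF, ih]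
  rw [nsmul_eq_mul, ← mul_assoc, Nat.cast_pow, ← mul_pow, ← h, this]

end

section rig
variable {R : Type u} {G : Type v} [CommRing R] [Monoid G] {n : ℕ} [NeZero n]
  (ψ : AddChar (ZMod n) R) (ν : R)

abbrev chi (G : Type v) [Monoid G] (j : ZMod n) : Rp R (G × Multiplicative (ZMod n)) where
  ι := Unit
  ρ t := Matrix.of fun _ _ => ψ (t.2.toAdd * j)
  mul s t := by
    ext
    simp [Matrix.mul_apply, add_mul, AddChar.map_add_eq_mul]

noncomputable abbrev eps (j : ZMod n) (A : Rp R (G × Multiplicative (ZMod n))) : Matrix A.ι A.ι R :=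
  opr (fun i : ZMod n => ν * ψ (-(i * j))) (fun i => (1, Multiplicative.ofAdd i)) A

lemma rho_eps (j : ZMod n) (A : Rp R (G × Multiplicative (ZMod n))) (g : G)
    (c : Multiplicative (ZMod n)) :
    A.ρ (g, c) * eps ψ ν j A = ψ (c.toAdd * j) • (A.ρ (g, 1) * eps ψ ν j A) := by
  simp only [opr, Matrix.mul_sum, Matrix.mul_smul, ← A.mul, Finset.smul_sum, smul_smul]
  refine Fintype.sum_equiv (Equiv.addLeft c.toAdd) _ _ fun i => ?_
  simp only [Equiv.coe_addLeft, Prod.mk_mul_mk, mul_one, one_mul, ofAdd_add, ofAdd_toAdd]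
  congr 1
  rw [mul_left_comm, ← AddChar.map_add_eq_mul]
  congr 2
  ring

lemma one_eps (j : ZMod n) (A : Rp R (G × Multiplicative (ZMod n))) :
    A.ρ (1, 1) * eps ψ ν j A = eps ψ ν j A := by
  simp only [opr, Matrix.mul_sum, Matrix.mul_smul, ← A.mul, Prod.mk_mul_mk, one_mul]

variable (hν : ν * n = 1) (hψ : ∀ j ≠ 0, ∑ i, ψ (i * j) = 0)
include hν hψ

lemma orth (j : ZMod n) : ν * ∑ i, ψ (i * j) = if j = 0 then 1 else 0 := by
  split_ifs with h
  · simp [h, hν]
  · rw [hψ j h, mul_zero]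

lemma eps_eps (j k : ZMod n) (A : Rp R (G × Multiplicative (ZMod n))) :
    eps ψ ν j A * eps ψ ν k A = if j = k then eps ψ ν k A else 0 := by
  have : eps ψ ν j A * eps ψ ν k A = (ν * ∑ i, ψ (i * (k - j))) • eps ψ ν k A := by
    conv_lhs => rw [eps, opr]
    rw [Matrix.sum_mul, Finset.mul_sum, Finset.sum_smul]
    refine Finset.sum_congr rfl fun i _ => ?_
    rw [Matrix.smul_mul, rho_eps, one_eps, smul_smul, mul_assoc, ← AddChar.map_add_eq_mul]
    congr 3
    simp only [toAdd_ofAdd]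
    ring
  rw [this, orth ψ ν hν hψ]
  by_cases h : j = k
  · simp [h]
  · simp [h, sub_eq_zero, Ne.symm h]

lemma eps_idem (j : ZMod n) (A : Rp R (G × Multiplicative (ZMod n))) : A.Idem (eps ψ ν j A) := by
  refine ⟨fun g => ?_, by rw [eps_eps ψ ν hν hψ, if_pos rfl]⟩
  simp only [opr, Matrix.mul_sum, Matrix.sum_mul, Matrix.mul_smul, Matrix.smul_mul, ← A.mul]
  refine Finset.sum_congr rfl fun i _ => ?_
  congr 2
  ext <;> simp [add_comm]

lemma sum_eps (A : Rp R (G × Multiplicative (ZMod n))) : ∑ j, eps ψ ν j A = A.ρ 1 := by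
  simp only [opr]
  rw [Finset.sum_comm]
  have : ∀ i : ZMod n, ∑ j, ν * ψ (-(i * j)) = if i = 0 then 1 else 0 := fun i => by
    have := orth ψ ν hν hψ (-i)
    rw [Finset.mul_sum] at this
    simp only [neg_eq_zero] at this
    rw [← this]
    exact Finset.sum_congr rfl fun j _ => by congr 2; ring
  simp only [← Finset.sum_smul, this, ite_smul, one_smul, zero_smul, Finset.sum_ite_eq',
    Finset.mem_univ, if_true]
  rfl

noncomputable def piK (j : ZMod n) : K R (G × Multiplicative (ZMod n)) →+ K R G :=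
  Kadd (fun A => cl ((A.cut _ (eps_idem ψ ν hν hψ j A)).res (MonoidHom.inl _ _)))
    (fun A B h => by
      have := cl_iso ((h.cut _ _ (eps_idem ψ ν hν hψ j A) (eps_idem ψ ν hν hψ j B)).res
        (MonoidHom.inl G (Multiplicative (ZMod n))))
      exact this) fun A B => by
      rw [← cl_sum]
      refine cl_iso (Rp.iso_of_equiv (Equiv.refl _) fun g a b => ?_)
      simp only [opr_sum, fromBlocks_multiply]
      simp

lemma decomp (F : K R (G × Multiplicative (ZMod n))) :
    F = ∑ j, res (MonoidHom.fst _ _) (piK ψ ν hν hψ j F) * cl (chi ψ G j) := by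
  have : ∀ A, cl A = ∑ j, res (MonoidHom.fst _ _) (piK ψ ν hν hψ j (cl A)) * cl (chi ψ G j) := by
    intro A
    have h1 := (cc_sum Finset.univ (fun j => eps ψ ν j A) (fun j => eps_idem ψ ν hν hψ j A)
      (fun i j h => by rw [eps_eps ψ ν hν hψ, if_neg h]))
    have h2 : cc A (∑ j, eps ψ ν j A) = cl A := by
      rw [cc_eq h1.1]
      refine cl_iso (Rp.iso_of_equiv (Equiv.refl _) fun g a b => ?_)
      simp only [sum_eps ψ ν hν hψ, A.mul_one', Equiv.refl_apply]
    rw [← h2, h1.2]
    refine Finset.sum_congr rfl fun j _ => ?_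
    rw [h1.2.symm, h2, piK, Kadd_cl, res_cl, ← cl_ten, cc_eq (eps_idem ψ ν hν hψ j A)]
    refine cl_iso (Rp.iso_of_equiv (Equiv.prodPUnit _).symm fun t a b => ?_)
    have := rho_eps ψ ν j A t.1 t.2
    simp only [Prod.mk.eta] at this
    simp only [this]
    simp [mul_comm]
  obtain ⟨A, B, rfl⟩ := K_ex F
  simp only [map_sub, sub_mul, Finset.sum_sub_distrib, ← this]

lemma piK_chi (i j : ZMod n) (x : K R G) :
    piK ψ ν hν hψ i (res (MonoidHom.fst _ _) x * cl (chi ψ G j)) = if j = i then x else 0 := by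
  have : ∀ X : Rp R G, piK ψ ν hν hψ i (res (MonoidHom.fst _ _) (cl X) * cl (chi ψ G j)) =
      if j = i then cl X else 0 := by
    intro X
    rw [res_cl, ← cl_ten, piK, Kadd_cl]
    have key : eps ψ ν i ((X.res (MonoidHom.fst _ _)).ten (chi ψ G j)) =
        (if j = i then (1 : R) else 0) • (X.ρ 1 ⊗ₖ (1 : Matrix Unit Unit R)) := by
      have := orth ψ ν hν hψ (j - i)
      simp only [sub_eq_zero] at this
      rw [← this, Finset.mul_sum, Finset.sum_smul, eps, opr]
      refine Finset.sum_congr rfl fun k _ => ?_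
      ext a b
      simp only [Matrix.smul_apply, kroneckerMap_apply, MonoidHom.coe_fst, of_apply, toAdd_ofAdd,
        smul_eq_mul, one_apply_eq, mul_one]
      rw [show k * (j - i) = -(k * i) + k * j by ring, AddChar.map_add_eq_mul]
      ring
    split_ifs with h
    · refine cl_iso (Rp.iso_of_equiv (Equiv.prodPUnit _) fun g a b => ?_)
      have e : (Matrix.of fun _ _ => ψ (0 * j) : Matrix Unit Unit R) = 1 := by ext; simp
      simp only [key, if_pos h, one_smul, MonoidHom.inl_apply, MonoidHom.coe_fst, toAdd_one, e,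
        ← mul_kronecker_mul, X.mul_one']
      simp
    · exact cl_eq_zero _ (by simp only [key, if_neg h, zero_smul, Matrix.mul_zero])
  obtain ⟨A, B, rfl⟩ := K_ex x
  simp only [map_sub, sub_mul, this]
  split_ifs <;> simp

omit hν hψ [NeZero n] in
lemma chi_pow (j : ZMod n) : ∀ k : ℕ, cl (chi ψ G j) ^ k = cl (chi ψ G (k * j))
  | 0 => by
    rw [pow_zero, ← cl_one]
    exact cl_iso (Rp.iso_of_equiv (Equiv.refl _) fun g a b => by simp)
  | k + 1 => by
    rw [pow_succ, chi_pow j k, ← cl_ten]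
    refine cl_iso (Rp.iso_of_equiv (Equiv.prodPUnit _) fun g a b => ?_)
    simp [add_mul, mul_add, AddChar.map_add_eq_mul]

lemma rig_step [Finite R] {q : ℕ} (hq : q.Prime) (F : K R (G × Multiplicative (ZMod n)))
    (hF : F * F = F) (h : res ((MonoidHom.id G).prodMap (powMonoidHom q)) F = 0) : F = 0 := by
  classical
  set x := fun j => piK ψ ν hν hψ j F with hx
  have hd : F = ∑ j, res (MonoidHom.fst _ _) (x j) * cl (chi ψ G j) := decomp ψ ν hν hψ F
  have h1 : ∀ i, ∑ j ∈ Finset.univ.filter (fun j => (q : ZMod n) * j = i), x j = 0 := fun i => by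
    have := congrArg (piK ψ ν hν hψ i) h
    rw [hd, map_zero, map_sum, map_sum] at this
    refine Eq.trans ?_ this
    rw [Finset.sum_filter]
    refine Finset.sum_congr rfl fun j _ => ?_
    rw [map_mul, res_res, res_cl, ← piK_chi ψ ν hν hψ]
    congr 2
    refine cl_iso (Rp.iso_of_equiv (Equiv.refl _) fun g a b => ?_)
    simp [mul_left_comm, mul_assoc]
  obtain ⟨r, hr⟩ := sum_pow_prime hq Finset.univ
    fun j => res (MonoidHom.fst _ _) (x j) * cl (chi ψ G j)
  choose s hs using fun i => sum_pow_prime hq (Finset.univ.filter fun j => (q : ZMod n) * j = i) x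
  have hFq : F ^ q = F := IsIdempotentElem.pow_eq hF hq.ne_zero
  rw [← hd, hFq, ← Finset.sum_fiberwise (s := Finset.univ) (g := fun j => (q : ZMod n) * j)] at hr
  refine idem_zero hF hq.one_lt (y := r - ∑ i, res (MonoidHom.fst _ _) (s i) * cl (chi ψ G i)) ?_
  refine hr.trans ?_
  rw [mul_sub, Finset.mul_sum, add_comm, sub_eq_add_neg, ← Finset.sum_neg_distrib]
  congr 1
  refine Finset.sum_congr rfl fun i _ => ?_
  have := hs i
  rw [h1, zero_pow hq.ne_zero, eq_comm, add_eq_zero_iff_eq_neg] at this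
  have e := congrArg (res (MonoidHom.fst G (Multiplicative (ZMod n)))) this
  rw [map_neg, map_mul, map_natCast, map_sum] at e
  rw [← mul_assoc, ← neg_mul, ← e, Finset.sum_mul]
  refine Finset.sum_congr rfl fun j hj => ?_
  rw [mul_pow, chi_pow, map_pow, (Finset.mem_filter.1 hj).2]

lemma rig_root [Finite R] (F : K R (G × Multiplicative (ZMod n))) (hF : F * F = F)
    (h : res (MonoidHom.inl _ _) F = 0) : F = 0 := by
  have key : ∀ d : ℕ, d ≠ 0 → res ((MonoidHom.id G).prodMap (powMonoidHom d)) F = 0 → F = 0 := by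
    intro d
    induction d using induction_on_primes with
    | zero => exact fun h => absurd rfl h
    | one =>
      intro _ h
      rw [← res_id F, ← h]
      congr 2
      ext <;> simp
    | prime_mul q d hq ih =>
      intro h0 h
      refine ih (by rintro rfl; simp at h0) (rig_step ψ ν hν hψ hq _ (by rw [← map_mul, hF]) ?_)
      rw [res_res, ← h]
      congr 2
      ext <;> simp [mul_assoc, mul_left_comm]
  refine key n (NeZero.ne n) ?_
  have := congrArg (res (MonoidHom.fst G (Multiplicative (ZMod n)))) h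
  rw [map_zero, res_res] at this
  rw [← this]
  congr 2
  ext <;> simp

end rig

open Polynomial in
theorem rigid {R : Type u} {G : Type v} [CommRing R] [Finite R] [Monoid G] {C : Type w} [Group C]
    [Finite C] (hC : IsCyclic C) (hu : IsUnit (Nat.card C : R)) (F : K R (G × C)) (hF : F * F = F)
    (h : res (MonoidHom.inl _ _) F = 0) : F = 0 := by
  rcases subsingleton_or_nontrivial R with hR | hR
  · obtain ⟨A, B, rfl⟩ := K_ex F
    rw [cl_eq_zero A (Subsingleton.elim _ _), cl_eq_zero B (Subsingleton.elim _ _), sub_self]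
  set n := Nat.card C with hn
  have hn0 : 0 < n := Nat.card_pos
  haveI : NeZero n := ⟨hn0.ne'⟩
  let e := zmodCyclicMulEquiv hC
  let R' := AdjoinRoot (cyclotomic n R)
  let pb := AdjoinRoot.powerBasis' (cyclotomic.monic n R)
  have hd : pb.dim ≠ 0 := by
    show (cyclotomic n R).natDegree ≠ 0
    rw [natDegree_cyclotomic]
    exact (Nat.totient_pos.2 hn0).ne'
  haveI : Module.Finite R R' := pb.finite
  haveI : Finite R' := Module.finite_of_finite R
  let ζ : R' := AdjoinRoot.root _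
  have hroot : ∀ p : ℤ[X], cyclotomic n ℤ ∣ p → aeval ζ p = 0 := fun p ⟨r, hr⟩ => by
    have : aeval ζ (cyclotomic n ℤ) = 0 := by
      rw [← aeval_map_algebraMap R, map_cyclotomic]
      simp [ζ, R']
    rw [hr, map_mul, this, zero_mul]
  have hζ : ζ ^ n = 1 := by
    have := hroot _ (cyclotomic.dvd_X_pow_sub_one n ℤ)
    simpa [sub_eq_zero] using this
  have hμ := Complex.isPrimitiveRoot_exp n hn0.ne'
  have hψ : ∀ j ≠ 0, ∑ i, AddChar.zmodChar n hζ (i * j) = 0 := fun j hj => by
    have h1 := AddChar.sum_mulShift j (AddChar.zmodChar_primitive_of_primitive_root n hμ)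
    rw [if_neg hj] at h1
    have := hroot (∑ i : ZMod n, X ^ (i * j).val) (by
      rw [cyclotomic_eq_minpoly hμ hn0]
      refine minpoly.isIntegrallyClosed_dvd (hμ.isIntegral hn0) ?_
      simpa [AddChar.zmodChar_apply] using h1)
    simpa [AddChar.zmodChar_apply] using this
  obtain ⟨ν, hν⟩ := (hu.map (algebraMap R R')).exists_left_inv
  rw [map_natCast] at hν
  have h1 : bc (algebraMap R R') (res ((MonoidHom.id G).prodMap e.toMonoidHom) F) = 0 := by
    refine rig_root _ ν hν hψ _ (by rw [← map_mul, ← map_mul, hF]) ?_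
    rw [← bc_res, res_res, ← map_zero (bc (algebraMap R R')), ← h]
    congr 3
    ext <;> simp
  have h2 := bc_inj (Algebra.leftMulMatrix pb.basis).toRingHom _ hd (fun r => by
    show Algebra.leftMulMatrix pb.basis (algebraMap R R' r) = _
    rw [AlgHom.commutes, Algebra.algebraMap_eq_smul_one]) _ h1
  have h3 := congrArg (res ((MonoidHom.id G).prodMap e.symm.toMonoidHom)) h2
  rw [map_zero, res_res] at h3
  rw [← res_id F, ← h3]
  congr 2
  ext <;> simp

end Pool.Agent.H.MP_6995cd_al
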