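import Mathlib
namespace Pool.Agent.H.MP_6995cd_al
open Matrix
open scoped Kronecker
universe u v w u'

lemma pow_idem {M : Type u} [Monoid M] [Finite M] (x : M) : ∃ k, 0 < k ∧ x ^ k * x ^ k = x ^ k := by
  obtain ⟨i, j, hij, h⟩ := Finite.exists_ne_map_eq_of_infinite fun n : ℕ => x ^ n
  wlog hl : i < j generalizing i j
  · exact this j i hij.symm h.symm (by omega)
  obtain ⟨d, rfl⟩ := Nat.exists_eq_add_of_lt hl
  have h1 : ∀ m k, x ^ (i + k + m * (d + 1)) = x ^ (i + k) := fun m k => by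
    induction m with
    | zero => simp
    | succ m ih =>
      rw [← ih, show i + k + (m + 1) * (d + 1) = (i + d + 1) + (k + m * (d + 1)) by ring, pow_add,
        ← h, ← pow_add, add_assoc]
  refine ⟨(i + 1) * (d + 1), by positivity, ?_⟩
  have := h1 (i + 1) (i * d + d + 1)
  rw [show i + (i * d + d + 1) = (i + 1) * (d + 1) by ring, pow_add] at this
  exact this

lemma tr_rank {Λ k : Type} [CommRing Λ] [Field k] (f : Λ →+* k) (hf : Function.Surjective f)
    (p : Λ) (J : ℕ) (hp : p ^ J = 0) (hk : ∀ x, f x = 0 → ∃ y, x = p * y) {m : Type} [Fintype m]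
    [DecidableEq m] (E : Matrix m m Λ) (hE : E * E = E) {U : Type u} [AddCommGroup U] [Module k U]
    [Module.Finite k U] (A : U →ₗ[k] (m → k)) (B : (m → k) →ₗ[k] U) (hBA : B ∘ₗ A = LinearMap.id)
    (hAB : A ∘ₗ B = toLin' (E.map f)) : E.trace = Module.finrank k U := by
  classical
  have nil : ∀ {n : Type} [Fintype n] [DecidableEq n] (N : Matrix n n Λ), N.map f = 0 →
      IsNilpotent N := fun N h => by
    choose y hy using fun a b => hk (N a b) (congrFun (congrFun h a) b)
    have : N = p • Matrix.of y := by ext a b; simp [hy]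
    exact ⟨J, by rw [this, smul_pow, hp, zero_smul]⟩
  let bU := Module.finBasis k U
  let a0 := LinearMap.toMatrix bU (Pi.basisFun k m) A
  let b0 := LinearMap.toMatrix (Pi.basisFun k m) bU B
  have h1 : b0 * a0 = 1 := by rw [← LinearMap.toMatrix_comp, hBA, LinearMap.toMatrix_id]
  have h2 : a0 * b0 = E.map f := by
    rw [← LinearMap.toMatrix_comp, hAB, LinearMap.toMatrix_eq_toMatrix', LinearMap.toMatrix'_toLin']
  choose s hs using hf
  let a := a0.map s
  let b := b0.map s
  have ha : a.map f = a0 := by ext; simp [a, hs]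
  have hb : b.map f = b0 := by ext; simp [b, hs]
  have hu : IsUnit (b * E * a) := by
    have := (nil (b * E * a - 1) (by
      rw [Matrix.map_sub _ (map_sub f), Matrix.map_mul, Matrix.map_mul, ha, hb, ← h2,
        ← Matrix.mul_assoc, h1, Matrix.one_mul, h1, Matrix.map_one _ (map_zero f) (map_one f),
        sub_self])).isUnit_add_one
    rwa [sub_add_cancel] at this
  obtain ⟨u, hu⟩ := hu
  let v := (u⁻¹).1
  have hv1 : v * (b * E * a) = 1 := by rw [← hu]; exact u.inv_mul
  have hv2 : v.map f = 1 := by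
    have := congrArg (fun M => M.map f) hv1
    simp only [Matrix.map_mul, ha, hb, ← h2] at this
    rwa [← Matrix.mul_assoc b0, h1, Matrix.one_mul, h1, Matrix.mul_one,
      Matrix.map_one _ (map_zero f) (map_one f)] at this
  let γ := E * a * v * (b * E)
  have e1 : E * γ = γ := by simp only [γ, ← Matrix.mul_assoc, hE]
  have e2 : γ * E = γ := by simp only [γ, Matrix.mul_assoc, hE]
  have e3 : γ * γ = γ := by
    calc γ * γ = E * a * (v * (b * (E * E) * a)) * v * (b * E) := by
          simp only [γ, Matrix.mul_assoc]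
      _ = γ := by rw [hE, hv1, Matrix.mul_one]
  have e4 : E - γ = 0 := by
    refine IsIdempotentElem.eq_zero_of_isNilpotent ?_ (nil _ ?_)
    · show (E - γ) * (E - γ) = E - γ
      rw [Matrix.sub_mul, Matrix.mul_sub, Matrix.mul_sub, hE, e1, e2, e3, sub_self, sub_zero]
    · rw [Matrix.map_sub _ (map_sub f)]
      simp only [γ, Matrix.map_mul, ha, hb, hv2, ← h2, Matrix.mul_one]
      rw [Matrix.mul_assoc a0 b0 a0, h1, Matrix.mul_one, ← Matrix.mul_assoc b0, h1, Matrix.one_mul,
        sub_self]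
  rw [sub_eq_zero] at e4
  rw [e4, Matrix.trace_mul_comm, ← Matrix.mul_assoc, ← Matrix.mul_assoc, Matrix.mul_assoc b E E, hE,
    Matrix.trace_mul_comm, hv1]
  simp

lemma mob {P : Type u} [PartialOrder P] [Fintype P] [DecidableLE P] (f : P → ℤ) :
    ∃ b : P → ℤ, ∀ D, ∑ C with D ≤ C, b C = f D := by
  classical
  let b : P → ℤ := (wellFounded_gt (α := P)).fix fun D r => f D - ∑ C : {C // D < C}, r C C.2
  refine ⟨b, fun D => ?_⟩
  have : b D = f D - ∑ C : {C // D < C}, b C := WellFounded.fix_eq _ _ _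
  rw [← Finset.add_sum_erase _ _ (show D ∈ _ by simp), this, sub_add,
    Finset.sum_subtype (p := fun C => D < C) _ (by simp [lt_iff_le_and_ne, and_comm, eq_comm]),
    sub_self, sub_zero]

open Classical in
lemma artin (L : Type u) [Group L] [Fintype L] [Fintype (Subgroup L)] : ∃ b : Subgroup L → ℤ,
    (∀ H, b H ≠ 0 → IsCyclic H) ∧ ∀ g, ∑ H, (if g ∈ H then b H else 0) = 1 := by
  obtain ⟨b, hb⟩ := mob (P := {H : Subgroup L // IsCyclic H}) fun _ => 1
  refine ⟨fun H => if h : IsCyclic H then b ⟨H, h⟩ else 0, fun H h => ?_, fun g => ?_⟩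
  · by_contra h'
    exact h (dif_neg h')
  · rw [← hb ⟨Subgroup.zpowers g, inferInstance⟩, Finset.sum_filter,
      ← Fintype.sum_subtype_add_sum_subtype (fun H : Subgroup L => IsCyclic H),
      Finset.sum_eq_zero (s := (Finset.univ : Finset {H : Subgroup L // ¬ IsCyclic H})), add_zero]
    · refine Finset.sum_congr rfl fun H _ => ?_
      beta_reduce
      rw [dif_pos H.2]
      exact if_congr (Subgroup.zpowers_le (G := L)).symm rfl rfl
    · intro H _
      beta_reduce
      rw [dif_neg H.2, ite_self]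

section
variable {L : Type} [Group L] [Fintype L] {Λ : Type} [CommRing Λ] {d : ℕ}

open Classical in
noncomputable def Ps (H : Subgroup L) (E : L → Matrix (Fin d) (Fin d) Λ) :
    Matrix ((L ⧸ H) × Fin d) ((L ⧸ H) × Fin d) Λ :=
  Matrix.of fun x y => ∑ g, if g • y.1 = x.1 then E g x.2 y.2 else 0

open Classical in
lemma Ps_mul (H : Subgroup L) (E E' : L → Matrix (Fin d) (Fin d) Λ) :
    Ps H E * Ps H E' = Ps H fun g => ∑ h, E h * E' (h⁻¹ * g) := by
  ext x y
  simp only [Ps, Matrix.mul_apply, of_apply, Fintype.sum_prod_type, Finset.sum_mul, Finset.mul_sum,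
    Matrix.sum_apply]
  have e : ∀ g : L, (if g • y.1 = x.1 then ∑ h, ∑ j, E h x.2 j * E' (h⁻¹ * g) j y.2 else 0) =
      ∑ h, ∑ j, if g • y.1 = x.1 then E h x.2 j * E' (h⁻¹ * g) j y.2 else 0 := fun g => by
    split_ifs <;> simp
  simp only [e]
  conv_rhs => rw [Finset.sum_comm]
  conv_lhs => rw [Finset.sum_comm]
  simp only [Finset.sum_comm (s := (Finset.univ : Finset (L ⧸ H)))]
  conv_lhs => rw [Finset.sum_comm]
  conv_lhs => enter [2, g]; rw [Finset.sum_comm]
  conv_lhs => rw [Finset.sum_comm]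
  refine Finset.sum_congr rfl fun h _ => ?_
  refine Fintype.sum_equiv (Equiv.mulLeft h) _ _ fun g => Finset.sum_congr rfl fun j _ => ?_
  rw [Finset.sum_eq_single (g • y.1)]
  · simp [mul_smul]
  · intro z _ hz
    simp [Ne.symm hz]
  · simp

open Classical in
lemma Ps_trace (H : Subgroup L) (E : L → Matrix (Fin d) (Fin d) Λ) :
    (Nat.card H : Λ) * (Ps H E).trace = ∑ g, ∑ x, if x⁻¹ * g * x ∈ H then (E g).trace else 0 := by
  have e : (Ps H E).trace = ∑ g, ∑ y : L ⧸ H, if g • y = y then (E g).trace else 0 := by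
    simp only [Matrix.trace, diag_apply, Ps, of_apply, Fintype.sum_prod_type]
    rw [Finset.sum_comm (s := (Finset.univ : Finset L))]
    refine Finset.sum_congr rfl fun y _ => ?_
    rw [Finset.sum_comm]
    refine Finset.sum_congr rfl fun g _ => ?_
    split_ifs <;> simp
  rw [e, Finset.mul_sum]
  refine Finset.sum_congr rfl fun g _ => ?_
  rw [← Finset.sum_filter, ← Finset.sum_filter, Finset.sum_const, Finset.sum_const, nsmul_eq_mul,
    nsmul_eq_mul, ← mul_assoc, ← Nat.cast_mul]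
  congr 2
  have := QuotientGroup.card_preimage_mk H {y | g • y = y}
  rw [← Fintype.card_subtype, ← Fintype.card_subtype, ← Nat.card_eq_fintype_card,
    ← Nat.card_eq_fintype_card]
  refine this.symm.trans (Nat.card_congr (Equiv.subtypeEquivRight fun x => ?_))
  show ((g * x : L) : L ⧸ H) = x ↔ _
  rw [eq_comm, QuotientGroup.eq, mul_assoc]

open Classical in
lemma Ps_pow (E : L → Matrix (Fin d) (Fin d) Λ) : ∀ k, 0 < k → ∃ E', ∀ H, Ps H E ^ k = Ps H E' := by
  intro k hk
  induction k, hk using Nat.le_induction with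
  | base => exact ⟨E, fun H => pow_one _⟩
  | succ k _ ih =>
    obtain ⟨E', h⟩ := ih
    exact ⟨_, fun H => by rw [pow_succ, h, Ps_mul]⟩

end

section
variable {L : Type} [Group L] [Fintype L]

def fxs {k : Type} [CommRing k] {V : Type u} [AddCommGroup V] [Module k V]
    (ρ : Representation k L V) (H : Subgroup L) : Submodule k V where
  carrier := {v | ∀ h ∈ H, ρ h v = v}
  add_mem' := fun {v w} hv hw h hh => by rw [map_add, hv h hh, hw h hh]
  zero_mem' := fun h _ => map_zero _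
  smul_mem' := fun r v hv h hh => by rw [map_smul, hv h hh]

open Classical in
lemma base_fin {p : ℕ} [Fact p.Prime] {d : ℕ} (ρ : Representation (ZMod p) L (Fin d → ZMod p))
    (θ : (Fin d → ZMod p) →ₗ[ZMod p] (Fin d → ZMod p)) (hθ : ∀ w, ∑ l, ρ l (θ (ρ l⁻¹ w)) = w)
    [Fintype (Subgroup L)] (b : Subgroup L → ℤ) (hb : ∀ g, ∑ H, (if g ∈ H then b H else 0) = 1) :
    ∑ H, b H * Nat.card H * Module.finrank (ZMod p) (fxs ρ H) =
      Nat.card L * Module.finrank (ZMod p) (fxs ρ ⊤) := by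
  have hp := (Fact.out : p.Prime)
  let ε : L → Matrix (Fin d) (Fin d) (ZMod p) := fun g => LinearMap.toMatrix' (θ ∘ₗ ρ g)
  have key : ∀ H : Subgroup L, ∃ (A : fxs ρ H →ₗ[ZMod p] ((L ⧸ H) × Fin d → ZMod p))
      (B : ((L ⧸ H) × Fin d → ZMod p) →ₗ[ZMod p] fxs ρ H), B ∘ₗ A = LinearMap.id ∧
      A ∘ₗ B = toLin' (Ps H ε) := fun H => by
    let B0 : ((L ⧸ H) × Fin d → ZMod p) →ₗ[ZMod p] (Fin d → ZMod p) :=
      ∑ g : L, ρ g ∘ₗ LinearMap.funLeft (ZMod p) (ZMod p) fun i => (((g⁻¹ : L) : L ⧸ H), i)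
    have hB0 : ∀ φ, B0 φ = ∑ g : L, ρ g fun i => φ (((g⁻¹ : L) : L ⧸ H), i) := fun φ => by
      simp only [B0, LinearMap.sum_apply]; rfl
    refine ⟨LinearMap.pi fun x => LinearMap.proj x.2 ∘ₗ θ ∘ₗ ρ x.1.out ∘ₗ (fxs ρ H).subtype,
      B0.codRestrict _ fun φ h hh => ?_, ?_, ?_⟩
    · rw [hB0, map_sum]
      refine Fintype.sum_equiv (Equiv.mulLeft h) _ _ fun g => ?_
      have : (((h * g)⁻¹ : L) : L ⧸ H) = (g⁻¹ : L) := by
        rw [QuotientGroup.eq]; simpa using hh
      simp only [Equiv.coe_mulLeft, this, map_mul, Module.End.mul_apply]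
    · ext u : 2
      show B0 _ = u.1
      rw [hB0, ← hθ u.1]
      refine Finset.sum_congr rfl fun g _ => ?_
      congr 1
      funext i
      show θ (ρ _ u.1) i = _
      obtain ⟨h, hh⟩ := QuotientGroup.mk_out_eq_mul H g⁻¹
      rw [hh, map_mul, Module.End.mul_apply, u.2 h h.2]
    · refine LinearMap.ext fun φ => funext fun x => ?_
      show θ (ρ x.1.out (B0 φ)) x.2 = _
      rw [hB0, map_sum, map_sum, Finset.sum_apply, toLin'_apply]
      simp only [mulVec, dotProduct, Ps, of_apply, Fintype.sum_prod_type, Finset.sum_mul]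
      conv_rhs => enter [2, y]; rw [Finset.sum_comm]
      rw [Finset.sum_comm]
      refine Fintype.sum_equiv (Equiv.mulLeft x.1.out) _ _ fun g => ?_
      rw [Finset.sum_eq_single (((g⁻¹ : L) : L ⧸ H))]
      · have : (x.1.out * g) • ((g⁻¹ : L) : L ⧸ H) = x.1 := by
          show ((x.1.out * g * g⁻¹ : L) : L ⧸ H) = _
          simp
        simp only [Equiv.coe_mulLeft, this, if_true]
        have := congrFun (LinearMap.toMatrix'_mulVec (θ ∘ₗ ρ (x.1.out * g))
          fun i => φ (((g⁻¹ : L) : L ⧸ H), i)) x.2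
        refine Eq.trans ?_ this.symm
        rw [map_mul]
        rfl
      · intro y _ hy
        have : (x.1.out * g) • y ≠ x.1 := fun e => hy (by
          rw [smul_eq_iff_eq_inv_smul] at e
          rw [e]
          conv_lhs => enter [2]; rw [← QuotientGroup.out_eq' x.1]
          show (((x.1.out * g)⁻¹ * x.1.out : L) : L ⧸ H) = _
          simp)
        simp [this]
      · simp
  choose A B h1 h2 using key
  have main : ∀ J : ℕ, ((∑ H, b H * Nat.card H * Module.finrank (ZMod p) (fxs ρ H) : ℤ) :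
      ZMod (p ^ (J + 1))) = ((Nat.card L * Module.finrank (ZMod p) (fxs ρ ⊤) : ℤ) : _) := fun J => by
    have : NeZero (p ^ (J + 1)) := ⟨pow_ne_zero _ hp.ne_zero⟩
    let f := ZMod.castHom (dvd_pow_self p J.succ_ne_zero) (ZMod p)
    have hf : Function.Surjective f := ZMod.castHom_surjective _
    obtain ⟨s, hs⟩ := hf.hasRightInverse
    obtain ⟨k, hk, hi⟩ := pow_idem fun H : Subgroup L => Ps H fun g => (ε g).map s
    obtain ⟨E, hE⟩ := Ps_pow (fun g => (ε g).map s) k hk
    have t : ∀ H, (Ps H E).trace = Module.finrank (ZMod p) (fxs ρ H) := fun H => by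
      refine tr_rank f hf p (J + 1) (by rw [← Nat.cast_pow, ZMod.natCast_self]) (fun x hx => ?_) _
        (by rw [← hE]; exact congrFun hi H) (A H) (B H) (h1 H) ?_
      · obtain ⟨m, rfl⟩ := ZMod.natCast_zmod_surjective x
        rw [map_natCast, ZMod.natCast_eq_zero_iff] at hx
        obtain ⟨y, rfl⟩ := hx
        exact ⟨y, by simp⟩
      · have e1 : (Ps H fun g => (ε g).map s).map f = Ps H ε := by
          ext x y
          simp only [Ps, map_apply, of_apply, map_sum, apply_ite f, map_zero, hs _]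
        have e2 : IsIdempotentElem (Ps H ε) := by
          apply toLin'.injective
          rw [toLin'_mul, ← h2, LinearMap.comp_assoc, ← LinearMap.comp_assoc (B H), h1,
            LinearMap.id_comp]
        rw [← hE, ← RingHom.mapMatrix_apply, map_pow, RingHom.mapMatrix_apply, e1,
          e2.pow_eq hk.ne', h2]
    have t2 := Ps_trace ⊤ E
    push_cast
    simp only [← t, mul_assoc, Ps_trace]
    rw [Subgroup.card_top] at t2
    rw [t2]
    simp only [Finset.mul_sum]
    rw [Finset.sum_comm]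
    refine Finset.sum_congr rfl fun g _ => ?_
    rw [Finset.sum_comm]
    refine Finset.sum_congr rfl fun x _ => ?_
    have := congrArg (fun z : ℤ => (z : ZMod (p ^ (J + 1))) * (E g).trace) (hb (x⁻¹ * g * x))
    simp only [Int.cast_sum, Finset.sum_mul, Int.cast_ite, Int.cast_zero, ite_mul, zero_mul,
      Int.cast_one, one_mul] at this
    simp only [mul_ite, mul_zero, ← mul_assoc, this, Subgroup.mem_top, if_true]
  rw [← sub_eq_zero]
  generalize hz : (∑ H, b H * Nat.card H * Module.finrank (ZMod p) (fxs ρ H) : ℤ) -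
    Nat.card L * Module.finrank (ZMod p) (fxs ρ ⊤) = z
  have := main z.natAbs
  rw [← sub_eq_zero, ← Int.cast_sub, hz, ZMod.intCast_zmod_eq_zero_iff_dvd, Int.natCast_dvd] at this
  by_contra h0
  have h3 := Nat.le_of_dvd (Int.natAbs_pos.2 h0) this
  have h4 := Nat.lt_pow_self (n := z.natAbs + 1) hp.one_lt
  omega

lemma ex_fin (k : Type) [Field k] (W : Type u) [AddCommGroup W] [Module k W] [Finite W] :
    ∃ d, Nonempty (W ≃ₗ[k] (Fin d → k)) :=
  have : Module.Finite k W := Module.Finite.of_finite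
  ⟨_, ⟨(Module.finBasis k W).equivFun⟩⟩

open Classical in
lemma base_p' {p : ℕ} [Fact p.Prime] {W : Type u} [AddCommGroup W] [Finite W] [Module (ZMod p) W]
    (ρ : Representation ℤ L W) (θ : W →ₗ[ℤ] W) (hθ : ∀ w, ∑ l, ρ l (θ (ρ l⁻¹ w)) = w)
    [Fintype (Subgroup L)] (b : Subgroup L → ℤ) (hb : ∀ g, ∑ H, (if g ∈ H then b H else 0) = 1) :
    ∑ H, (b H * Nat.card H * Real.log (Nat.card (fxs ρ H)) : ℝ) =
      Nat.card L * Real.log (Nat.card (fxs ρ ⊤)) := by
  obtain ⟨d, ⟨e⟩⟩ := ex_fin (ZMod p) W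
  let c : (W →ₗ[ℤ] W) → (Fin d → ZMod p) →ₗ[ZMod p] (Fin d → ZMod p) := fun f =>
    e.toLinearMap ∘ₗ f.toAddMonoidHom.toZModLinearMap p ∘ₗ e.symm.toLinearMap
  have hc : ∀ f v, c f v = e (f (e.symm v)) := fun _ _ => rfl
  let ρ' : Representation (ZMod p) L (Fin d → ZMod p) :=
    { toFun := fun l => c (ρ l)
      map_one' := LinearMap.ext fun v => by simp [hc]
      map_mul' := fun l l' => LinearMap.ext fun v => by simp [hc] }
  have h1 := base_fin ρ' (c θ) (fun w => by
    show ∑ l, c (ρ l) (c θ (c (ρ l⁻¹) w)) = w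
    simp only [hc, LinearEquiv.symm_apply_apply, ← map_sum, hθ, LinearEquiv.apply_symm_apply]) b hb
  have h2 : ∀ H, Real.log (Nat.card (fxs ρ H)) =
      Module.finrank (ZMod p) (fxs ρ' H) * Real.log p := fun H => by
    have : Nat.card (fxs ρ H) = Nat.card (fxs ρ' H) := by
      refine Nat.card_congr (e.toEquiv.subtypeEquiv fun w => forall₂_congr fun h _ => ?_)
      show _ ↔ c (ρ h) (e w) = e w
      rw [hc, LinearEquiv.symm_apply_apply, e.injective.eq_iff]
    rw [this, Module.natCard_eq_pow_finrank (K := ZMod p), Nat.card_zmod, Nat.cast_pow, Real.log_pow]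
  simp only [h2, ← mul_assoc, ← Finset.sum_mul]
  congr 1
  exact_mod_cast h1

open Classical in
lemma base_p {p : ℕ} (hp : p.Prime) {W : Type u} [AddCommGroup W] [Finite W]
    (ρ : Representation ℤ L W) (θ : W →ₗ[ℤ] W) (hθ : ∀ w, ∑ l, ρ l (θ (ρ l⁻¹ w)) = w)
    (hW : ∀ w : W, p • w = 0)
    [Fintype (Subgroup L)] (b : Subgroup L → ℤ) (hb : ∀ g, ∑ H, (if g ∈ H then b H else 0) = 1) :
    ∑ H, (b H * Nat.card H * Real.log (Nat.card (fxs ρ H)) : ℝ) =
      Nat.card L * Real.log (Nat.card (fxs ρ ⊤)) :=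
  @base_p' L _ _ p ⟨hp⟩ W _ _ (AddCommGroup.zmodModule hW) ρ θ hθ _ b hb

lemma fix_mul {W : Type u} [AddCommGroup W]
    (ρ : Representation ℤ L W) (θ : W →ₗ[ℤ] W) (hθ : ∀ w, ∑ l, ρ l (θ (ρ l⁻¹ w)) = w) (p : ℕ)
    (H : Subgroup L) (w0 : W) (hw : p • w0 ∈ fxs ρ H) : ∃ w1 ∈ fxs ρ H, p • w1 = p • w0 := by
  classical
  refine ⟨∑ t : L ⧸ H, ∑ h : H, ρ (h * t.out⁻¹) (θ (ρ t.out w0)), fun h hh => ?_, ?_⟩
  · rw [map_sum]
    refine Finset.sum_congr rfl fun t _ => ?_
    rw [map_sum]
    refine Fintype.sum_equiv (Equiv.mulLeft ⟨h, hh⟩) _ _ fun g => ?_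
    simp [mul_assoc]
  · rw [← hθ (p • w0), ← Fintype.sum_prod_type', Finset.smul_sum]
    refine Fintype.sum_bijective (fun x : (L ⧸ H) × H => x.2 * x.1.out⁻¹) ?_ _ _ fun x => ?_
    · rw [Nat.bijective_iff_injective_and_card, Nat.card_prod,
        ← Subgroup.card_eq_card_quotient_mul_card_subgroup]
      refine ⟨fun x y e => ?_, rfl⟩
      have e' : (x.2 : L) * x.1.out⁻¹ = y.2 * y.1.out⁻¹ := e
      have h1 : x.1 = y.1 := by
        rw [← QuotientGroup.out_eq' x.1, ← QuotientGroup.out_eq' y.1, QuotientGroup.eq]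
        have : x.1.out⁻¹ * y.1.out = (x.2⁻¹ * y.2 : H) := by
          rw [Subgroup.coe_mul, Subgroup.coe_inv, eq_inv_mul_iff_mul_eq, ← mul_assoc, e']
          simp
        rw [this]
        exact Subtype.mem _
      rw [h1, mul_left_inj] at e'
      exact Prod.ext h1 (Subtype.ext e')
    · rw [_root_.mul_inv_rev, inv_inv, map_mul ρ x.1.out, Module.End.mul_apply,
        hw _ (H.inv_mem x.2.2), map_nsmul, map_nsmul, map_nsmul]

open Classical in
lemma A2 {p : ℕ} (hp : p.Prime) [Fintype (Subgroup L)] (b : Subgroup L → ℤ)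
    (hb : ∀ g, ∑ H, (if g ∈ H then b H else 0) = 1) : ∀ (j : ℕ) {W : Type u} [AddCommGroup W]
    [Finite W] (ρ : Representation ℤ L W) (θ : W →ₗ[ℤ] W), (∀ w, ∑ l, ρ l (θ (ρ l⁻¹ w)) = w) →
    (∀ w : W, p ^ j • w = 0) → ∑ H, (b H * Nat.card H * Real.log (Nat.card (fxs ρ H)) : ℝ) =
      Nat.card L * Real.log (Nat.card (fxs ρ ⊤)) := by
  intro j
  induction j with
  | zero =>
    intro W _ _ ρ θ hθ hW
    exact base_p hp ρ θ hθ (fun w => by rw [← one_smul ℕ w, ← pow_zero p, hW, smul_zero]) b hb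
  | succ j ih =>
    intro W _ _ ρ θ hθ hW
    let m : W →ₗ[ℤ] W := p • LinearMap.id
    have hm : ∀ w, m w = p • w := fun _ => rfl
    have k1 : ∀ f : W →ₗ[ℤ] W, ∀ w ∈ LinearMap.ker m, f w ∈ LinearMap.ker m := fun f w hw => by
      rw [LinearMap.mem_ker, hm] at hw ⊢
      rw [← map_nsmul, hw, map_zero]
    have k2 : ∀ f : W →ₗ[ℤ] W, ∀ w ∈ LinearMap.range m, f w ∈ LinearMap.range m := by
      rintro f _ ⟨w, rfl⟩
      exact ⟨f w, by rw [hm, hm, map_nsmul]⟩
    let ρ1 := ρ.subrepresentation (LinearMap.ker m) fun g => k1 (ρ g)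
    let ρ2 := ρ.subrepresentation (LinearMap.range m) fun g => k2 (ρ g)
    have h1 := base_p hp ρ1 (θ.restrict (k1 θ)) (fun w => Subtype.ext (by
      rw [AddSubmonoidClass.coe_finsetSum]; exact hθ w.1)) (fun w => Subtype.ext w.2) b hb
    have h2 := ih ρ2 (θ.restrict (k2 θ)) (fun w => Subtype.ext (by
      rw [AddSubmonoidClass.coe_finsetSum]; exact hθ w.1)) (fun w => Subtype.ext (by
        obtain ⟨_, w, rfl⟩ := w
        show p ^ j • p • w = 0
        rw [smul_smul, ← pow_succ, hW]))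
    have h3 : ∀ H, Real.log (Nat.card (fxs ρ H)) =
        Real.log (Nat.card (fxs ρ1 H)) + Real.log (Nat.card (fxs ρ2 H)) := fun H => by
      let φ : fxs ρ H →ₗ[ℤ] fxs ρ2 H := LinearMap.codRestrict _
        (m.rangeRestrict ∘ₗ (fxs ρ H).subtype) fun w h hh => Subtype.ext (by
          show ρ h (p • w.1) = p • w.1
          rw [map_nsmul, w.2 h hh])
      have hs : Function.Surjective φ := by
        rintro ⟨⟨_, w, rfl⟩, hw⟩
        obtain ⟨w1, h1, h2⟩ := fix_mul ρ θ hθ p H w fun h hh => congrArg Subtype.val (hw h hh)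
        exact ⟨⟨w1, h1⟩, Subtype.ext (Subtype.ext h2)⟩
      have e1 := Submodule.card_eq_card_quotient_mul_card (LinearMap.ker φ)
      rw [Nat.card_congr (φ.quotKerEquivOfSurjective hs).toEquiv] at e1
      have e2 : Nat.card (LinearMap.ker φ) = Nat.card (fxs ρ1 H) :=
        Nat.card_congr
          { toFun := fun w => ⟨⟨w.1.1, congrArg (fun x : fxs ρ2 H => x.1.1) w.2⟩,
              fun h hh => Subtype.ext (w.1.2 h hh)⟩
            invFun := fun w => ⟨⟨w.1.1, fun h hh => congrArg Subtype.val (w.2 h hh)⟩,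
              Subtype.ext (Subtype.ext w.1.2)⟩
            left_inv := fun _ => rfl
            right_inv := fun _ => rfl }
      rw [e1, e2, Nat.cast_mul, Real.log_mul (Nat.cast_ne_zero.2 Nat.card_pos.ne')
        (Nat.cast_ne_zero.2 Nat.card_pos.ne')]
    simp only [h3, mul_add, Finset.sum_add_distrib, h1, h2]

end

end Pool.Agent.H.MP_6995cd_al
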