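import Pool.Agent.H.MP_6995cd_al.F
import Pool.Agent.H.MP_6995cd_al.G
namespace Pool.Agent.H.MP_6995cd_al
open Matrix
open scoped Kronecker
universe u v w u'

section
variable {R : Type u} {G : Type v} [CommRing R] [Monoid G] {L : Type} [Group L]

abbrev Op.res {Γ : Type v} {Γ' : Type w} [Monoid Γ] [Monoid Γ'] (φ : Γ' →* Γ) (N : Op R Γ) :
    Op R Γ' where
  N := N.N
  a := N.a.comp ((MonoidHom.id R).prodMap φ)

abbrev sb (G : Type v) [Monoid G] (H : Subgroup L) : G × H →* G × L :=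
  (MonoidHom.id G).prodMap H.subtype

lemma Op.aa {Γ : Type v} [Monoid Γ] (N : Op R Γ) (s t : R × Γ) (x : N.N) :
    N.a s (N.a t x) = N.a (s * t) x := by rw [map_mul]; rfl

def Wrep (N : Op R (G × L)) (M : Rp R (G × L)) :
    Representation ℤ L (Hm (N.res (MonoidHom.inl G L)) (M.res (MonoidHom.inl G L))) where
  toFun l := AddMonoidHom.toIntLinearMap (AddMonoidHom.mk' (fun φ =>
    ⟨((mv (M.ρ (1, l))).comp φ.1).comp (N.a (1, (1, l⁻¹))), fun r g x => by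
      have := φ.2 r g (N.a (1, (1, l⁻¹)) x)
      show M.ρ (1, l) *ᵥ φ.1 (N.a (1, (1, l⁻¹)) (N.a (r, (g, 1)) x)) =
        r • M.ρ (g, 1) *ᵥ (M.ρ (1, l) *ᵥ φ.1 (N.a (1, (1, l⁻¹)) x))
      have e : N.a (1, (1, l⁻¹)) (N.a (r, (g, 1)) x) = N.a (r, (g, 1)) (N.a (1, (1, l⁻¹)) x) := by
        rw [N.aa, N.aa]; simp
      rw [e]
      refine (congrArg (M.ρ (1, l) *ᵥ ·) this).trans ?_
      show M.ρ (1, l) *ᵥ (r • M.ρ (g, 1) *ᵥ _) = _
      rw [mulVec_smul, mulVec_mulVec, mulVec_mulVec, ← M.mul, ← M.mul]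
      simp⟩) fun φ ψ => Subtype.ext (AddMonoidHom.ext fun x => mulVec_add _ _ _))
  map_one' := LinearMap.ext fun φ => Subtype.ext (AddMonoidHom.ext fun x => by
    show M.ρ (1, 1) *ᵥ φ.1 (N.a (1, (1, 1⁻¹)) x) = φ.1 x
    rw [inv_one, show ((1, (1, 1)) : R × G × L) = 1 from rfl, map_one]
    exact Hm_fix φ.2 x)
  map_mul' l l' := LinearMap.ext fun φ => Subtype.ext (AddMonoidHom.ext fun x => by
    show M.ρ (1, l * l') *ᵥ φ.1 (N.a (1, (1, (l * l')⁻¹)) x) =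
      M.ρ (1, l) *ᵥ (M.ρ (1, l') *ᵥ φ.1 (N.a (1, (1, l'⁻¹)) (N.a (1, (1, l⁻¹)) x)))
    rw [mulVec_mulVec, ← M.mul, N.aa]
    simp)

lemma Wrep_apply (N : Op R (G × L)) (M : Rp R (G × L)) (l : L) (φ) (x : N.N) :
    (Wrep N M l φ).1 x = M.ρ (1, l) *ᵥ φ.1 (N.a (1, (1, l⁻¹)) x) := rfl

lemma card_fxs (N : Op R (G × L)) (M : Rp R (G × L)) (H : Subgroup L) :
    Nat.card (fxs (Wrep N M) H) = Nat.card (Hm (N.res (sb G H)) (M.res (sb G H))) := by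
  refine Nat.card_congr
    { toFun := fun φ => ⟨φ.1.1, fun r t x => ?_⟩
      invFun := fun φ => ⟨⟨φ.1, fun r g x => φ.2 r (g, 1) x⟩, fun h hh =>
        Subtype.ext (AddMonoidHom.ext fun x => ?_)⟩
      left_inv := fun _ => rfl
      right_inv := fun _ => rfl }
  · show φ.1.1 (N.a (r, (t.1, t.2)) x) = r • M.ρ (t.1, t.2) *ᵥ φ.1.1 x
    have h1 := DFunLike.congr_fun (congrArg Subtype.val (φ.2 t.2 t.2.2)) (N.a (1, (1, t.2)) x)
    rw [Wrep_apply, N.aa] at h1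
    have h2 : φ.1.1 (N.a (r, (t.1, 1)) (N.a (1, (1, t.2)) x)) =
      r • M.ρ (t.1, 1) *ᵥ φ.1.1 (N.a (1, (1, t.2)) x) := φ.1.2 r t.1 _
    rw [N.aa, ← h1, mulVec_mulVec, ← M.mul] at h2
    simp only [Prod.mk_mul_mk, mul_one, one_mul, inv_mul_cancel] at h2
    rw [show ((1, (1, 1)) : R × G × L) = 1 from rfl, map_one] at h2
    exact h2
  · rw [Wrep_apply]
    have h2 : φ.1 (N.a (1, (1, h)) (N.a (1, (1, h⁻¹)) x)) =
      (1 : R) • M.ρ (1, h) *ᵥ φ.1 (N.a (1, (1, h⁻¹)) x) := φ.2 1 (1, ⟨h, hh⟩) _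
    rw [N.aa, one_smul] at h2
    simp only [Prod.mk_mul_mk, mul_one, mul_inv_cancel] at h2
    rw [show ((1, (1, 1)) : R × G × L) = 1 from rfl, map_one] at h2
    exact h2.symm

def WP [Fintype L] (M : Rp R (G × L)) : Prop := ∃ θ : Matrix M.ι M.ι R,
  (∀ g, θ * M.ρ (g, 1) = M.ρ (g, 1) * θ) ∧ ∑ l, M.ρ (1, l) * θ * M.ρ (1, l⁻¹) = M.ρ 1

open Classical in
lemma WP.form [Fintype L] [Finite R] {p j : ℕ} (hp : p.Prime) (hR : (p : R) ^ j = 0)
    [Fintype (Subgroup L)] (b : Subgroup L → ℤ) (hb : ∀ g, ∑ H, (if g ∈ H then b H else 0) = 1)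
    {M : Rp R (G × L)} (h : WP M) (N : Op R (G × L)) :
    ∑ H, (b H * Nat.card H * Real.log (Nat.card (Hm (N.res (sb G H)) (M.res (sb G H)))) : ℝ) =
      Nat.card L * Real.log (Nat.card (Hm N M)) := by
  obtain ⟨θ, h1, h2⟩ := h
  have := A2 hp b hb j (Wrep N M) (AddMonoidHom.toIntLinearMap (AddMonoidHom.mk' (fun φ =>
    ⟨(mv θ).comp φ.1, fun r g x => by
      refine (congrArg (θ *ᵥ ·) (φ.2 r g x)).trans ?_
      show θ *ᵥ (r • M.ρ (g, 1) *ᵥ φ.1 x) = r • M.ρ (g, 1) *ᵥ (θ *ᵥ φ.1 x)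
      rw [mulVec_smul, mulVec_mulVec, mulVec_mulVec, h1]⟩)
    fun φ ψ => Subtype.ext (AddMonoidHom.ext fun x => mulVec_add _ _ _))) (fun φ => by
      refine Subtype.ext (AddMonoidHom.ext fun x => ?_)
      rw [AddSubmonoidClass.coe_finsetSum, AddMonoidHom.finsetSum_apply]
      have e : ∀ l : L, N.a (1, (1, l⁻¹⁻¹)) (N.a (1, (1, l⁻¹)) x) = x := fun l => by
        rw [N.aa]
        simp only [Prod.mk_mul_mk, mul_one, inv_mul_cancel]
        rw [show ((1, (1, 1)) : R × G × L) = 1 from rfl, map_one]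
        rfl
      show ∑ l, M.ρ (1, l) *ᵥ (θ *ᵥ (M.ρ (1, l⁻¹) *ᵥ φ.1 (N.a (1, (1, l⁻¹⁻¹))
        (N.a (1, (1, l⁻¹)) x)))) = φ.1 x
      simp only [e, mulVec_mulVec, ← Matrix.mul_assoc]
      rw [← sum_mulVec, h2]
      exact Hm_fix φ.2 x) (fun φ => by
      refine Subtype.ext (AddMonoidHom.ext fun x => funext fun i => ?_)
      show p ^ j • φ.1 x i = 0
      rw [nsmul_eq_mul, Nat.cast_pow, hR, zero_mul])
  refine (Finset.sum_congr rfl fun H _ => by rw [card_fxs]).trans (this.trans ?_)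
  rw [card_fxs]
  congr 3
  exact Nat.card_congr (Equiv.subtypeEquivRight fun φ =>
    ⟨fun h r t x => h r (t.1, ⟨t.2, trivial⟩) x, fun h r t x => h r (t.1, t.2) x⟩)

lemma S2 [Fintype L] [Finite R] {p j : ℕ} (hp : p.Prime) (hR : (p : R) ^ j = 0)
    {M M' : Rp R (G × L)} (h : WP M) (h' : WP M')
    (hc : ∀ H : Subgroup L, IsCyclic H → (M.res (sb G H)).Iso (M'.res (sb G H))) : M.Iso M' := by
  classical
  let : Fintype (Subgroup L) := Fintype.ofFinite _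
  obtain ⟨b, hb1, hb⟩ := artin L
  refine lovasz _ _ fun N => ?_
  have e := (h.form hp hR b hb N).symm.trans ((Finset.sum_congr rfl fun H _ => by
    by_cases h0 : b H = 0
    · simp [h0]
    · rw [card_Hm_iso _ (hc H (hb1 H h0))]).trans (h'.form hp hR b hb N))
  have e2 := mul_left_cancel₀ (Nat.cast_ne_zero.2 Nat.card_pos.ne') e
  exact_mod_cast Real.log_injOn_pos (Set.mem_Ioi.2 (Nat.cast_pos.2 Nat.card_pos))
    (Set.mem_Ioi.2 (Nat.cast_pos.2 Nat.card_pos)) e2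

lemma equiv_family (A B : Rp R (G × L)) (Y : Type) [MulAction L Y] (gd : Y → Prop)
    (h : ∀ y, gd y → (A.res (sb G (MulAction.stabilizer L y))).Iso
      (B.res (sb G (MulAction.stabilizer L y)))) (hinv : ∀ (l : L) y, gd y → gd (l • y)) :
    ∃ (α : Y → Matrix B.ι A.ι R) (β : Y → Matrix A.ι B.ι R),
      (∀ g l y, α (l • y) * A.ρ (g, l) = B.ρ (g, l) * α y) ∧
      (∀ g l y, β (l • y) * B.ρ (g, l) = A.ρ (g, l) * β y) ∧
      ∀ y, gd y → β y * α y = A.ρ 1 ∧ α y * β y = B.ρ 1 := by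
  have h0 : ∀ y, ∃ (α : Matrix B.ι A.ι R) (β : Matrix A.ι B.ι R),
      (∀ g l, l • y = y → α * A.ρ (g, l) = B.ρ (g, l) * α) ∧
      (∀ g l, l • y = y → β * B.ρ (g, l) = A.ρ (g, l) * β) ∧
      (gd y → β * α = A.ρ 1 ∧ α * β = B.ρ 1) := fun y => by
    by_cases hy : gd y
    · obtain ⟨α, β, h1, h2, h3, h4⟩ := h y hy
      exact ⟨α, β, fun g l hl => h1 (g, ⟨l, hl⟩), fun g l hl => h2 (g, ⟨l, hl⟩), fun _ => ⟨h3, h4⟩⟩
    · exact ⟨0, 0, by simp, by simp, fun h => absurd h hy⟩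
  choose α β h1 h2 h3 using h0
  let r : Y → Y := fun y => (Quotient.mk (MulAction.orbitRel L Y) y).out
  have hr : ∀ (l : L) y, r (l • y) = r y := fun l y =>
    congrArg Quotient.out (Quotient.sound (MulAction.mem_orbit y l))
  have ht : ∀ y, ∃ t : L, t • r y = y := fun y =>
    (MulAction.orbitRel L Y).symm (Quotient.exact (Quotient.out_eq (Quotient.mk _ y)))
  choose t ht using ht
  have key : ∀ {A B : Rp R (G × L)} (α : Y → Matrix B.ι A.ι R),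
      (∀ y g l, l • y = y → α y * A.ρ (g, l) = B.ρ (g, l) * α y) → ∀ g l y,
      B.ρ (1, t (l • y)) * α (r (l • y)) * A.ρ (1, (t (l • y))⁻¹) * A.ρ (g, l) =
        B.ρ (g, l) * (B.ρ (1, t y) * α (r y) * A.ρ (1, (t y)⁻¹)) := by
    intro A B α h1 g l y
    have e := h1 (r y) g ((t (l • y))⁻¹ * l * t y) (by
      rw [mul_smul, mul_smul, ht, inv_smul_eq_iff, ← hr l y, ht])
    have e1 : A.ρ (1, (t (l • y))⁻¹) * A.ρ (g, l) =
        A.ρ (g, (t (l • y))⁻¹ * l * t y) * A.ρ (1, (t y)⁻¹) := by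
      rw [← A.mul, ← A.mul]; simp
    rw [hr, Matrix.mul_assoc, e1, Matrix.mul_assoc, ← Matrix.mul_assoc (α _), e, ← Matrix.mul_assoc,
      ← Matrix.mul_assoc, ← B.mul, ← Matrix.mul_assoc, ← Matrix.mul_assoc, ← B.mul]
    simp [mul_assoc]
  have key2 : ∀ {A B : Rp R (G × L)} (α : Matrix B.ι A.ι R) (β : Matrix A.ι B.ι R) (t : L),
      α * A.ρ (1, 1) = B.ρ (1, 1) * α → β * α = A.ρ 1 →
      A.ρ (1, t) * β * B.ρ (1, t⁻¹) * (B.ρ (1, t) * α * A.ρ (1, t⁻¹)) = A.ρ 1 := by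
    intro A B α β t h1 h2
    calc _ = A.ρ (1, t) * (β * (B.ρ (1, t⁻¹) * B.ρ (1, t) * α)) * A.ρ (1, t⁻¹) := by
          simp only [Matrix.mul_assoc]
      _ = _ := by
          rw [← B.mul, Prod.mk_mul_mk, inv_mul_cancel, mul_one, ← h1, ← Matrix.mul_assoc β, h2,
            ← A.mul, ← A.mul, ← A.mul]
          simp
          rfl
  refine ⟨fun y => B.ρ (1, t y) * α (r y) * A.ρ (1, (t y)⁻¹),
    fun y => A.ρ (1, t y) * β (r y) * B.ρ (1, (t y)⁻¹), key α h1, key β h2, fun y hy => ?_⟩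
  have hg : gd (r y) := by
    have := hinv (t y)⁻¹ y hy
    rwa [inv_smul_eq_iff.2 (ht y).symm] at this
  exact ⟨key2 _ _ _ (h1 _ _ _ (one_smul _ _)) (h3 _ hg).1,
    key2 _ _ _ (h2 _ _ _ (one_smul _ _)) (h3 _ hg).2⟩

end

end Pool.Agent.H.MP_6995cd_al
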