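import Pool.Agent.H.MP_6995cd_al.H
namespace Pool.Agent.H.MP_6995cd_al
open Matrix
open scoped Kronecker
universe u v w u'

section
variable {R : Type u} {G : Type v} [CommRing R] [Monoid G] {L : Type} [Group L]

def pmm (R : Type u) [CommRing R] (X : Type) [DecidableEq X] [MulAction L X] (l : L) :
    Matrix X X R := Matrix.of fun x y => if l⁻¹ • x = y then 1 else 0

lemma pmm_mul {X Y : Type} [Fintype X] [DecidableEq X] [MulAction L X] (l : L) (a : Matrix X Y R)
    (x : X) (y : Y) : (pmm R X l * a) x y = a (l⁻¹ • x) y := by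
  simp [pmm, Matrix.mul_apply]

lemma mul_pmm {X Y : Type} [Fintype X] [DecidableEq X] [MulAction L X] (l : L) (a : Matrix Y X R)
    (y : Y) (x : X) : (a * pmm R X l) y x = a y (l • x) := by
  simp [pmm, Matrix.mul_apply, inv_smul_eq_iff]

lemma pmm_one (X : Type) [DecidableEq X] [MulAction L X] : pmm R X (1 : L) = 1 := by
  ext; simp [pmm, Matrix.one_apply]

abbrev pm (R : Type u) (G : Type v) [CommRing R] [Monoid G] (L : Type) [Group L] (X : Type)
    [Fintype X] [DecidableEq X] [MulAction L X] : Rp R (G × L) where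
  ι := X
  ρ t := pmm R X t.2
  mul s t := by
    ext x y
    rw [pmm_mul]
    simp [pmm, mul_smul]

def IV (L : Type) [Group L] {X Y : Type} [MulAction L X] [MulAction L Y] (a : Matrix X Y R) : Prop :=
  ∀ (l : L) x y, a (l • x) (l • y) = a x y

section
variable {X Y Z : Type} [MulAction L X] [MulAction L Y] [MulAction L Z]

lemma IV.mul [Fintype Y] {a : Matrix X Y R} {b : Matrix Y Z R} (ha : IV L a) (hb : IV L b) :
    IV L (a * b) := fun l x z => by
  simp only [Matrix.mul_apply]
  exact (Fintype.sum_equiv (MulAction.toPerm l) _ _ fun y => by simp [ha l, hb l]).symm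

lemma IV.sub {a b : Matrix X Y R} (ha : IV L a) (hb : IV L b) : IV L (a - b) := fun l x y => by
  simp [ha l, hb l]

lemma IV.one [DecidableEq X] : IV L (1 : Matrix X X R) := fun l x y => by
  simp [Matrix.one_apply]

lemma IV.pow [Fintype X] [DecidableEq X] {a : Matrix X X R} (ha : IV L a) : ∀ k, IV L (a ^ k)
  | 0 => by rw [pow_zero]; exact IV.one
  | k + 1 => by rw [pow_succ]; exact (ha.pow k).mul ha

variable [Fintype X] [DecidableEq X] [Fintype Y] [DecidableEq Y]

lemma IV.comm {a : Matrix X Y R} (ha : IV L a) (l : L) : a * pmm R Y l = pmm R X l * a := by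
  ext x y
  rw [mul_pmm, pmm_mul, ← ha l⁻¹, inv_smul_smul]

lemma IV.idem {a : Matrix X X R} (ha : IV L a) (h : a * a = a) : (pm R G L X).Idem a :=
  ⟨fun t => ha.comm t.2, h⟩

lemma cm_iso {u : Matrix X Y R} {v : Matrix Y X R} (hu : IV L u) (hv : IV L v)
    (h1 : u * v * (u * v) = u * v) (h2 : v * u * (v * u) = v * u) :
    cc (pm R G L X) (u * v) = cc (pm R G L Y) (v * u) := by
  rw [cc_eq ((hu.mul hv).idem h1), cc_eq ((hv.mul hu).idem h2)]
  have c1 : ∀ (l : L) (W : Type) (z : Matrix Y W R), u * (pmm R Y l * z) = pmm R X l * (u * z) :=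
    fun l W z => by rw [← Matrix.mul_assoc, hu.comm, Matrix.mul_assoc]
  have c2 : ∀ (l : L) (W : Type) (z : Matrix X W R), v * (pmm R X l * z) = pmm R Y l * (v * z) :=
    fun l W z => by rw [← Matrix.mul_assoc, hv.comm, Matrix.mul_assoc]
  have d1 : u * (v * (u * v)) = u * v := by simpa only [Matrix.mul_assoc] using h1
  have d2 : v * (u * (v * u)) = v * u := by simpa only [Matrix.mul_assoc] using h2
  refine cl_iso ⟨v * (u * v), u * (v * u), fun g => ?_, fun g => ?_, ?_, ?_⟩
  · simp only [Matrix.mul_assoc, c1, c2]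
  · simp only [Matrix.mul_assoc, c1, c2]
  · simp only [Matrix.mul_assoc, Prod.snd_one, pmm_one, Matrix.one_mul, d1]
  · simp only [Matrix.mul_assoc, Prod.snd_one, pmm_one, Matrix.one_mul, d2]

omit [MulAction L X] in
lemma bd_mul {ι κ μ : Type} [Fintype ι] (α : X → Matrix κ ι R) (M : Matrix ι μ R) (N : Matrix X X R)
    (b : κ) (a : μ) (x y : X) :
    (blockDiagonal α * (M ⊗ₖ N)) (b, x) (a, y) = (α x * M) b a * N x y := by
  simp [Matrix.mul_apply, Fintype.sum_prod_type, blockDiagonal_apply, Finset.sum_mul, mul_assoc]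

omit [MulAction L X] in
lemma mul_bd {ι κ μ : Type} [Fintype ι] (α : X → Matrix ι μ R) (M : Matrix κ ι R) (N : Matrix X X R)
    (b : κ) (a : μ) (x y : X) :
    ((M ⊗ₖ N) * blockDiagonal α) (b, x) (a, y) = (M * α y) b a * N x y := by
  simp [Matrix.mul_apply, Fintype.sum_prod_type, blockDiagonal_apply, Finset.sum_mul,
    mul_right_comm]

lemma ind_iso (A B : Rp R (G × L)) (C : Type) [MulAction L C] (gd : C → Prop)
    (h : ∀ y, gd y → (A.res (sb G (MulAction.stabilizer L y))).Iso
      (B.res (sb G (MulAction.stabilizer L y)))) (hinv : ∀ (l : L) y, gd y → gd (l • y))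
    (col : X → C) (hcol : ∀ (l : L) x, col (l • x) = l • col x) {η : Matrix X X R} (hη : IV L η)
    (h1 : η * η = η) (h2 : ∀ x y, η x y ≠ 0 → col x = col y ∧ gd (col x)) :
    cl A * cc (pm R G L X) η = cl B * cc (pm R G L X) η := by
  obtain ⟨α, β, k1, k2, k3⟩ := equiv_family A B C gd h hinv
  rw [cc_eq (hη.idem h1), ← cl_ten, ← cl_ten]
  have a1 : ∀ {ι κ : Type} [Fintype ι] [DecidableEq ι] [Fintype κ] [DecidableEq κ]
      (α : C → Matrix κ ι R), blockDiagonal (fun x => α (col x)) * ((1 : Matrix ι ι R) ⊗ₖ η) =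
      ((1 : Matrix κ κ R) ⊗ₖ η) * blockDiagonal (fun x => α (col x)) := fun α => by
    ext ⟨b, x⟩ ⟨a, y⟩
    rw [bd_mul, mul_bd, Matrix.mul_one, Matrix.one_mul]
    by_cases h0 : η x y = 0
    · simp [h0]
    · rw [(h2 x y h0).1]
  have a2 : ∀ {A B : Rp R (G × L)} (α : C → Matrix B.ι A.ι R),
      (∀ g l y, α (l • y) * A.ρ (g, l) = B.ρ (g, l) * α y) → ∀ t : G × L,
      blockDiagonal (fun x => α (col x)) * (A.ρ t ⊗ₖ pmm R X t.2) =
        (B.ρ t ⊗ₖ pmm R X t.2) * blockDiagonal (fun x => α (col x)) := fun α k t => by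
    ext ⟨b, x⟩ ⟨a, y⟩
    rw [bd_mul, mul_bd]
    by_cases h0 : t.2⁻¹ • x = y
    · have := k t.1 t.2 (col y)
      rw [← hcol, ← h0, smul_inv_smul, h0] at this
      rw [this]
    · simp [pmm, h0]
  have a3 : ∀ {A B : Rp R (G × L)} (α : C → Matrix B.ι A.ι R) (β : C → Matrix A.ι B.ι R),
      (∀ y, gd y → β y * α y = A.ρ 1) →
      blockDiagonal (fun x => β (col x)) * blockDiagonal (fun x => α (col x)) *
        ((1 : Matrix A.ι A.ι R) ⊗ₖ η) = A.ρ 1 ⊗ₖ η := fun α β k => by
    rw [← blockDiagonal_mul]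
    ext ⟨b, x⟩ ⟨a, y⟩
    rw [bd_mul, Matrix.mul_one, kroneckerMap_apply]
    by_cases h0 : η x y = 0
    · simp [h0]
    · rw [k _ (h2 x y h0).2]
  have b1 : ∀ {A B : Rp R (G × L)} (α : C → Matrix B.ι A.ι R),
      (∀ g l y, α (l • y) * A.ρ (g, l) = B.ρ (g, l) * α y) → ∀ t : G × L,
      blockDiagonal (fun x => α (col x)) * ((1 : Matrix A.ι A.ι R) ⊗ₖ η) *
        (A.ρ t ⊗ₖ (pmm R X t.2 * η)) = (B.ρ t ⊗ₖ (pmm R X t.2 * η)) *
        (blockDiagonal (fun x => α (col x)) * ((1 : Matrix A.ι A.ι R) ⊗ₖ η)) := by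
    intro A B α k t
    have e : ∀ A : Rp R (G × L), A.ρ t ⊗ₖ (pmm R X t.2 * η) =
        (A.ρ t ⊗ₖ pmm R X t.2) * ((1 : Matrix A.ι A.ι R) ⊗ₖ η) := fun A => by
      rw [← mul_kronecker_mul, Matrix.mul_one]
    have e' : ((1 : Matrix A.ι A.ι R) ⊗ₖ η) * (A.ρ t ⊗ₖ (pmm R X t.2 * η)) =
        (A.ρ t ⊗ₖ pmm R X t.2) * (((1 : Matrix A.ι A.ι R) ⊗ₖ η) * ((1 : Matrix A.ι A.ι R) ⊗ₖ η)) := by
      simp only [← mul_kronecker_mul, Matrix.mul_one, Matrix.one_mul]
      rw [← Matrix.mul_assoc, hη.comm, Matrix.mul_assoc]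
    rw [Matrix.mul_assoc, e', ← Matrix.mul_assoc, a2 α k, e B, Matrix.mul_assoc, Matrix.mul_assoc,
      ← Matrix.mul_assoc _ _ ((1 : Matrix A.ι A.ι R) ⊗ₖ η), a1, Matrix.mul_assoc, a1]
  have b2 : ∀ {A B : Rp R (G × L)} (α : C → Matrix B.ι A.ι R) (β : C → Matrix A.ι B.ι R),
      (∀ y, gd y → β y * α y = A.ρ 1) →
      blockDiagonal (fun x => β (col x)) * ((1 : Matrix B.ι B.ι R) ⊗ₖ η) *
        (blockDiagonal (fun x => α (col x)) * ((1 : Matrix A.ι A.ι R) ⊗ₖ η)) =
        A.ρ 1 ⊗ₖ (pmm R X (1 : G × L).2 * η) := by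
    intro A B α β k
    rw [Matrix.mul_assoc, ← Matrix.mul_assoc _ _ ((1 : Matrix A.ι A.ι R) ⊗ₖ η), ← a1,
      Matrix.mul_assoc, ← mul_kronecker_mul, h1, Matrix.mul_one, ← Matrix.mul_assoc, a3 α β k,
      Prod.snd_one, pmm_one, Matrix.one_mul]
  exact cl_iso ⟨_, _, b1 α k1, b1 β k2, b2 α β fun y hy => (k3 y hy).1,
    b2 β α fun y hy => (k3 y hy).2⟩

lemma free_WP [Fintype L] (A : Rp R (G × L)) (hX : ∀ (l : L) (x : X), l • x = x → l = 1)
    {ε : Matrix X X R} (hε : IV L ε) (h1 : ε * ε = ε) :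
    WP (A.ten ((pm R G L X).cut ε (hε.idem h1))) := by
  classical
  let r : X → X := fun y => (Quotient.mk (MulAction.orbitRel L X) y).out
  have hr : ∀ (l : L) y, r (l • y) = r y := fun l y =>
    congrArg Quotient.out (Quotient.sound (MulAction.mem_orbit y l))
  have ht : ∀ y, ∃ t : L, t • r y = y := fun y =>
    (MulAction.orbitRel L X).symm (Quotient.exact (Quotient.out_eq (Quotient.mk _ y)))
  have key : ∑ l : L, pmm R X l * dg R (fun x => r x = x) * pmm R X l⁻¹ = 1 := by
    ext x y
    obtain ⟨t, ht⟩ := ht x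
    simp only [Matrix.sum_apply, mul_pmm, pmm_mul, dg, diagonal_apply, smul_left_cancel_iff, hr,
      Matrix.one_apply]
    rw [Finset.sum_eq_single t]
    · simp [eq_inv_smul_iff, ht]
    · intro l _ hl
      rw [if_neg (c := r x = _), ite_self]
      intro e
      rw [eq_inv_smul_iff] at e
      refine hl (eq_of_inv_mul_eq_one (hX _ (r x) ?_)).symm
      rw [mul_smul, e, inv_smul_eq_iff, ht]
    · simp
  refine ⟨(1 : Matrix A.ι A.ι R) ⊗ₖ (ε * dg R (fun x => r x = x) * ε), fun g => ?_, ?_⟩
  · simp only [← mul_kronecker_mul, pmm_one, Matrix.one_mul, Matrix.mul_one, Matrix.mul_assoc, h1]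
    rw [← Matrix.mul_assoc ε ε, h1]
  · simp only [← mul_kronecker_mul, Matrix.mul_one, ← A.mul, Prod.mk_mul_mk, mul_inv_cancel,
      mul_one, Prod.snd_one, pmm_one, Matrix.one_mul]
    have e : ∀ l : L, pmm R X l * ε * (ε * dg R (fun x => r x = x) * ε) * (pmm R X l⁻¹ * ε) =
        ε * (pmm R X l * dg R (fun x => r x = x) * pmm R X l⁻¹) * ε := fun l => by
      calc _ = pmm R X l * (ε * ε) * dg R (fun x => r x = x) * (ε * pmm R X l⁻¹) * ε := by
            simp only [Matrix.mul_assoc]
        _ = (ε * pmm R X l) * dg R (fun x => r x = x) * pmm R X l⁻¹ * (ε * ε) := by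
            rw [h1, hε.comm l⁻¹, hε.comm l]; simp only [Matrix.mul_assoc, h1]
        _ = _ := by rw [h1]; simp only [Matrix.mul_assoc]
    simp only [e]
    have e2 : ∀ (a : Matrix A.ι A.ι R) (f : L → Matrix X X R),
        ∑ l, a ⊗ₖ f l = a ⊗ₖ ∑ l, f l := fun a f => by
      ext x y
      simp [Matrix.sum_apply, Finset.mul_sum]
    rw [e2, ← Matrix.sum_mul, ← Matrix.mul_sum, key, Matrix.mul_one, h1]
    rfl

end

def Sb (L : Type) [Group L] := Subgroup L

instance : MulAction L (Sb L) where
  smul l H := Subgroup.map (MulAut.conj l).toMonoidHom H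
  one_smul H := by
    show Subgroup.map _ H = H
    ext x
    simp
  mul_smul l l' H := by
    show Subgroup.map _ H = Subgroup.map _ (Subgroup.map _ H)
    rw [Subgroup.map_map]
    congr 1
    ext x
    simp [mul_assoc]

def Sm (L : Type) [Group L] (p s : ℕ) (Y : Type) [MulAction L Y] : Prop :=
  ∀ y : Y, IsPGroup p (MulAction.stabilizer L y) ∧ Nat.card (MulAction.stabilizer L y) ≤ s

def Fac (L : Type) [Group L] (p s : ℕ) {X : Type} [MulAction L X] (a : Matrix X X R) : Prop :=
  ∃ (Y : Type) (_ : Fintype Y) (_ : DecidableEq Y) (_ : MulAction L Y), Sm L p s Y ∧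
    ∃ (u : Matrix X Y R) (v : Matrix Y X R), IV L u ∧ IV L v ∧ a = u * v

section
variable {X : Type} [MulAction L X] [Fintype X] [DecidableEq X] {p s : ℕ}

omit [DecidableEq X] in
lemma Fac.mul {a b c : Matrix X X R} (h : Fac L p s a) (hb : IV L b) (hc : IV L c) :
    Fac L p s (b * a * c) := by
  obtain ⟨Y, i1, i2, i3, h1, u, v, hu, hv, rfl⟩ := h
  exact ⟨Y, i1, i2, i3, h1, b * u, v * c, hb.mul hu, hv.mul hc, by simp only [Matrix.mul_assoc]⟩

omit [DecidableEq X] [Fintype X] in
lemma Fac.add {a b : Matrix X X R} (h : Fac L p s a) (h' : Fac L p s b) : Fac L p s (a + b) := by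
  obtain ⟨Y, _, _, _, h1, u, v, hu, hv, rfl⟩ := h
  obtain ⟨Y', _, _, _, h1', u', v', hu', hv', rfl⟩ := h'
  refine ⟨Y ⊕ Y', inferInstance, inferInstance, inferInstance, ?_, fromCols u u', fromRows v v',
    ?_, ?_, (fromCols_mul_fromRows ..).symm⟩
  · rintro (y | y)
    · have : MulAction.stabilizer L (Sum.inl y : Y ⊕ Y') = MulAction.stabilizer L y := by
        ext l; simp
      rw [this]; exact h1 y
    · have : MulAction.stabilizer L (Sum.inr y : Y ⊕ Y') = MulAction.stabilizer L y := by
        ext l; simp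
      rw [this]; exact h1' y
  · rintro l x (y | y)
    · exact hu l x y
    · exact hu' l x y
  · rintro l (y | y) x
    · exact hv l y x
    · exact hv' l y x

lemma Fac.pow {a b : Matrix X X R} (h : Fac L p s (a - b)) (ha : IV L a) (hb : IV L b) :
    ∀ k, Fac L p s (a ^ (k + 1) - b ^ (k + 1))
  | 0 => by simpa using h
  | k + 1 => by
    have := (h.mul (ha.pow (k + 1)) IV.one).add ((h.pow ha hb k).mul IV.one hb)
    convert this using 1
    simp only [Matrix.mul_sub, Matrix.sub_mul, Matrix.mul_one, Matrix.one_mul, ← pow_succ]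
    abel

end

theorem lemJ [Fintype L] [Finite R] {p j : ℕ} (hp : p.Prime) (hR : (p : R) ^ j = 0) (f : K R (G × L))
    (h1 : ∀ H : Subgroup L, IsCyclic H → res (sb G H) f = 0)
    (h2 : ∀ Q H : Subgroup L, IsPGroup p Q → Q ≠ ⊥ → (∀ l ∈ H, ∀ q ∈ Q, l * q * l⁻¹ ∈ Q) →
      res (sb G H) f = 0) : f = 0 := by
  classical
  obtain ⟨A, B, rfl⟩ := K_ex f
  have hi : ∀ H : Subgroup L, res (sb G H) (cl A - cl B) = 0 →
      (A.res (sb G H)).Iso (B.res (sb G H)) := fun H h => by
    rw [map_sub, sub_eq_zero, res_cl, res_cl] at h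
    exact cancel h
  have main : ∀ s, ∀ (X : Type) [Fintype X] [DecidableEq X] [MulAction L X], Sm L p (s + 1) X →
      ∀ ε : Matrix X X R, IV L ε → ε * ε = ε → (cl A - cl B) * cc (pm R G L X) ε = 0 := by
    intro s
    induction s with
    | zero =>
      intro X _ _ _ hX ε hε he
      have hf : ∀ (l : L) (x : X), l • x = x → l = 1 := fun l x hl => by
        have := Subgroup.eq_bot_of_card_le _ (hX x).2
        exact Subgroup.mem_bot.1 (this ▸ hl)
      rw [sub_mul, sub_eq_zero, cc_eq (hε.idem he), ← cl_ten, ← cl_ten]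
      exact cl_iso (S2 hp hR (free_WP A hf hε he) (free_WP B hf hε he) fun H hH =>
        (hi H (h1 H hH)).ten (Rp.Iso.refl (((pm R G L X).cut ε (hε.idem he)).res (sb G H))))
    | succ s ih =>
      intro X _ _ _ hX ε hε he
      have fac : ∀ a : Matrix X X R, IV L a → a * a = a → Fac L p (s + 1) a →
          (cl A - cl B) * cc (pm R G L X) a = 0 := by
        rintro a ha haa ⟨Y, _, _, _, hY, u, v, hu, hv, e⟩
        have e1 : a * u * (v * a) = a := by rw [Matrix.mul_assoc, ← Matrix.mul_assoc u, ← e, haa, haa]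
        have e2 : v * a * (a * u) * (v * a * (a * u)) = v * a * (a * u) := by
          rw [Matrix.mul_assoc, ← Matrix.mul_assoc (a * u), e1, ← Matrix.mul_assoc a a, haa]
        rw [← e1, cm_iso (ha.mul hu) (hv.mul ha) (by rw [e1, haa]) e2]
        exact ih Y hY _ ((hv.mul ha).mul (ha.mul hu)) e2
      let top : X → X → Prop := fun x y => MulAction.stabilizer L x = MulAction.stabilizer L y ∧
        Nat.card (MulAction.stabilizer L x) = s + 2
      have htop : ∀ (l : L) x y, top x y → top (l • x) (l • y) := fun l x y h => by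
        simp only [top, MulAction.stabilizer_smul_eq_stabilizer_map_conj]
        exact ⟨by rw [h.1], by rw [Subgroup.card_map_of_injective (MulAut.conj l).injective, h.2]⟩
      have htop' : ∀ (l : L) x y, top (l • x) (l • y) ↔ top x y := fun l x y =>
        ⟨fun h => by simpa using htop l⁻¹ _ _ h, htop l x y⟩
      let e0 : Matrix X X R := Matrix.of fun x y => if top x y then ε x y else 0
      have he0 : IV L e0 := fun l x y => by simp only [e0, of_apply, htop', hε l]
      have hf0 : Fac L p (s + 1) (ε - e0) := by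
        let Y : SubMulAction L (X × X) := ⟨{t | ¬ top t.1 t.2}, fun l t ht h => ht ((htop' l _ _).1 h)⟩
        have iY : Fintype Y := Fintype.ofFinite _
        refine ⟨Y, iY, inferInstance, inferInstance, fun y => ?_,
          Matrix.of fun x y => if x = y.1.1 then ε y.1.1 y.1.2 else 0,
          Matrix.of fun y x => if y.1.2 = x then 1 else 0, fun l x y => ?_, fun l y x => ?_, ?_⟩
        · have e : MulAction.stabilizer L y =
              MulAction.stabilizer L y.1.1 ⊓ MulAction.stabilizer L y.1.2 := by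
            ext l; simp [Subtype.ext_iff, Prod.ext_iff]
          rw [e]
          refine ⟨(hX _).1.to_inf_left, ?_⟩
          by_contra hc
          have c1 := Subgroup.eq_of_le_of_card_ge (inf_le_left : MulAction.stabilizer L y.1.1 ⊓
            MulAction.stabilizer L y.1.2 ≤ _) (by have := (hX y.1.1).2; omega)
          have c2 := Subgroup.eq_of_le_of_card_ge (inf_le_right : MulAction.stabilizer L y.1.1 ⊓
            MulAction.stabilizer L y.1.2 ≤ _) (by have := (hX y.1.2).2; omega)
          refine y.2 ⟨c1.symm.trans c2, ?_⟩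
          have := (hX y.1.1).2
          rw [c1] at hc
          omega
        · simp [hε l]
        · simp
        · ext x y
          rw [Matrix.mul_apply]
          by_cases ht : top x y
          · rw [Finset.sum_eq_zero]
            · simp [e0, ht]
            · rintro ⟨⟨a, b⟩, hab⟩ _
              simp only [of_apply]
              split_ifs with c1 c2
              · subst c1 c2
                exact absurd ht hab
              all_goals simp
          · rw [Finset.sum_eq_single ⟨(x, y), ht⟩]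
            · simp [e0, ht]
            · rintro ⟨⟨a, b⟩, hab⟩ _ hne
              simp only [of_apply]
              split_ifs with c1 c2
              · subst c1 c2
                exact absurd rfl hne
              all_goals simp
            · simp
      obtain ⟨k, hk, hη⟩ := pow_idem e0
      obtain ⟨k, rfl⟩ := Nat.exists_eq_succ_of_ne_zero hk.ne'
      have hsup : ∀ k x y, (e0 ^ (k + 1)) x y ≠ 0 → top x y := by
        intro k
        induction k with
        | zero => intro x y h; by_contra hc; simp [e0, hc] at h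
        | succ k ih2 =>
          intro x y h
          rw [pow_succ, Matrix.mul_apply] at h
          obtain ⟨z, _, hz⟩ := Finset.exists_ne_zero_of_sum_ne_zero h
          have t1 := ih2 x z (left_ne_zero_of_mul hz)
          have t2 : top z y := by
            by_contra hc
            simp [e0, hc] at hz
          exact ⟨t1.1.trans t2.1, t1.2⟩
      have hεp : ∀ k, ε ^ (k + 1) = ε := fun k => IsIdempotentElem.pow_succ_eq k he
      have hfη : Fac L p (s + 1) (ε - e0 ^ (k + 1)) := by
        have := hf0.pow hε he0 k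
        rwa [hεp] at this
      have hsη := hsup k
      have hiη := he0.pow (k + 1)
      generalize e0 ^ (k + 1) = η at hη hfη hsη hiη
      have gη : (cl A - cl B) * cc (pm R G L X) η = 0 := by
        rw [sub_mul, sub_eq_zero]
        refine ind_iso A B (Sb L) (fun Q => IsPGroup p (show Subgroup L from Q) ∧
          (show Subgroup L from Q) ≠ ⊥) (fun Q hQ => hi _ (h2 Q _ hQ.1 hQ.2 fun l hl q hq => ?_))
          (fun l Q hQ => ⟨hQ.1.map _, fun e => hQ.2 ?_⟩) (fun x => MulAction.stabilizer L x)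
          (fun l x => MulAction.stabilizer_smul_eq_stabilizer_map_conj l x) hiη hη
          fun x y h => ⟨(hsη x y h).1, (hX x).1, fun e => ?_⟩
        · have e : Subgroup.map (MulAut.conj l).toMonoidHom Q = Q := hl
          rw [← e]
          exact ⟨q, hq, rfl⟩
        · exact (Subgroup.map_eq_bot_iff_of_injective _ (MulAut.conj l).injective).1 e
        · have := (hsη x y h).2
          rw [show MulAction.stabilizer L x = ⊥ from e] at this
          simp at this
      have step : ∀ ε η : Matrix X X R, IV L ε → IV L η → ε * ε = ε → η * η = η →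
          Fac L p (s + 1) (ε - η) → ∀ m, (ε * η * (η * ε)) ^ (m + 1) * (ε * η * (η * ε)) ^ (m + 1) =
          (ε * η * (η * ε)) ^ (m + 1) → (cl A - cl B) * cc (pm R G L X) ε =
          (cl A - cl B) * cc (pm R G L X) ((ε * η * (η * ε)) ^ (m + 1)) := by
        intro ε η hε hη he hη' hf m hm
        have hx := (hε.mul hη).mul (hη.mul hε)
        have f1 : Fac L p (s + 1) (ε - ε * η * (η * ε)) := by
          have := hf.mul hε hε
          rwa [Matrix.mul_sub, Matrix.sub_mul, he, he, ← hη', ← Matrix.mul_assoc,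
            Matrix.mul_assoc _ η ε] at this
        have f2 := f1.pow hε hx m
        rw [IsIdempotentElem.pow_succ_eq m he] at f2
        have g1 : ε * (ε * η * (η * ε)) ^ (m + 1) = (ε * η * (η * ε)) ^ (m + 1) := by
          rw [pow_succ']; simp only [← Matrix.mul_assoc, he]
        have g2 : (ε * η * (η * ε)) ^ (m + 1) * ε = (ε * η * (η * ε)) ^ (m + 1) := by
          rw [pow_succ]; simp only [Matrix.mul_assoc, he]
        have hγ := hx.pow (m + 1)
        generalize (ε * η * (η * ε)) ^ (m + 1) = γ at hm f2 g1 g2 hγ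
        have i1 : (ε - γ) * (ε - γ) = ε - γ := by
          simp [Matrix.mul_sub, Matrix.sub_mul, he, g1, g2, hm]
        have := cc_add (hγ.idem (G := G) hm) ((hε.sub hγ).idem i1) (by simp [Matrix.mul_sub, g2, hm])
          (by simp [Matrix.sub_mul, g1, hm])
        rw [add_sub_cancel] at this
        rw [this, mul_add, fac _ (hε.sub hγ) i1 f2, add_zero]
      obtain ⟨m, hm, hγ⟩ := pow_idem (ε * η * (η * ε), η * ε * (ε * η))
      obtain ⟨m, rfl⟩ := Nat.exists_eq_succ_of_ne_zero hm.ne'
      have γ1 := congrArg Prod.fst hγ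
      have γ2 := congrArg Prod.snd hγ
      simp only [Prod.fst_mul, Prod.snd_mul, Prod.pow_fst, Prod.pow_snd] at γ1 γ2
      have hf' : Fac L p (s + 1) (η - ε) := by
        have := hfη.mul (b := -1) (fun l x y => by simp [Matrix.one_apply]) IV.one
        simpa using this
      rw [step ε η hε hiη he hη hfη m γ1, ← gη, step η ε hiη hε hη he hf' m γ2]
      have ha := hε.mul hiη
      have hb := hiη.mul hε
      generalize ε * η = a at γ1 γ2 ha
      generalize η * ε = b at γ1 γ2 hb
      have e1 : (a * b) ^ (m + 1) = a * ((b * a) ^ m * b) := by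
        rw [← mul_assoc, ← mul_pow_mul, pow_succ, mul_assoc]
      have e2 : (b * a) ^ (m + 1) = (b * a) ^ m * b * a := by rw [pow_succ, mul_assoc]
      rw [Nat.succ_eq_add_one, e1] at γ1
      rw [Nat.succ_eq_add_one, e2] at γ2
      rw [e1, e2, cm_iso ha (((hb.mul ha).pow m).mul hb) γ1 γ2]
  have := Fact.mk hp
  obtain ⟨P⟩ := (Sylow.nonempty : Nonempty (Sylow p L))
  have hu : IsUnit (Fintype.card (L ⧸ (P : Subgroup L)) : R) := by
    have h3 : Nat.Coprime (P : Subgroup L).index (p ^ j) :=
      ((Nat.Prime.coprime_iff_not_dvd hp).2 P.not_dvd_index).symm.pow_right j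
    obtain ⟨a, b, hab⟩ := (Nat.isCoprime_iff_coprime.2 h3).map (Int.castRingHom R)
    simp only [eq_intCast, Int.cast_natCast, Nat.cast_pow, Int.cast_pow, hR, mul_zero,
      add_zero] at hab
    rw [← Nat.card_eq_fintype_card]
    exact IsUnit.of_mul_eq_one_right _ hab
  obtain ⟨ν, hν⟩ := hu.exists_left_inv
  let u : Matrix (L ⧸ (P : Subgroup L)) Unit R := Matrix.of fun _ _ => ν
  let v : Matrix Unit (L ⧸ (P : Subgroup L)) R := Matrix.of fun _ _ => 1
  have hvu : v * u = 1 := by
    ext; simp [u, v, Matrix.mul_apply, mul_comm, hν]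
  have e1 : u * v * (u * v) = u * v := by
    rw [Matrix.mul_assoc, ← Matrix.mul_assoc v, hvu, Matrix.one_mul]
  have hu' : IV L u := fun _ _ _ => rfl
  have hv' : IV L v := fun _ _ _ => rfl
  have := main (Nat.card L) (L ⧸ (P : Subgroup L)) (fun y => by
    refine ⟨?_, (Subgroup.card_le_card_group _).trans (Nat.le_succ _)⟩
    obtain ⟨l, rfl⟩ := QuotientGroup.mk_surjective y
    have : (l : L ⧸ (P : Subgroup L)) = l • ((1 : L) : L ⧸ (P : Subgroup L)) := by simp
    rw [this, MulAction.stabilizer_smul_eq_stabilizer_map_conj, MulAction.stabilizer_quotient]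
    exact P.2.map _) (u * v) (hu'.mul hv') e1
  have e2 : cl (pm R G L Unit) = cl Rp.one :=
    cl_iso (Rp.iso_of_equiv (Equiv.refl _) fun g a b => by simp [pmm])
  rw [cm_iso hu' hv' e1 (by rw [hvu, Matrix.one_mul]), hvu, cc_one, e2, cl_one, mul_one] at this
  exact this

end

end Pool.Agent.H.MP_6995cd_al
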