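import Pool.Agent.H.MP_6995cd_al.I
namespace Pool.Agent.H.MP_6995cd_al
open Matrix
open scoped Kronecker
universe u v w u'

section
variable {R : Type u} {G : Type v} [CommRing R] [Monoid G]

lemma unit_of_not_dvd {p j : ℕ} (hp : p.Prime) (hR : (p : R) ^ j = 0) {m : ℕ} (h : ¬ p ∣ m) :
    IsUnit (m : R) := by
  have h3 : Nat.Coprime m (p ^ j) := ((Nat.Prime.coprime_iff_not_dvd hp).2 h).symm.pow_right j
  obtain ⟨a, b, hab⟩ := (Nat.isCoprime_iff_coprime.2 h3).map (Int.castRingHom R)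
  simp only [eq_intCast, Int.cast_natCast, Nat.cast_pow, Int.cast_pow, hR, mul_zero,
    add_zero] at hab
  exact IsUnit.of_mul_eq_one_right _ hab

def subP {Z : Type} (H : Subgroup (Equiv.Perm Z)) (D : Z → Prop)
    (h : ∀ l ∈ H, ∀ z, D (l z) ↔ D z) : H →* Equiv.Perm {z // D z} where
  toFun l := l.1.subtypePerm (h l l.2)
  map_one' := by ext; rfl
  map_mul' _ _ := by ext; rfl

theorem vanish [Finite R] {p j : ℕ} (hp : p.Prime) (hR : (p : R) ^ j = 0) (e u : K R G)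
    (he : e * e = e) (hu : u * u = u) (heu : e * u = 0) : ∀ (n : ℕ) (Z : Type) [Fintype Z]
    [DecidableEq Z], Fintype.card Z = n → ¬ p ∣ n → res (MonoidHom.fst _ _) e * PW Z u = 0 := by
  intro n
  induction n using Nat.strong_induction_on with
  | _ n ih =>
    intro Z _ _ hZ hn
    classical
    have intr : ∀ (H : Subgroup (Equiv.Perm Z)) (D : Z → Prop), (∀ l ∈ H, ∀ z, D (l z) ↔ D z) →
        (∃ z, D z) → (∃ z, ¬ D z) → res (sb G H) (res (MonoidHom.fst _ _) e * PW Z u) = 0 := by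
      rintro H D hD ⟨z1, h1⟩ ⟨z2, h2⟩
      have hD' : ∀ l ∈ H, ∀ z, ¬ D (l z) ↔ ¬ D z := fun l hl z => not_congr (hD l hl z)
      have c1 := Fintype.card_subtype_compl D
      have c2 := Fintype.card_subtype_lt h2
      have c3 : 0 < Fintype.card {z // D z} := Fintype.card_pos_iff.2 ⟨⟨z1, h1⟩⟩
      rw [map_mul, res_res, PW_split Z H.subtype D (subP H D hD) (subP H _ hD') (fun _ _ => rfl)
        (fun _ _ => rfl)]
      by_cases hd : p ∣ Fintype.card {z // D z}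
      · have := congrArg (res ((MonoidHom.id G).prodMap (subP H _ hD')))
          (ih _ (by omega) {z // ¬ D z} rfl fun h => hn (by
            have := Nat.dvd_add hd h
            rwa [c1, Nat.add_sub_cancel' c2.le, hZ] at this))
        rw [map_mul, res_res, map_zero] at this
        rw [mul_left_comm]
        exact mul_eq_zero_of_right _ this
      · have := congrArg (res ((MonoidHom.id G).prodMap (subP H _ hD)))
          (ih _ (by omega) {z // D z} rfl hd)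
        rw [map_mul, res_res, map_zero] at this
        rw [← mul_assoc]
        exact mul_eq_zero_of_left this _
    have := Fact.mk hp
    have h2 : ∀ Q H : Subgroup (Equiv.Perm Z), IsPGroup p Q → Q ≠ ⊥ →
        (∀ l ∈ H, ∀ q ∈ Q, l * q * l⁻¹ ∈ Q) →
        res (sb G H) (res (MonoidHom.fst _ _) e * PW Z u) = 0 := by
      intro Q H hQ h0 hH
      refine intr H (fun z => ∀ q ∈ Q, q z = z) (fun l hl z => ⟨fun h q hq => ?_, fun h q hq => ?_⟩)
        ?_ ?_
      · simpa using h _ (hH l hl q hq)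
      · have := h _ (hH l⁻¹ (H.inv_mem hl) q hq)
        simpa [Equiv.Perm.inv_eq_iff_eq, Equiv.symm_apply_eq] using this
      · obtain ⟨z, hz⟩ := hQ.nonempty_fixed_point_of_prime_not_dvd_card Z
          (by rwa [Nat.card_eq_fintype_card, hZ])
        exact ⟨z, fun q hq => hz ⟨q, hq⟩⟩
      · by_contra hc
        push Not at hc
        exact h0 ((Subgroup.eq_bot_iff_forall _).2 fun q hq => Equiv.ext fun z => hc z q hq)
    rcases Nat.lt_or_ge 1 n with h1 | h1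
    · refine lemJ hp hR _ (fun H hH => ?_) h2
      by_cases hd : p ∣ Nat.card H
      · obtain ⟨q, hq⟩ := exists_prime_orderOf_dvd_card' p hd
        refine h2 (Subgroup.zpowers q.1) H (IsPGroup.of_card (n := 1) ?_) ?_ fun l hl x hx => ?_
        · rw [Nat.card_zpowers, Subgroup.orderOf_coe, hq, pow_one]
        · rw [Ne, Subgroup.zpowers_eq_bot, ← orderOf_eq_one_iff, Subgroup.orderOf_coe, hq]
          exact hp.one_lt.ne'
        · have hx' : x ∈ H := (Subgroup.zpowers_le.2 q.2) hx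
          have := congrArg Subtype.val (hH.commGroup.mul_comm ⟨l, hl⟩ ⟨x, hx'⟩)
          have e : l * x = x * l := this
          rwa [e, mul_inv_cancel_right]
      · refine rigid hH (unit_of_not_dvd hp hR hd) _ ?_ ?_
        · rw [← map_mul, mul_mul_mul_comm, ← map_mul, ← PW_mul, he, hu]
        · obtain ⟨z1, z2, hz⟩ := Fintype.exists_pair_of_one_lt_card (hZ ▸ h1)
          have := congrArg (res (MonoidHom.inl G (⊥ : Subgroup (Equiv.Perm Z))))
            (intr ⊥ (· = z1) (fun l hl z => by rw [Subgroup.mem_bot.1 hl]; rfl) ⟨z1, rfl⟩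
              ⟨z2, hz.symm⟩)
          rw [map_zero, res_res] at this
          rw [res_res, ← this]
          rfl
    · have : n = 1 := by
        rcases n with _ | n
        · simp at hn
        · omega
      obtain ⟨i⟩ := Fintype.card_eq_one_iff_nonempty_unique.1 (hZ.trans this)
      rw [PW_unique, ← map_mul, heu, map_zero]

section lam
variable {Z : Type} [Fintype Z] [DecidableEq Z]

def DM {ι κ : Type} (α : Matrix κ ι R) (a : Z → κ) (b : Z → ι) : R :=
  det (Matrix.of fun i j => α (a i) (b j))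

lemma DM_eq {ι κ : Type} (α : Matrix κ ι R) (a : Z → κ) (b : Z → ι) :
    DM α a b = ∑ σ : Equiv.Perm Z, ((Equiv.Perm.sign σ : ℤ) : R) * ∏ z, α (a (σ z)) (b z) := by
  rw [DM, det_apply']; rfl

lemma DM_eq' {ι κ : Type} (α : Matrix κ ι R) (a : Z → κ) (b : Z → ι) :
    DM α a b = ∑ σ : Equiv.Perm Z, ((Equiv.Perm.sign σ : ℤ) : R) * ∏ z, α (a z) (b (σ z)) := by
  rw [DM, ← det_transpose, det_apply']; rfl

lemma tp_DM {ι κ μ : Type} [Fintype ι] (α : Matrix κ ι R) (β : Matrix ι μ R)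
    (a : Z → κ) (b : Z → μ) : ∑ c, tp 1 α a c * DM β c b = DM (α * β) a b := by
  simp only [DM_eq', Finset.mul_sum]
  rw [Finset.sum_comm]
  refine Finset.sum_congr rfl fun σ _ => ?_
  have := congrFun (congrFun (tp_mul (1 : Equiv.Perm Z) 1 α β) a) (b ∘ σ)
  simp only [Matrix.mul_apply (M := tp 1 α), tp_apply, mul_one, Equiv.Perm.one_apply,
    Function.comp] at this
  simp only [tp_apply, Equiv.Perm.one_apply, ← this, Finset.mul_sum, mul_left_comm]

structure ES (Z ι : Type) [Fintype Z] where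
  J : Type
  [fin : Fintype J]
  [dec : DecidableEq J]
  s : J → Z ↪ ι
  uniq : ∀ j k, Finset.univ.map (s j) = Finset.univ.map (s k) → j = k
  ex : ∀ T : Finset ι, T.card = Fintype.card Z → ∃ j, Finset.univ.map (s j) = T

attribute [instance] ES.fin ES.dec

lemma ES.one {ι : Type} [DecidableEq ι] (E : ES Z ι) (j k : E.J) :
    DM (1 : Matrix ι ι R) (E.s j) (E.s k) = if j = k then 1 else 0 := by
  split_ifs with h
  · subst h
    rw [DM, ← det_one (n := Z)]
    congr 1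
    ext a b
    simp [Matrix.one_apply]
  · have : ¬ Finset.univ.map (E.s j) ⊆ Finset.univ.map (E.s k) := fun h' =>
      h (E.uniq _ _ (Finset.eq_of_subset_of_card_le h' (by simp)))
    obtain ⟨x, h1, h2⟩ := Finset.not_subset.1 this
    obtain ⟨z, -, rfl⟩ := Finset.mem_map.1 h1
    refine det_eq_zero_of_row_eq_zero z fun y => ?_
    rw [of_apply, Matrix.one_apply, if_neg]
    intro e
    exact h2 (Finset.mem_map.2 ⟨y, Finset.mem_univ _, e.symm⟩)

lemma ES.key {ι μ : Type} [DecidableEq ι] (E : ES Z ι) (α : Matrix ι μ R) (a : Z → ι) (b : Z → μ) :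
    ∑ j, DM (1 : Matrix ι ι R) a (E.s j) * DM α (E.s j) b = DM α a b := by
  by_cases ha : Function.Injective a
  · obtain ⟨j, hj⟩ := E.ex (Finset.univ.map ⟨a, ha⟩) (by simp)
    have : ∀ z, ∃ w, E.s j w = a z := fun z => by
      have : a z ∈ Finset.univ.map (E.s j) := by rw [hj]; simp
      simpa using this
    choose f hf using this
    have hi : Function.Injective f := fun x y e => ha (by rw [← hf, ← hf, e])
    let σ := Equiv.ofBijective f (Finite.injective_iff_bijective.1 hi)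
    have e : ∀ {μ : Type} (β : Matrix ι μ R) (c : Z → μ),
        DM β a c = ((Equiv.Perm.sign σ : ℤ) : R) * DM β (E.s j) c := fun β c => by
      rw [DM, DM, ← det_permute]
      congr 1
      ext x y
      simp [σ, hf]
    simp only [e, ES.one, mul_ite, ite_mul, mul_one, mul_zero, zero_mul, Finset.sum_ite_eq,
      Finset.mem_univ, if_true]
  · obtain ⟨x, y, h1, h2⟩ := Function.not_injective_iff.1 ha
    have e : ∀ {μ : Type} (β : Matrix ι μ R) (c : Z → μ), DM β a c = 0 := fun β c =>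
      det_zero_of_row_eq h2 (by ext; simp [h1])
    simp [e]

lemma ES.cb {ι κ μ : Type} [Fintype ι] [DecidableEq ι] (E : ES Z ι) (α : Matrix κ ι R)
    (β : Matrix ι μ R) (a : Z → κ) (b : Z → μ) :
    ∑ j, DM α a (E.s j) * DM β (E.s j) b = DM (α * β) a b := by
  rw [← tp_DM]
  conv_rhs => enter [2, c]; rw [← E.key β c b, Finset.mul_sum]
  rw [Finset.sum_comm]
  refine Finset.sum_congr rfl fun j _ => ?_
  simp only [← mul_assoc, ← Finset.sum_mul, tp_DM, Matrix.mul_one]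

def LM {ι κ : Type} (E' : ES Z κ) (E : ES Z ι) (α : Matrix κ ι R) : Matrix E'.J E.J R :=
  Matrix.of fun j k => DM α (E'.s j) (E.s k)

lemma LM_mul {ι κ μ : Type} [Fintype ι] [DecidableEq ι] (E' : ES Z κ) (E : ES Z ι) (E'' : ES Z μ)
    (α : Matrix κ ι R) (β : Matrix ι μ R) : LM E' E α * LM E E'' β = LM E' E'' (α * β) := by
  ext j k
  exact E.cb α β _ _

abbrev Rp.lam (A : Rp R G) (E : ES Z A.ι) : Rp R G where
  ι := E.J
  ρ g := LM E E (A.ρ g)
  mul g h := by rw [LM_mul, A.mul]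

lemma Rp.Iso.lam {A B : Rp R G} (h : A.Iso B) (E : ES Z A.ι) (E' : ES Z B.ι) :
    (A.lam E).Iso (B.lam E') := by
  obtain ⟨α, β, h1, h2, h3, h4⟩ := h
  refine ⟨LM E' E α, LM E E' β, fun g => ?_, fun g => ?_, ?_, ?_⟩ <;> simp only [LM_mul, *]

lemma card_HA_lam (N : Op R G) (Y M : Rp R G) (E : ES Z M.ι) :
    Nat.card (HA (MonoidHom.inl G (Equiv.Perm Z)) (fun σ => ((Equiv.Perm.sign σ : ℤ) : R))
      (fun σ => (1, σ)) N ((Y.res (MonoidHom.fst _ _)).ten (M.pw Z))) =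
    Nat.card (Hm N (Y.ten (M.lam E))) := by
  let I : Matrix (Z → M.ι) E.J R := Matrix.of fun a j => DM (1 : Matrix M.ι M.ι R) a (E.s j)
  let P : Matrix E.J (Z → M.ι) R := Matrix.of fun j a => if a = E.s j then 1 else 0
  let D : Matrix (Z → M.ι) (Z → M.ι) R := Matrix.of (DM (M.ρ 1))
  have f0 : opr (fun σ => ((Equiv.Perm.sign σ : ℤ) : R)) (fun σ => (1, σ))
      ((Y.res (MonoidHom.fst G (Equiv.Perm Z))).ten (M.pw Z)) = Y.ρ 1 ⊗ₖ D := by
    ext a b
    simp [opr, Matrix.sum_apply, D, DM_eq, tp_apply, Finset.mul_sum, mul_left_comm]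
  have f1 : ∀ g, tp (1 : Equiv.Perm Z) (M.ρ g) * I = I * LM E E (M.ρ g) := fun g => by
    ext a j
    simp only [Matrix.mul_apply, I, LM, of_apply, tp_DM, E.key, Matrix.mul_one]
  have f2 : P * I = 1 := by
    ext j k
    simp [Matrix.mul_apply, P, I, E.one, Matrix.one_apply]
  have f3 : I * P * D = D := by
    ext a b
    rw [Matrix.mul_assoc, Matrix.mul_apply]
    simp [Matrix.mul_apply, P, I, D, E.key]
  have f4 : I * LM E E (M.ρ 1) = D * Pᵀ := by
    ext a j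
    simp [Matrix.mul_apply, P, I, D, LM, E.key]
  symm
  refine Nat.card_eq_of_bijective (fun φ => ⟨(mv ((1 : Matrix Y.ι Y.ι R) ⊗ₖ I)).comp φ.1,
    fun r g x => ?_, fun x => ?_⟩) ⟨fun φ φ' e => ?_, fun φ => ?_⟩
  · refine (congrArg (((1 : Matrix Y.ι Y.ι R) ⊗ₖ I) *ᵥ ·) (φ.2 r g x)).trans ?_
    show ((1 : Matrix Y.ι Y.ι R) ⊗ₖ I) *ᵥ (r • (Y.ρ g ⊗ₖ LM E E (M.ρ g)) *ᵥ φ.1 x) =
      r • (Y.ρ g ⊗ₖ tp (1 : Equiv.Perm Z) (M.ρ g)) *ᵥ (((1 : Matrix Y.ι Y.ι R) ⊗ₖ I) *ᵥ φ.1 x)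
    rw [mulVec_smul, mulVec_mulVec, mulVec_mulVec, ← mul_kronecker_mul, ← mul_kronecker_mul, f1,
      Matrix.mul_one, Matrix.one_mul]
  · refine ⟨((1 : Matrix Y.ι Y.ι R) ⊗ₖ Pᵀ) *ᵥ φ.1 x, ?_⟩
    have := Hm_fix φ.2 x
    show ((1 : Matrix Y.ι Y.ι R) ⊗ₖ I) *ᵥ φ.1 x = _
    rw [f0, mulVec_mulVec, ← mul_kronecker_mul, ← f4, ← this, mulVec_mulVec, mulVec_mulVec,
      ← mul_kronecker_mul, ← mul_kronecker_mul]
    simp only [Matrix.mul_one, Matrix.one_mul, Matrix.mul_assoc, LM_mul, Rp.one_mul']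
  · refine Subtype.ext (AddMonoidHom.ext fun x => ?_)
    have e1 : ((1 : Matrix Y.ι Y.ι R) ⊗ₖ I) *ᵥ φ.1 x = ((1 : Matrix Y.ι Y.ι R) ⊗ₖ I) *ᵥ φ'.1 x :=
      DFunLike.congr_fun (congrArg Subtype.val e) x
    have := congrArg (((1 : Matrix Y.ι Y.ι R) ⊗ₖ P) *ᵥ ·) e1
    simpa only [mulVec_mulVec, ← mul_kronecker_mul, f2, Matrix.mul_one, one_kronecker_one,
      one_mulVec] using this
  · have k : ∀ x, ((1 : Matrix Y.ι Y.ι R) ⊗ₖ I) *ᵥ (((1 : Matrix Y.ι Y.ι R) ⊗ₖ P) *ᵥ φ.1 x) =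
        φ.1 x := fun x => by
      obtain ⟨v, hv⟩ := φ.2.2 x
      rw [hv, f0, mulVec_mulVec, mulVec_mulVec, ← mul_kronecker_mul, ← mul_kronecker_mul, f3,
        Matrix.mul_one, Matrix.one_mul]
    refine ⟨⟨(mv ((1 : Matrix Y.ι Y.ι R) ⊗ₖ P)).comp φ.1, fun r g x => ?_⟩,
      Subtype.ext (AddMonoidHom.ext k)⟩
    refine (congrArg (((1 : Matrix Y.ι Y.ι R) ⊗ₖ P) *ᵥ ·) (φ.2.1 r g x)).trans ?_
    show ((1 : Matrix Y.ι Y.ι R) ⊗ₖ P) *ᵥ (r • (Y.ρ g ⊗ₖ tp (1 : Equiv.Perm Z) (M.ρ g)) *ᵥ φ.1 x) =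
      r • (Y.ρ g ⊗ₖ LM E E (M.ρ g)) *ᵥ (((1 : Matrix Y.ι Y.ι R) ⊗ₖ P) *ᵥ φ.1 x)
    conv_lhs => rw [← k x]
    rw [mulVec_smul, mulVec_mulVec _ (Y.ρ g ⊗ₖ _), mulVec_mulVec _ ((1 : Matrix Y.ι Y.ι R) ⊗ₖ P),
      ← mul_kronecker_mul, ← mul_kronecker_mul, f1, ← Matrix.mul_assoc P, f2]
    simp only [Matrix.mul_one, Matrix.one_mul]

end lam

end

end Pool.Agent.H.MP_6995cd_al
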