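import Pool.Agent.H.MP_6995cd_al.J
namespace Pool.Agent.H.MP_6995cd_al
open Matrix
open scoped Kronecker
universe u v w u'

section
variable {R : Type u} {G : Type v} [CommRing R] [Monoid G]

noncomputable abbrev std (n : ℕ) (ι : Type) [Fintype ι] [DecidableEq ι] : ES (Fin n) ι where
  J := {T : Finset ι // T.card = n}
  s T := (T.1.equivFinOfCardEq T.2).symm.toEmbedding.trans (Function.Embedding.subtype _)
  uniq S T h := by
    simp only [← Finset.map_map, Finset.map_univ_equiv, Finset.univ_eq_attach,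
      Finset.attach_map_val] at h
    exact Subtype.ext h
  ex T h := ⟨⟨T, by simpa using h⟩, by
    simp only [← Finset.map_map, Finset.map_univ_equiv, Finset.univ_eq_attach,
      Finset.attach_map_val]⟩

lemma map_sumMap {a b ι κ : Type} [Fintype a] [Fintype b] (s : a ↪ ι) (t : b ↪ κ) :
    Finset.univ.map (s.sumMap t) = (Finset.univ.map s).disjSum (Finset.univ.map t) := by
  ext (x | x) <;> simp

def eqn {n : ℕ} (p : Finset.HasAntidiagonal.antidiagonal n) : Fin n ≃ Fin p.1.1 ⊕ Fin p.1.2 :=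
  (finSumFinEquiv.trans (finCongr (Finset.HasAntidiagonal.mem_antidiagonal.1 p.2))).symm

abbrev sumES (n : ℕ) {ι κ : Type} (E : ∀ i, ES (Fin i) ι) (E' : ∀ i, ES (Fin i) κ) :
    ES (Fin n) (ι ⊕ κ) where
  J := Σ p : Finset.HasAntidiagonal.antidiagonal n, (E p.1.1).J × (E' p.1.2).J
  s x := (eqn x.1).toEmbedding.trans (((E _).s x.2.1).sumMap ((E' _).s x.2.2))
  uniq := by
    rintro ⟨⟨⟨i, j⟩, h⟩, a, b⟩ ⟨⟨⟨i', j'⟩, h'⟩, a', b'⟩ e
    simp only [← Finset.map_map, Finset.map_univ_equiv, map_sumMap, Finset.disjSum_inj] at e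
    have h1 := congrArg Finset.card e.1
    have h2 := congrArg Finset.card e.2
    simp only [Finset.card_map, Finset.card_univ, Fintype.card_fin] at h1 h2
    subst h1 h2
    rw [(E _).uniq _ _ e.1, (E' _).uniq _ _ e.2]
  ex T h := by
    obtain ⟨a, ha⟩ := (E T.toLeft.card).ex T.toLeft (by simp)
    obtain ⟨b, hb⟩ := (E' T.toRight.card).ex T.toRight (by simp)
    refine ⟨⟨⟨(T.toLeft.card, T.toRight.card), by simpa [Finset.card_toLeft_add_card_toRight]
      using h⟩, a, b⟩, ?_⟩
    simp only [← Finset.map_map, Finset.map_univ_equiv, map_sumMap, ha, hb,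
      Finset.toLeft_disjSum_toRight]

abbrev Rp.sig {J : Type} [Fintype J] [DecidableEq J] (A : J → Rp R G) : Rp R G where
  ι := Σ j, (A j).ι
  ρ g := blockDiagonal' fun j => (A j).ρ g
  mul g h := by simp only [← blockDiagonal'_mul, Rp.mul]

lemma cl_sig {J : Type} [Fintype J] [DecidableEq J] (A : J → Rp R G) :
    cl (Rp.sig A) = ∑ j, cl (A j) := by
  have hi : ∀ j, (Rp.sig A).Inv fun x => x.1 = j := fun j g a b h => by
    have : a.1 = b.1 := by
      by_contra hc
      exact h (blockDiagonal'_apply_ne (fun j => (A j).ρ g) a.2 b.2 hc)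
    simp only [this]
  have := (cc_sum Finset.univ (fun j => dg R fun x : (Rp.sig A).ι => x.1 = j) (fun j => (hi j).idem)
    fun i j h => by rw [dg_mul_dg]; exact dg_false _ fun x hx => h (hx.1.symm.trans hx.2)).2
  have e : ∑ j, dg R (fun x : (Rp.sig A).ι => x.1 = j) = 1 := by
    ext a b
    simp only [Matrix.sum_apply, dg, diagonal_apply, Matrix.one_apply]
    by_cases h : a = b <;> simp [h]
  rw [e, cc_one] at this
  rw [this]
  refine Finset.sum_congr rfl fun j _ => ?_
  rw [← cc_one, ← dg_true (fun _ => True) fun _ => trivial]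
  symm
  refine cp_emb (fun _ _ _ _ => Iff.rfl) (hi j) (fun a => ⟨j, a⟩)
    (sigma_mk_injective (β := fun j => (A j).ι))
    (fun g a b => blockDiagonal'_apply_eq (fun j => (A j).ρ g) j a b) (fun a => by simp) ?_
  rintro ⟨i, a⟩ rfl
  exact ⟨a, rfl⟩

lemma sig_eq {J : Type} [Fintype J] [DecidableEq J] (A : J → Rp R G) (g : G) (j : J)
    (a b : (A j).ι) : (Rp.sig A).ρ g ⟨j, a⟩ ⟨j, b⟩ = (A j).ρ g a b :=
  blockDiagonal'_apply_eq (fun j => (A j).ρ g) j a b

lemma sig_ne {J : Type} [Fintype J] [DecidableEq J] (A : J → Rp R G) (g : G) {j k : J} (h : j ≠ k)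
    (a : (A j).ι) (b : (A k).ι) : (Rp.sig A).ρ g ⟨j, a⟩ ⟨k, b⟩ = 0 :=
  blockDiagonal'_apply_ne (fun j => (A j).ρ g) a b h

noncomputable def lm (n : ℕ) (A : Rp R G) : K R G := cl (A.lam (std n A.ι))

lemma lm_sum (n : ℕ) (A B : Rp R G) :
    lm n (A.sum B) = ∑ p ∈ Finset.HasAntidiagonal.antidiagonal n, lm p.1 A * lm p.2 B := by
  rw [← Finset.sum_coe_sort, lm, cl_iso ((Rp.Iso.refl (A.sum B)).lam _
    (sumES n (fun i => std i A.ι) fun i => std i B.ι))]
  simp only [lm, ← cl_ten]
  rw [← cl_sig]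
  refine cl_iso (Rp.iso_of_equiv (Equiv.refl _) ?_)
  rintro g ⟨p, a, b⟩ ⟨q, c, d⟩
  by_cases h : p = q
  · subst h
    refine (sig_eq (fun x : Finset.HasAntidiagonal.antidiagonal n =>
      (A.lam (std x.1.1 A.ι)).ten (B.lam (std x.1.2 B.ι))) g p (a, b) (c, d)).trans ?_
    simp only [kroneckerMap_apply, LM, of_apply, DM]
    rw [← det_fromBlocks_zero₂₁ _ 0, ← det_submatrix_equiv_self (eqn p)]
    congr 1
    ext x y
    simp only [submatrix_apply, of_apply, Function.Embedding.trans_apply, Equiv.coe_toEmbedding]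
    rcases eqn p x with x | x <;> rcases eqn p y with y | y <;> rfl
  · refine (sig_ne (fun x : Finset.HasAntidiagonal.antidiagonal n =>
      (A.lam (std x.1.1 A.ι)).ten (B.lam (std x.1.2 B.ι))) g h (a, b) (c, d)).trans ?_
    simp only [LM, of_apply, DM_eq]
    refine (Finset.sum_eq_zero fun σ _ => mul_eq_zero_of_right _ ?_).symm
    by_contra hc
    have h1 : ∀ z, (eqn p (σ z)).isLeft = (eqn q z).isLeft := fun z => by
      have := mt (Finset.prod_eq_zero (Finset.mem_univ z)) hc
      simp only [Function.Embedding.trans_apply, Equiv.coe_toEmbedding] at this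
      revert this
      rcases eqn p (σ z) with x | x <;> rcases eqn q z with y | y <;> simp
    have h2 : ∀ p : Finset.HasAntidiagonal.antidiagonal n, Fintype.card {z // (eqn p z).isLeft} = p.1.1 := fun p => by
      rw [Fintype.card_congr ((eqn p).subtypeEquiv (q := fun y => y.isLeft) fun _ => Iff.rfl),
        Fintype.card_congr Equiv.sumIsLeft, Fintype.card_fin]
    have h3 : p.1.1 = q.1.1 := (h2 p).symm.trans
      ((Fintype.card_congr (σ.subtypeEquiv fun z => by rw [h1])).symm.trans (h2 q))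
    have h4 := Finset.HasAntidiagonal.mem_antidiagonal.1 p.2
    have h5 := Finset.HasAntidiagonal.mem_antidiagonal.1 q.2
    exact h (Subtype.ext (Prod.ext h3 (by omega)))

lemma lm_zero (A : Rp R G) : lm 0 A = 1 := by
  rw [← cl_one]
  have : Unique (std 0 A.ι).J := ⟨⟨⟨∅, rfl⟩⟩, fun T => Subtype.ext (Finset.card_eq_zero.1 T.2)⟩
  exact cl_iso (Rp.iso_of_equiv (Equiv.ofUnique _ _) fun g a b => by simp [LM, DM])

lemma lm_big (A : Rp R G) {n : ℕ} (h : Fintype.card A.ι < n) : lm n A = 0 := by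
  refine cl_eq_zero _ ?_
  ext ⟨T, hT⟩
  have := T.card_le_univ
  omega

open PowerSeries in
noncomputable def lt (A : Rp R G) : (K R G)⟦X⟧ˣ :=
  (isUnit_iff_constantCoeff.2 (by
    show IsUnit (lm 0 A)
    rw [lm_zero]
    exact isUnit_one) : IsUnit (PowerSeries.mk fun n => lm n A)).unit

noncomputable def ltK : K R G →+ Additive (PowerSeries (K R G))ˣ :=
  Kadd (fun A => Additive.ofMul (lt A)) (fun A B h => by
    refine congrArg _ (Units.ext (PowerSeries.ext fun n => ?_))
    simp only [lt, IsUnit.unit_spec, PowerSeries.coeff_mk]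
    exact cl_iso (h.lam _ _)) fun A B => by
    rw [← ofMul_mul]
    refine congrArg _ (Units.ext (PowerSeries.ext fun n => ?_))
    simp only [lt, IsUnit.unit_spec, PowerSeries.coeff_mk, Units.val_mul, PowerSeries.coeff_mul,
      lm_sum]

noncomputable def lam (n : ℕ) (x : K R G) : K R G := PowerSeries.coeff n (ltK x).toMul.1

lemma lam_cl (n : ℕ) (A : Rp R G) : lam n (cl A) = lm n A := by
  simp [lam, ltK, lt]

lemma lam_add (n : ℕ) (x y : K R G) :
    lam n (x + y) = ∑ p ∈ Finset.HasAntidiagonal.antidiagonal n, lam p.1 x * lam p.2 y := by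
  simp only [lam, map_add, toMul_add, Units.val_mul, PowerSeries.coeff_mul]

lemma Pol.sum {S : Type u} [CommSemiring S] {T : Type v} [CommRing T] {J : Type w} {n : ℕ}
    (s : Finset J) {F : J → Gr S → T} (h : ∀ j ∈ s, Pol n (F j)) : Pol n fun x => ∑ j ∈ s, F j x := by
  classical
  induction s using Finset.induction_on with
  | empty => exact Pol.mono (n := 0) (fun _ => by simp) n.zero_le
  | insert a s ha ih =>
    simp only [Finset.sum_insert ha]
    exact (h a (Finset.mem_insert_self _ _)).add (ih fun j hj => h j (Finset.mem_insert_of_mem hj))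

lemma lam_pol (n : ℕ) : Pol (n + 1) (lam n : K R G → _) := by
  induction n using Nat.strong_induction_on with
  | _ n ih =>
    intro a
    obtain ⟨A, rfl⟩ := S.surj a
    have := Pol.sum ((Finset.HasAntidiagonal.antidiagonal n).erase (n, 0)) (F := fun p x => lam p.1 x * lm p.2 A)
      fun p hp => by
        have h1 := Finset.HasAntidiagonal.mem_antidiagonal.1 (Finset.mem_of_mem_erase hp)
        have h2 : p.1 < n := by
          by_contra hc
          exact Finset.ne_of_mem_erase hp (Prod.ext (by omega) (by omega))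
        exact ((ih p.1 h2).comp (AddMonoidHom.mulRight (lm p.2 A))).mono h2
    convert this using 2 with x
    show lam n (x + cl A) - _ = _
    rw [lam_add, ← Finset.add_sum_erase _ _ (show (n, 0) ∈ Finset.HasAntidiagonal.antidiagonal n by simp)]
    simp [lam_cl, lm_zero]

lemma hv_lam [Finite R] (N : Op R G) (l n : ℕ) (y x : K R G) :
    hv (MonoidHom.inl G (Equiv.Perm (Fin n))) (fun σ => ((Equiv.Perm.sign σ : ℤ) : R))
      (fun σ => (1, σ)) N l (res (MonoidHom.fst _ _) y * PW (Fin n) x) = h0 N l (y * lam n x) := by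
  refine K_poly_ext (((Poly.const _).mul (PW_poly _)).comp _)
    (((Poly.const _).mul ⟨_, lam_pol n⟩).comp _) (fun M => ?_) x
  have : ∀ Y : Rp R G, hv (MonoidHom.inl G (Equiv.Perm (Fin n)))
      (fun σ => ((Equiv.Perm.sign σ : ℤ) : R)) (fun σ => (1, σ)) N l
      (res (MonoidHom.fst _ _) (cl Y) * PW (Fin n) (cl M)) = h0 N l (cl Y * lam n (cl M)) :=
    fun Y => by rw [res_cl, PW_cl, lam_cl, lm, ← cl_ten, ← cl_ten, hv_cl, h0_cl, card_HA_lam]
  obtain ⟨Y, Y', rfl⟩ := K_ex y
  simp only [map_sub, sub_mul, this]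

end

section
variable {R : Type u} {G : Type v} [CommRing R] [Group G]

lemma lm_top (A : Rp R G) (h : A.ρ 1 = 1) : IsUnit (lm (Fintype.card A.ι) A) := by
  have : Unique (std (Fintype.card A.ι) A.ι).J :=
    ⟨⟨⟨Finset.univ, rfl⟩⟩, fun T => Subtype.ext (Finset.eq_univ_of_card _ T.2)⟩
  let M := A.lam (std (Fintype.card A.ι) A.ι)
  have h1 : M.ρ 1 default default = 1 := by
    show DM (A.ρ 1) _ _ = 1
    rw [h, ES.one, if_pos rfl]
  have h2 : ∀ g g', M.ρ (g * g') default default =
      M.ρ g default default * M.ρ g' default default := fun g g' => by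
    rw [M.mul, Matrix.mul_apply, Fintype.sum_unique]
  let M' : Rp R G := ⟨Unit, fun g => Matrix.of fun _ _ => M.ρ g⁻¹ default default, fun g g' => by
    ext
    simp [Matrix.mul_apply, h2, mul_comm]⟩
  refine IsUnit.of_mul_eq_one (cl M') ?_
  rw [lm, ← cl_ten, ← cl_one]
  have : Unique (M.ten M').ι := ⟨⟨(default, ())⟩, fun x => Prod.ext (Subsingleton.elim _ _) rfl⟩
  refine cl_iso (Rp.iso_of_equiv (Equiv.ofUnique _ _) fun g a b => ?_)
  show 1 = M.ρ g a.1 b.1 * M.ρ g⁻¹ default default
  rw [Subsingleton.elim a.1 default, Subsingleton.elim b.1 default, ← h2, mul_inv_cancel, h1]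

theorem loc [Finite R] {p j : ℕ} (hp : p.Prime) (hR : (p : R) ^ j = 0) (e : K R G) (A B : Rp R G)
    (hA : A.ρ 1 = 1) (hB : B.ρ 1 = 1) (he : e * e = e) (hu : IsIdempotentElem (cl A - cl B))
    (heu : e * (cl A - cl B) = 0) (hab : ¬ Fintype.card A.ι ≡ Fintype.card B.ι [MOD p]) : e = 0 := by
  have h1 : ∀ n, ¬ p ∣ n → e * lam n (cl A - cl B) = 0 := fun n hn =>
    eq_zero_of_h0 fun N l => by
      rw [← hv_lam, vanish hp hR e _ he hu heu n (Fin n) (Fintype.card_fin n) hn, map_zero]
  let h : PowerSeries (K R G) := PowerSeries.mk fun n => e * lam n (cl A - cl B)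
  let α : ℕ → PowerSeries (K R G) := fun k => PowerSeries.mk fun n =>
    if n ≡ k [MOD p] then e * lm n A else 0
  let β : ℕ → PowerSeries (K R G) := fun k => PowerSeries.mk fun n =>
    if n ≡ k [MOD p] then lm n B else 0
  have h2 : ∀ k, α k = h * β k := fun k => by
    ext n
    have := lam_add n (cl A - cl B) (cl B)
    rw [sub_add_cancel] at this
    simp only [lam_cl] at this
    simp only [α, β, h, PowerSeries.coeff_mul, PowerSeries.coeff_mk, this, Finset.mul_sum]
    rw [Finset.ite_sum_zero]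
    refine Finset.sum_congr rfl fun q hq => ?_
    by_cases hd : p ∣ q.1
    · have : n ≡ q.2 [MOD p] := by
        rw [← Finset.HasAntidiagonal.mem_antidiagonal.1 hq]
        simpa using ((Nat.modEq_zero_iff_dvd.2 hd).add_right q.2)
      by_cases hk : n ≡ k [MOD p]
      · rw [if_pos hk, if_pos (this.symm.trans hk), mul_assoc]
      · rw [if_neg hk, if_neg fun h => hk (this.trans h), mul_zero]
    · rw [← mul_assoc, h1 _ hd]
      simp
  set a := Fintype.card A.ι with ha
  set b := Fintype.card B.ι with hb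
  have h3 : α a * β b = α b * β a := by rw [h2, h2]; ring
  have h4 : ∀ k k', PowerSeries.coeff (a + b) (α k * β k') =
      (if a ≡ k [MOD p] then e * lm a A else 0) * if b ≡ k' [MOD p] then lm b B else 0 := by
    intro k k'
    rw [PowerSeries.coeff_mul, Finset.sum_eq_single (a, b)]
    · simp [α, β]
    · intro q hq hne
      have := Finset.HasAntidiagonal.mem_antidiagonal.1 hq
      simp only [α, β, PowerSeries.coeff_mk]
      by_cases h5 : a < q.1
      · rw [lm_big A h5]; simp
      · rw [lm_big B (n := q.2) (by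
          by_contra hc
          exact hne (Prod.ext (by omega) (by omega)))]
        simp
    · simp
  have h5 := congrArg (PowerSeries.coeff (a + b)) h3
  rw [h4, h4, if_pos (Nat.ModEq.refl _), if_pos (Nat.ModEq.refl _), if_neg hab, zero_mul,
    mul_assoc] at h5
  exact ((lm_top A hA).mul (lm_top B hB)).mul_left_eq_zero.1 h5

theorem loc2 [Finite R] {p j : ℕ} (hp : p.Prime) (hR : (p : R) ^ j = 0) (A B : Rp R G)
    (hA : A.ρ 1 = 1) (hB : B.ρ 1 = 1) (hu : IsIdempotentElem (cl A - cl B)) :
    A.Iso B ∨ A.Iso (Rp.one.sum B) := by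
  by_cases h : Fintype.card A.ι ≡ Fintype.card B.ι [MOD p]
  · left
    have e : cl (Rp.one.sum B) - cl A = 1 - (cl A - cl B) := by rw [cl_sum, cl_one]; ring
    refine cancel (sub_eq_zero.1 (loc hp hR _ (Rp.one.sum B) A (by simp [hB]) hA hu
      (e ▸ hu.one_sub) (e ▸ hu.mul_one_sub_self) fun h' => ?_))
    have := h'.trans h
    simp only [Fintype.card_sum, Fintype.card_unique] at this
    have h2 : 1 + Fintype.card B.ι ≡ 0 + Fintype.card B.ι [MOD p] := by simpa using this
    exact hp.one_lt.ne' (Nat.dvd_one.1 (Nat.modEq_zero_iff_dvd.1 (h2.add_right_cancel' _)))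
  · right
    have := loc hp hR _ A B hA hB hu.one_sub hu hu.one_sub_mul_self h
    refine cancel ?_
    rw [cl_sum, cl_one]
    linear_combination -this

end

end Pool.Agent.H.MP_6995cd_al
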