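import Pool.Agent.H.MP_6995cd_al.L
namespace Pool.Agent.H.MP_6995cd_al
open Matrix
open scoped Kronecker
universe u v w u'

instance : IsJacobsonRing ℤ := isJacobsonRing_iff_prime_eq.2 fun P hP => by
  by_cases h : P = ⊥
  · subst h
    rw [eq_bot_iff]
    intro x hx
    have := Int.isUnit_iff.1 (Ideal.mem_jacobson_bot.1 hx x)
    rw [Ideal.mem_bot]
    rcases this with h | h <;> nlinarith
  · have := Ring.DimensionLEOne.maximalOfPrime h hP
    exact Ideal.jacobson_eq_self_of_isMaximal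

lemma res_fin {R : Type u} [CommRing R] [Algebra.FiniteType ℤ R] (m : Ideal R) [hm : m.IsMaximal] :
    Finite (R ⧸ m) ∧ ∃ p : ℕ, p.Prime ∧ (p : R) ∈ m := by
  let := Ideal.Quotient.field m
  have : Module.Finite ℤ (R ⧸ m) := finite_of_finite_type_of_isJacobsonRing ℤ (R ⧸ m)
  obtain ⟨p, hp⟩ := CharP.exists (R ⧸ m)
  rcases CharP.char_is_prime_or_zero (R ⧸ m) p with h | rfl
  · refine ⟨Module.finite_of_fg_torsion _ fun x => ⟨⟨p, mem_nonZeroDivisors_of_ne_zero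
      (by exact_mod_cast h.ne_zero)⟩, by simp [Submonoid.smul_def]⟩, p, h, ?_⟩
    rw [← Ideal.Quotient.eq_zero_iff_mem, map_natCast, CharP.cast_eq_zero]
  · have := CharP.charP_to_charZero (R ⧸ m)
    exact absurd (isField_of_isIntegral_of_isField (R := ℤ) (S := R ⧸ m)
      (algebraMap ℤ (R ⧸ m)).injective_int (Field.toIsField _)) Int.not_isField

section
variable {R : Type u} {G : Type v} [CommRing R] [Group G]

def Sc (A B : Rp R G) (d : R) : Prop :=
  ∃ (α : Matrix B.ι A.ι R) (β : Matrix A.ι B.ι R), (∀ g, α * A.ρ g = B.ρ g * α) ∧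
    (∀ g, β * B.ρ g = A.ρ g * β) ∧ β * α = d • 1 ∧ α * β = d • 1

lemma mem_smul_pi {ι : Type w} [Finite ι] (I : Ideal R) (x : ι → R) (h : ∀ i, x i ∈ I) :
    x ∈ (I • ⊤ : Submodule R (ι → R)) := by
  classical
  have := Fintype.ofFinite ι
  rw [pi_eq_sum_univ x]
  exact Submodule.sum_mem _ fun i _ => Submodule.smul_mem_smul (h i) trivial

lemma AR [IsNoetherianRing R] [Finite G] (m : Ideal R) (A B : Rp R G) (hA : A.ρ 1 = 1)
    (hB : B.ρ 1 = 1) (hp : m.IsPrime)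
    (h : ∀ n, (A.bc (Ideal.Quotient.mk (m ^ (n + 1)))).Iso (B.bc (Ideal.Quotient.mk (m ^ (n + 1))))) :
    ∃ d ∉ m, Sc A B d := by
  classical
  let T : (B.ι × A.ι → R) →ₗ[R] (G × B.ι × A.ι → R) :=
    { toFun := fun φ t => (Matrix.of (Function.curry φ) * A.ρ t.1 -
        B.ρ t.1 * Matrix.of (Function.curry φ)) t.2.1 t.2.2
      map_add' := fun φ ψ => by
        ext t
        simp [Matrix.mul_apply, add_mul, mul_add, Finset.sum_add_distrib]
        ring
      map_smul' := fun r φ => by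
        ext t
        simp [Matrix.mul_apply, mul_sub, Finset.mul_sum, mul_assoc, mul_left_comm] }
  obtain ⟨k, hk⟩ := m.exists_pow_inf_eq_pow_smul (LinearMap.range T)
  obtain ⟨α, β, h1, -, h3, h4⟩ := h k
  obtain ⟨s, hs⟩ := (Ideal.Quotient.mk_surjective (I := m ^ (k + 1))).hasRightInverse
  let φ0 : B.ι × A.ι → R := fun x => s (α x.1 x.2)
  have e0 : (Matrix.of (Function.curry φ0)).map (Ideal.Quotient.mk (m ^ (k + 1))) = α := by
    ext; exact hs _
  have hT : T φ0 ∈ (m ^ (k + 1) • ⊤ : Submodule R (G × B.ι × A.ι → R)) ⊓ LinearMap.range T := by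
    refine ⟨mem_smul_pi _ _ fun t => ?_, φ0, rfl⟩
    rw [← Ideal.Quotient.eq_zero_iff_mem]
    have := congrFun (congrFun (h1 t.1) t.2.1) t.2.2
    rw [← e0, ← Matrix.map_mul, ← Matrix.map_mul, map_apply, map_apply] at this
    show Ideal.Quotient.mk (m ^ (k + 1)) (_ - _) = 0
    rw [map_sub, this, sub_self]
  rw [hk (k + 1) k.le_succ, Nat.add_sub_cancel_left, pow_one] at hT
  have hT2 : T φ0 ∈ (m • ⊤ : Submodule R (B.ι × A.ι → R)).map T := by
    rw [Submodule.map_smul'', Submodule.map_top]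
    exact Submodule.smul_mono le_rfl inf_le_right hT
  obtain ⟨ψ, hψ, e1⟩ := hT2
  have hψ' : ∀ x, ψ x ∈ m := fun x => Submodule.smul_induction_on hψ
    (fun r hr n _ => m.mul_mem_right _ hr) fun a b ha hb => m.add_mem ha hb
  let φ : Matrix B.ι A.ι R := Matrix.of (Function.curry (φ0 - ψ))
  have k1 : ∀ g, φ * A.ρ g = B.ρ g * φ := fun g => by
    ext b a
    have := congrFun (map_sub T φ0 ψ) (g, b, a)
    rw [e1, sub_self] at this
    exact sub_eq_zero.1 this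
  let f := Ideal.Quotient.factor (Ideal.pow_le_self k.succ_ne_zero : m ^ (k + 1) ≤ m)
  have e2 : φ.map (Ideal.Quotient.mk m) = α.map f := by
    rw [← e0]
    ext b a
    simp [φ, f, Ideal.Quotient.eq_zero_iff_mem.2 (hψ' _)]
  have e3 : β.map f * α.map f = 1 := by
    rw [← Matrix.map_mul, h3]
    simp [hA]
  have e4 : α.map f * β.map f = 1 := by
    rw [← Matrix.map_mul, h4]
    simp [hB]
  have := Ideal.Quotient.nontrivial_iff.2 hp.ne_top
  let e := Fintype.equivOfCardEq (Matrix.square_of_invertible _ _ e3 e4)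
  let φ' := φ.submatrix e id
  have hd : φ'.det ∉ m := by
    rw [← Ideal.Quotient.eq_zero_iff_mem, RingHom.map_det]
    refine (Matrix.isUnit_det_of_left_inverse (B := (β.map f).submatrix id e) ?_).ne_zero
    rw [RingHom.mapMatrix_apply, ← submatrix_map, e2, submatrix_mul_equiv, e3]
    rfl
  let ψ0 := φ'.adjugate.submatrix id e.symm
  have eφ : φ = φ'.submatrix e.symm id := by ext; simp [φ']
  have k3 : ψ0 * φ = φ'.det • 1 := by
    rw [eφ, submatrix_mul_equiv, adjugate_mul]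
    rfl
  have k4 : φ * ψ0 = φ'.det • 1 := by
    rw [eφ, ← submatrix_mul _ _ _ id _ Function.bijective_id, mul_adjugate]
    ext a b
    simp [Matrix.one_apply]
  refine ⟨φ'.det * φ'.det, fun h => hd ((hp.mem_or_mem h).elim id id), φ, φ'.det • ψ0, k1,
    fun g => ?_, ?_, ?_⟩
  · have : ψ0 * (φ * A.ρ g) * ψ0 = ψ0 * (B.ρ g * φ) * ψ0 := by rw [k1]
    rw [← Matrix.mul_assoc, k3, Matrix.mul_assoc ψ0, Matrix.mul_assoc (B.ρ g), k4] at this
    simpa using this.symm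
  · rw [Matrix.smul_mul, k3, smul_smul]
  · rw [Matrix.mul_smul, k4, smul_smul]

theorem span_Sc [Algebra.FiniteType ℤ R] [Finite G] (A B : Rp R G) (hA : A.ρ 1 = 1)
    (hB : B.ρ 1 = 1) (hu : IsIdempotentElem (cl A - cl B)) :
    Ideal.span {d | Sc A B d} = ⊤ ∨ Ideal.span {d | Sc A (Rp.one.sum B) d} = ⊤ := by
  have := Algebra.FiniteType.isNoetherianRing ℤ R
  have key : ∀ (m : Ideal R) [m.IsMaximal] (n : ℕ),
      ((A.bc (Ideal.Quotient.mk (m ^ (n + 1)))).Iso (B.bc (Ideal.Quotient.mk (m ^ (n + 1)))) ∧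
        Fintype.card A.ι = Fintype.card B.ι) ∨
      ((A.bc (Ideal.Quotient.mk (m ^ (n + 1)))).Iso
        ((Rp.one.sum B).bc (Ideal.Quotient.mk (m ^ (n + 1)))) ∧
        Fintype.card A.ι = 1 + Fintype.card B.ι) := by
    intro m hm n
    obtain ⟨_, p, hp, hpm⟩ := res_fin m
    have := Ideal.finite_quotient_pow (IsNoetherian.noetherian m) (n + 1)
    have : Nontrivial (R ⧸ m ^ (n + 1)) := Ideal.Quotient.nontrivial_iff.2 fun h =>
      hm.ne_top (top_le_iff.1 (h ▸ Ideal.pow_le_self n.succ_ne_zero))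
    have hA' : (A.bc (Ideal.Quotient.mk (m ^ (n + 1)))).ρ 1 = 1 := by simp [hA]
    have hB' : (B.bc (Ideal.Quotient.mk (m ^ (n + 1)))).ρ 1 = 1 := by simp [hB]
    have h1 := hu.map (bc (Ideal.Quotient.mk (m ^ (n + 1))))
    rw [map_sub, bc_cl, bc_cl] at h1
    rcases loc2 hp (j := n + 1) (by
      rw [← map_natCast (Ideal.Quotient.mk (m ^ (n + 1))), ← map_pow, Ideal.Quotient.eq_zero_iff_mem]
      exact Ideal.pow_mem_pow hpm _) _ _ hA' hB' h1 with h | h
    · refine Or.inl ⟨h, ?_⟩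
      obtain ⟨α, β, -, -, h3, h4⟩ := h
      exact Matrix.square_of_invertible _ _ (h3.trans hA') (h4.trans hB')
    · refine Or.inr ⟨by rwa [Rp.bc_sum, Rp.bc_one], ?_⟩
      obtain ⟨α, β, -, -, h3, h4⟩ := h
      simpa using Matrix.square_of_invertible _ _ (h3.trans hA') (h4.trans (by simp [hB]))
  have fin : ∀ B : Rp R G, B.ρ 1 = 1 → (∀ (m : Ideal R) [m.IsMaximal] (n : ℕ),
      (A.bc (Ideal.Quotient.mk (m ^ (n + 1)))).Iso (B.bc (Ideal.Quotient.mk (m ^ (n + 1))))) →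
      Ideal.span {d | Sc A B d} = ⊤ := fun B hB h => by
    by_contra hc
    obtain ⟨m, hm, hle⟩ := Ideal.exists_le_maximal _ hc
    obtain ⟨d, hd, hs⟩ := AR m A B hA hB hm.isPrime (h m)
    exact hd (hle (Ideal.subset_span hs))
  by_cases h : Fintype.card A.ι = Fintype.card B.ι
  · exact Or.inl (fin B hB fun m _ n => ((key m n).resolve_right fun h' => by omega).1)
  · exact Or.inr (fin _ (by simp [hB]) fun m _ n => ((key m n).resolve_left fun h' => h h'.2).1)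

lemma desc_rp (S : Subalgebra ℤ R) (A : Rp R G) (h : ∀ g a b, A.ρ g a b ∈ S) :
    ∃ A0 : Rp S G, A0.bc S.val.toRingHom = A :=
  ⟨⟨A.ι, fun g => Matrix.of fun a b => ⟨A.ρ g a b, h g a b⟩, fun g g' => by
    ext a b
    simp [A.mul, Matrix.mul_apply]⟩, rfl⟩

lemma iso_desc (S : Subalgebra ℤ R) (P Q : Rp S G) (α : Matrix Q.ι P.ι R) (β : Matrix P.ι Q.ι R)
    (hα : ∀ a b, α a b ∈ S) (hβ : ∀ a b, β a b ∈ S)
    (h1 : ∀ g, α * (P.ρ g).map S.val = (Q.ρ g).map S.val * α)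
    (h2 : ∀ g, β * (Q.ρ g).map S.val = (P.ρ g).map S.val * β)
    (h3 : β * α = (P.ρ 1).map S.val) (h4 : α * β = (Q.ρ 1).map S.val) : P.Iso Q := by
  let α0 : Matrix Q.ι P.ι S := Matrix.of fun a b => ⟨α a b, hα a b⟩
  let β0 : Matrix P.ι Q.ι S := Matrix.of fun a b => ⟨β a b, hβ a b⟩
  have e1 : α0.map S.val = α := rfl
  have e2 : β0.map S.val = β := rfl
  have hi : Function.Injective S.val := Subtype.val_injective
  refine ⟨α0, β0, fun g => ?_, fun g => ?_, ?_, ?_⟩ <;> apply Matrix.map_injective hi <;>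
    simp only [Matrix.map_mul, e1, e2, h1, h2, h3, h4]

lemma idem_iff (A B : Rp R G) : IsIdempotentElem (cl A - cl B) ↔
    cl (((A.ten A).sum (B.ten B)).sum B) = cl (((A.ten B).sum (A.ten B)).sum A) := by
  simp only [cl_sum, cl_ten, IsIdempotentElem]
  constructor <;> intro h <;> linear_combination h

theorem desc [Finite G] (A B : Rp R G) (hu : IsIdempotentElem (cl A - cl B)) :
    ∃ (S : Subalgebra ℤ R) (_ : Algebra.FiniteType ℤ S) (A0 B0 : Rp S G),
      A0.bc S.val.toRingHom = A ∧ B0.bc S.val.toRingHom = B ∧ IsIdempotentElem (cl A0 - cl B0) := by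
  obtain ⟨X, α, β, h1, h2, h3, h4⟩ := cl_eq.1 ((idem_iff A B).1 hu)
  obtain ⟨S, hS, mA, mB, mX, mα, mβ⟩ : ∃ S : Subalgebra ℤ R, Algebra.FiniteType ℤ S ∧
      (∀ g a b, A.ρ g a b ∈ S) ∧ (∀ g a b, B.ρ g a b ∈ S) ∧ (∀ g a b, X.ρ g a b ∈ S) ∧
      (∀ a b, α a b ∈ S) ∧ ∀ a b, β a b ∈ S := by
    let ent : Rp R G → Set R := fun A => Set.range fun t : G × A.ι × A.ι => A.ρ t.1 t.2.1 t.2.2
    let s : Set R := ent A ∪ ent B ∪ ent X ∪ Set.range (Function.uncurry α) ∪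
      Set.range (Function.uncurry β)
    have hs : s.Finite := by simp only [s, ent, Set.finite_union, Set.finite_range, and_self]
    have hm : ∀ x ∈ s, x ∈ Algebra.adjoin ℤ s := fun x hx => Algebra.subset_adjoin hx
    exact ⟨_, Algebra.FiniteType.adjoin_of_finite hs,
      fun g a b => hm _ (Or.inl (Or.inl (Or.inl (Or.inl ⟨(g, a, b), rfl⟩)))),
      fun g a b => hm _ (Or.inl (Or.inl (Or.inl (Or.inr ⟨(g, a, b), rfl⟩)))),
      fun g a b => hm _ (Or.inl (Or.inl (Or.inr ⟨(g, a, b), rfl⟩))),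
      fun a b => hm _ (Or.inl (Or.inr ⟨(a, b), rfl⟩)), fun a b => hm _ (Or.inr ⟨(a, b), rfl⟩)⟩
  obtain ⟨A0, rfl⟩ := desc_rp S A mA
  obtain ⟨B0, rfl⟩ := desc_rp S B mB
  obtain ⟨X0, rfl⟩ := desc_rp S X mX
  have e : ∀ (A B C D E F : Rp S G) g, (((((A.ten B).sum (C.ten D)).sum E).sum F).ρ g).map S.val =
      (((((A.bc S.val.toRingHom).ten (B.bc S.val.toRingHom)).sum ((C.bc S.val.toRingHom).ten
        (D.bc S.val.toRingHom))).sum (E.bc S.val.toRingHom)).sum (F.bc S.val.toRingHom)).ρ g := by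
    intro A B C D E F g
    ext (((a | a) | a) | a) (((b | b) | b) | b) <;> simp
  refine ⟨S, hS, A0, B0, rfl, rfl, (idem_iff _ _).2 (cl_eq.2 ⟨X0,
    iso_desc S _ _ α β mα mβ (fun g => ?_) (fun g => ?_) ?_ ?_⟩)⟩ <;> simp only [e]
  exacts [h1 g, h2 g, h3, h4]

abbrev UR (R : Type u) (G : Type v) [CommRing R] [Group G] := {A : Rp R G // A.ρ 1 = 1}

abbrev UR.sum (A B : UR R G) : UR R G := ⟨A.1.sum B.1, by simp [A.2, B.2]⟩
abbrev UR.ten (A B : UR R G) : UR R G := ⟨A.1.ten B.1, by simp [A.2, B.2]⟩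
abbrev UR.one : UR R G := ⟨Rp.one, rfl⟩
abbrev UR.zero : UR R G := ⟨Rp.zero, Subsingleton.elim _ _⟩

lemma Sc.mul {A B C D : Rp R G} {a b : R} (h : Sc A B a) (h' : Sc C D b) :
    Sc ((A.ten C).sum (B.ten D)) ((B.ten C).sum (A.ten D)) (a + b) := by
  obtain ⟨α, β, h1, h2, h3, h4⟩ := h
  obtain ⟨α', β', k1, k2, k3, k4⟩ := h'
  refine ⟨fromBlocks (α ⊗ₖ 1) (-(1 ⊗ₖ β')) (1 ⊗ₖ α') (β ⊗ₖ 1),
    fromBlocks (β ⊗ₖ 1) (1 ⊗ₖ β') (-(1 ⊗ₖ α')) (α ⊗ₖ 1), fun g => ?_, fun g => ?_, ?_, ?_⟩ <;>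
  simp [fromBlocks_multiply, ← mul_kronecker_mul, h1, h2, h3, h4, k1, k2, k3, k4, smul_kronecker,
    kronecker_smul, ← add_smul, add_comm]
  all_goals
    rw [← fromBlocks_one, fromBlocks_smul]
    simp

theorem glob [Finite G] {T : Type w} [CommRing T] (c : UR R G → T)
    (c1 : ∀ A B, A.1.Iso B.1 → c A = c B) (c2 : ∀ A B, c (A.sum B) = c A + c B)
    (c3 : ∀ A B, c (A.ten B) = c A * c B) (c4 : c UR.one = 1) (Φ : T →+* K R G)
    (hΦ : ∀ A, Φ (c A) = cl A.1) (A B : UR R G) (h : IsIdempotentElem (c A - c B)) :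
    c A - c B = 0 ∨ c A - c B = 1 := by
  have c0 : c UR.zero = 0 := by
    have := c2 UR.zero UR.zero
    rwa [c1 _ UR.zero (S.mk_eq.1 (by rw [S.mk_sum, S.mk_zero, add_zero])), left_eq_add] at this
  have hu := h.map Φ
  rw [map_sub, hΦ, hΦ] at hu
  obtain ⟨A, hA⟩ := A
  obtain ⟨B, hB⟩ := B
  obtain ⟨S, hS, A0, B0, rfl, rfl, h0⟩ := desc A B hu
  have hi : Function.Injective S.val.toRingHom := Subtype.val_injective
  have u : ∀ A0 : Rp S G, (A0.bc S.val.toRingHom).ρ 1 = 1 → A0.ρ 1 = 1 := fun A0 h =>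
    Matrix.map_injective hi (h.trans (Matrix.map_one _ (map_zero _) (map_one _)).symm)
  have key : ∀ (A0 B0 : Rp S G) (hA hB), Ideal.span {d | Sc A0 B0 d} = ⊤ →
      IsNilpotent (c ⟨A0.bc S.val.toRingHom, hA⟩ - c ⟨B0.bc S.val.toRingHom, hB⟩) := by
    intro A0 B0 hA hB hs
    have : ∀ d ∈ Ideal.span {d | Sc A0 B0 d}, ∃ (k : ℕ) (E F : UR R G),
        (c ⟨A0.bc S.val.toRingHom, hA⟩ - c ⟨B0.bc S.val.toRingHom, hB⟩) ^ k = c E - c F ∧
          Sc E.1 F.1 (d : R) := by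
      intro d hd
      induction hd using Submodule.span_induction with
      | mem d hd =>
        obtain ⟨α, β, h1, h2, h3, h4⟩ := hd
        refine ⟨1, _, _, pow_one _, α.map S.val.toRingHom, β.map S.val.toRingHom, fun g => ?_,
          fun g => ?_, ?_, ?_⟩ <;> simp only [← Matrix.map_mul, h1, h2, h3, h4]
        all_goals
          ext a b
          by_cases hab : a = b <;> simp [hab]
      | zero => exact ⟨0, UR.one, UR.zero, by simp [c0, c4], 0, 0, by simp⟩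
      | add d d' _ _ h h' =>
        obtain ⟨k, E, F, h1, h2⟩ := h
        obtain ⟨k', E', F', h1', h2'⟩ := h'
        refine ⟨k + k', (E.ten E').sum (F.ten F'), (F.ten E').sum (E.ten F'), ?_, h2.mul h2'⟩
        rw [pow_add, h1, h1', c2, c2, c3, c3, c3, c3]
        ring
      | smul r d _ h =>
        obtain ⟨k, E, F, h1, α, β, k1, k2, k3, k4⟩ := h
        refine ⟨k, E, F, h1, (r : R) • α, β, fun g => ?_, k2, ?_, ?_⟩ <;>
          simp [k1, k3, k4, smul_smul]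
    obtain ⟨k, E, F, h1, α, β, k1, k2, k3, k4⟩ := this 1 (hs ▸ trivial)
    refine ⟨k, ?_⟩
    rw [h1, c1 E F ⟨α, β, k1, k2, by simpa [E.2] using k3, by simpa [F.2] using k4⟩, sub_self]
  rcases span_Sc A0 B0 (u _ hA) (u _ hB) h0 with hs | hs
  · exact Or.inl (h.eq_zero_of_isNilpotent (key A0 B0 hA hB hs))
  · right
    have h1 : ((Rp.one.sum B0).bc S.val.toRingHom).ρ 1 = 1 := by simp [u _ hB]
    have h2 := key A0 _ hA h1 hs
    have h3 : c ⟨_, h1⟩ = 1 + c ⟨_, hB⟩ := by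
      rw [← c4, ← c2]
      congr 2
      rw [Rp.bc_sum, Rp.bc_one]
    have := h.one_sub.eq_zero_of_isNilpotent (by
      convert h2.neg using 1
      rw [h3]
      ring)
    exact (sub_eq_zero.1 this).symm

end

end Pool.Agent.H.MP_6995cd_al
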